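import Pool.Agent.TH422.ITM.Wall

/-! Local structure of the walls; the other families. -/

namespace Pool.Agent.TH422.ITM

open Pool.Agent.H175R2

section wall

variable {n : ℕ}

lemma wall_mate {x y : Fin n × Fin n × Bool × Fin 3} (h : x.1 = y.1) (h' : x.2.1 = y.2.1)
    (h'' : x.2.2.1 = y.2.2.1) (hne : x ≠ y) : (wall n).Adj x y := by
  rw [wall, SimpleGraph.fromRel_adj]
  exact ⟨hne, Or.inl (Or.inl ⟨h, h', h''⟩)⟩

lemma wall_form {x1 : Fin n} {x2 : Fin n} {x3 : Bool} {x4 : Fin 3} {y1 : Fin n} {y2 : Fin n}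
    {y3 : Bool} {y4 : Fin 3} (h : (wall n).Adj (x1, x2, x3, x4) (y1, y2, y3, y4))
    (hy : ¬ (x1 = y1 ∧ x2 = y2 ∧ x3 = y3)) :
    (x3 = false ∧ x4 = 2 ∧ y1 = x1 ∧ y2 = x2 ∧ y3 = true ∧ y4 = 2) ∨
    (x3 = true ∧ x4 = 2 ∧ y1 = x1 ∧ y2 = x2 ∧ y3 = false ∧ y4 = 2) ∨
    (x3 = true ∧ x4 = 0 ∧ y1 = x1 ∧ y2.val = x2.val + 1 ∧ y3 = false ∧ y4 = 0) ∨
    (x3 = false ∧ x4 = 0 ∧ y1 = x1 ∧ y2.val + 1 = x2.val ∧ y3 = true ∧ y4 = 0) ∨
    (x3 = true ∧ x4 = 1 ∧ y1.val = x1.val + 1 ∧ y2 = x2 ∧ y3 = false ∧ y4 = 1) ∨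
    (x3 = false ∧ x4 = 1 ∧ y1.val + 1 = x1.val ∧ y2 = x2 ∧ y3 = true ∧ y4 = 1) := by
  simp only [wall, SimpleGraph.fromRel_adj, Prod.mk.injEq, ne_eq] at h
  rcases h.2 with (a | ⟨a1, a2, ⟨a3, a5⟩, a4, a6⟩ | ⟨a1, a2, ⟨a3, a5⟩, a4, a6⟩ |
      ⟨a1, a2, ⟨a3, a5⟩, a4, a6⟩) |
      (⟨a1, a2, a3⟩ | ⟨a1, a2, ⟨a3, a5⟩, a4, a6⟩ | ⟨a1, a2, ⟨a3, a5⟩, a4, a6⟩ |
      ⟨a1, a2, ⟨a3, a5⟩, a4, a6⟩)
  · exact absurd a hy
  · exact Or.inl ⟨a3, a5, a1.symm, a2.symm, a4, a6⟩
  · exact Or.inr (Or.inr (Or.inl ⟨a3, a5, a1.symm, a2.symm, a4, a6⟩))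
  · exact Or.inr (Or.inr (Or.inr (Or.inr (Or.inl ⟨a3, a5, a1.symm, a2.symm, a4, a6⟩))))
  · exact absurd ⟨a1.symm, a2.symm, a3.symm⟩ hy
  · exact Or.inr (Or.inl ⟨a4, a6, a1, a2, a3, a5⟩)
  · exact Or.inr (Or.inr (Or.inr (Or.inl ⟨a4, a6, a1, a2, a3, a5⟩)))
  · exact Or.inr (Or.inr (Or.inr (Or.inr (Or.inr ⟨a4, a6, a1, a2, a3, a5⟩))))

lemma wall_link {x y z : Fin n × Fin n × Bool × Fin 3} (h : (wall n).Adj x y) (h' : (wall n).Adj x z)
    (hy : ¬ (x.1 = y.1 ∧ x.2.1 = y.2.1 ∧ x.2.2.1 = y.2.2.1))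
    (hz : ¬ (x.1 = z.1 ∧ x.2.1 = z.2.1 ∧ x.2.2.1 = z.2.2.1)) : y = z := by
  obtain ⟨x1, x2, x3, x4⟩ := x
  obtain ⟨y1, y2, y3, y4⟩ := y
  obtain ⟨z1, z2, z3, z4⟩ := z
  have k1 := wall_form h hy
  have k2 := wall_form h' hz
  clear h h' hy hz
  have e : ∀ a b : Fin n, a = b ↔ a.val = b.val := fun a b => Fin.ext_iff
  simp only [Prod.mk.injEq, e] at k1 k2 ⊢
  rcases k1 with ⟨a1, a2, a3, a4, a5, a6⟩ | ⟨a1, a2, a3, a4, a5, a6⟩ | ⟨a1, a2, a3, a4, a5, a6⟩ |
    ⟨a1, a2, a3, a4, a5, a6⟩ | ⟨a1, a2, a3, a4, a5, a6⟩ | ⟨a1, a2, a3, a4, a5, a6⟩ <;>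
  rcases k2 with ⟨b1, b2, b3, b4, b5, b6⟩ | ⟨b1, b2, b3, b4, b5, b6⟩ | ⟨b1, b2, b3, b4, b5, b6⟩ |
    ⟨b1, b2, b3, b4, b5, b6⟩ | ⟨b1, b2, b3, b4, b5, b6⟩ | ⟨b1, b2, b3, b4, b5, b6⟩ <;>
  first
  | (exfalso; rw [a1] at b1; simp at b1; done)
  | (exfalso; rw [a2] at b2; simp at b2; done)
  | (refine ⟨by omega, by omega, ?_, ?_⟩
     · rw [a5, b5]
     · rw [a6, b6])

open Classical in
/-- code of a neighbour of `x` -/
noncomputable def code (x y : Fin n × Fin n × Bool × Fin 3) : Option (Fin 3) :=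
  if x.1 = y.1 ∧ x.2.1 = y.2.1 ∧ x.2.2.1 = y.2.2.1 then some y.2.2.2 else none

lemma code_inj {x y z : Fin n × Fin n × Bool × Fin 3} (h : (wall n).Adj x y)
    (h' : (wall n).Adj x z) (hc : code x y = code x z) : y = z := by
  unfold code at hc
  split_ifs at hc with h1 h2 h2
  · obtain ⟨x1, x2, x3, x4⟩ := x
    obtain ⟨y1, y2, y3, y4⟩ := y
    obtain ⟨z1, z2, z3, z4⟩ := z
    simp only [Option.some.injEq] at hc h1 h2
    obtain ⟨rfl, rfl, rfl⟩ := h1
    obtain ⟨rfl, rfl, rfl⟩ := h2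
    rw [hc]
  · exact wall_link h h' h1 h2

lemma code_ne {x y : Fin n × Fin n × Bool × Fin 3} (h : (wall n).Adj x y) :
    code x y ≠ some x.2.2.2 := by
  intro hc
  unfold code at hc
  split_ifs at hc with h1
  obtain ⟨x1, x2, x3, x4⟩ := x
  obtain ⟨y1, y2, y3, y4⟩ := y
  simp only [Option.some.injEq] at hc h1
  obtain ⟨rfl, rfl, rfl⟩ := h1
  rw [hc] at h
  exact h.ne rfl

lemma wall_not_inv4 : ¬ Inv4 (wall n) := by
  rintro ⟨x, f, hf, hx⟩
  have hinj : Function.Injective (fun i => code x (f i)) :=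
    fun i j hij => hf (code_inj (hx i) (hx j) hij)
  have hb := (Fintype.bijective_iff_injective_and_card _).2 ⟨hinj, by simp⟩
  obtain ⟨i, hi⟩ := hb.2 (some x.2.2.2)
  exact code_ne (hx i) hi

/-- replace the last coordinate -/
def mate (x : Fin n × Fin n × Bool × Fin 3) (t : Fin 3) : Fin n × Fin n × Bool × Fin 3 :=
  (x.1, x.2.1, x.2.2.1, t)

lemma mate_self (x : Fin n × Fin n × Bool × Fin 3) : mate x x.2.2.2 = x := rfl

lemma mate_of_three {x : Fin n × Fin n × Bool × Fin 3} {g : Fin 3 → Fin n × Fin n × Bool × Fin 3}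
    (hg : Function.Injective g) (h : ∀ j, (wall n).Adj x (g j)) {t : Fin 3} (ht : t ≠ x.2.2.2) :
    ∃ j, g j = mate x t := by
  classical
  have hinj : Function.Injective (fun i => code x (g i)) :=
    fun i j hij => hg (code_inj (h i) (h j) hij)
  by_contra hcon
  push Not at hcon
  -- the codes avoid two values
  have h1 : ∀ j, code x (g j) ≠ some t := by
    intro j hj
    apply hcon j
    unfold code at hj
    split_ifs at hj with h1
    obtain ⟨x1, x2, x3, x4⟩ := x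
    rcases hgj : g j with ⟨y1, y2, y3, y4⟩
    rw [hgj] at h1 hj
    simp only [Option.some.injEq] at hj h1
    obtain ⟨rfl, rfl, rfl⟩ := h1
    rw [hj]
    rfl
  have h2 : Finset.univ.image (fun i => code x (g i)) ⊆
      (Finset.univ : Finset (Option (Fin 3))) \ {some t, some x.2.2.2} := by
    intro c hc
    rw [Finset.mem_image] at hc
    obtain ⟨j, _, rfl⟩ := hc
    simp only [Finset.mem_sdiff, Finset.mem_univ, true_and, Finset.mem_insert,
      Finset.mem_singleton, not_or]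
    exact ⟨h1 j, code_ne (h j)⟩
  have h3 := Finset.card_le_card h2
  rw [Finset.card_image_of_injective _ hinj, Finset.card_sdiff_of_subset (Finset.subset_univ _),
    Finset.card_pair (by simpa using ht)] at h3
  simp at h3

lemma wall_not_invK : ¬ InvK (wall n) := by
  classical
  rintro ⟨S, f, hf, hfS, h1, h2⟩
  have hmateS : ∀ i t, mate (f i) t ∈ S := by
    intro i t
    by_cases ht : t = (f i).2.2.2
    · rw [ht, mate_self]; exact hfS i
    · obtain ⟨g, hg, h⟩ := h1 i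
      obtain ⟨j, hj⟩ := mate_of_three hg (fun j => (h j).2) ht
      rw [← hj]; exact (h j).1
  have hadj : ∀ i (t t' : Fin 3), t ≠ t' → (wall n).Adj (mate (f i) t) (mate (f i) t') := by
    intro i t t' htt
    refine wall_mate rfl rfl rfl ?_
    intro h
    exact htt (congrArg (fun v => v.2.2.2) h)
  have hmate : ∀ i t, ∃ i', mate (f i) t = f i' := by
    intro i t
    have : ∃ t' t'' : Fin 3, t ≠ t' ∧ t' ≠ t'' ∧ t ≠ t'' := by
      revert t; decide
    obtain ⟨t', t'', h3, h4, h5⟩ := this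
    exact h2 _ (hmateS i t) _ (hmateS i t') _ (hmateS i t'') (hadj i _ _ h3) (hadj i _ _ h4)
      (hadj i _ _ h5)
  choose F hF using hmate
  have hout : ∃ j, ¬ ((f 0).1 = (f j).1 ∧ (f 0).2.1 = (f j).2.1 ∧ (f 0).2.2.1 = (f j).2.2.1) := by
    by_contra hcon
    push Not at hcon
    have hinj : Function.Injective (fun j => (f j).2.2.2) := by
      intro j k hjk
      apply hf
      have a := hcon j
      have b := hcon k
      refine Prod.ext (a.1.symm.trans b.1) (Prod.ext (a.2.1.symm.trans b.2.1)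
        (Prod.ext (a.2.2.symm.trans b.2.2) hjk))
    have := Fintype.card_le_of_injective _ hinj
    simp at this
  obtain ⟨j, hj⟩ := hout
  have hinj : Function.Injective (fun q : Bool × Fin 3 => F (bif q.1 then 0 else j) q.2) := by
    rintro ⟨b, t⟩ ⟨b', t'⟩ h
    have h3 : mate (f (bif b then 0 else j)) t = mate (f (bif b' then 0 else j)) t' := by
      rw [hF, hF]; exact congrArg f h
    have h4 : t = t' := congrArg (fun v => v.2.2.2) h3
    have e1 := congrArg (fun v => v.1) h3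
    have e2 := congrArg (fun v => v.2.1) h3
    have e3 := congrArg (fun v => v.2.2.1) h3
    simp only [mate] at e1 e2 e3
    cases b <;> cases b' <;> simp only [cond_true, cond_false] at e1 e2 e3
    · rw [h4]
    · exact absurd ⟨e1.symm, e2.symm, e3.symm⟩ hj
    · exact absurd ⟨e1, e2, e3⟩ hj
    · rw [h4]
  have := Fintype.card_le_of_injective _ hinj
  simp at this

end wall

/-! ### the split family -/

lemma split_not_inv2K2 {n : ℕ} : ¬ Inv2K2 (famSplit n) := by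
  rintro ⟨a, b, c, d, h1, h2, hac, had, hbc, hbd, g1, g2, g3, g4⟩
  have key : ∀ p q : Fin n ⊕ (Fin n × Fin n), (famSplit n).Adj p q →
      (∃ a, p = .inl a) ∨ ∃ a, q = .inl a := by
    rintro p q h
    simp only [famSplit, SimpleGraph.fromRel_adj] at h
    rcases h.2 with (⟨a, b, h, _⟩ | ⟨a, b, h, _⟩) | (⟨a, b, h, _⟩ | ⟨a, b, h, _⟩)
    · exact Or.inl ⟨a, h⟩
    · exact Or.inl ⟨a, h⟩
    · exact Or.inr ⟨a, h⟩
    · exact Or.inr ⟨a, h⟩
  have key2 : ∀ p q : Fin n ⊕ (Fin n × Fin n), (∃ a, p = .inl a) → (∃ a, q = .inl a) → p ≠ q →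
      (famSplit n).Adj p q := by
    rintro p q ⟨a, rfl⟩ ⟨b, rfl⟩ hne
    rw [famSplit, SimpleGraph.fromRel_adj]
    exact ⟨hne, Or.inl (Or.inl ⟨a, b, rfl, rfl⟩)⟩
  rcases key _ _ h1 with h1 | h1 <;> rcases key _ _ h2 with h2 | h2
  · exact g1 (key2 _ _ h1 h2 hac)
  · exact g2 (key2 _ _ h1 h2 had)
  · exact g3 (key2 _ _ h1 h2 hbc)
  · exact g4 (key2 _ _ h1 h2 hbd)

lemma split_not_invC {n : ℕ} : ¬ InvC (famSplit n) := by
  rintro ⟨S, ⟨f, hf, hfS⟩, h⟩
  have kll : ∀ a b : Fin n, a ≠ b → (famSplit n).Adj (.inl a) (.inl b) := by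
    intro a b hne
    rw [famSplit, SimpleGraph.fromRel_adj]
    exact ⟨by simpa using hne, Or.inl (Or.inl ⟨a, b, rfl, rfl⟩)⟩
  have krr : ∀ p q : Fin n × Fin n, ¬ (famSplit n).Adj (.inr p) (.inr q) := by
    intro p q h
    simp [famSplit, SimpleGraph.fromRel_adj] at h
  -- there is an element of the clique side in `S`
  by_cases hr : ∃ p, Sum.inr p ∈ S
  · obtain ⟨p, hp⟩ := hr
    obtain ⟨a, ha, b, hb, hab, h3, h4, h5⟩ := h _ hp
    obtain ⟨a, rfl⟩ : ∃ a', a = .inl a' := by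
      rcases a with a | a
      · exact ⟨a, rfl⟩
      · exact absurd h3 (krr _ _)
    obtain ⟨b, rfl⟩ : ∃ b', b = .inl b' := by
      rcases b with b | b
      · exact ⟨b, rfl⟩
      · exact absurd h4 (krr _ _)
    have hab' : a ≠ b := by simpa using hab
    -- the two neighbours of `inl a` are `inl b` and `inr p`
    have nbr : ∀ z ∈ S, (famSplit n).Adj (.inl a) z → z = .inl b ∨ z = .inr p := by
      obtain ⟨c, hc, d, hd, hcd, k3, k4, k5⟩ := h _ ha
      have e1 := k5 _ hb (kll a b hab')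
      have e2 := k5 _ hp h3.symm
      intro z hz hz'
      rcases k5 z hz hz' with rfl | rfl <;> rcases e1 with e1 | e1 <;> rcases e2 with e2 | e2
      all_goals first
        | exact Or.inl e1.symm
        | exact Or.inr e2.symm
        | (rw [← e2] at e1; exact absurd e1 (by simp))
    have hsub : ∀ z ∈ S, z = .inl a ∨ z = .inl b ∨ z = .inr p := by
      rintro (z | z) hz
      · by_cases hza : a = z
        · exact Or.inl (by rw [hza])
        · rcases nbr _ hz (kll _ _ hza) with h | h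
          · exact Or.inr (Or.inl h)
          · exact absurd h (by simp)
      · right; right
        obtain ⟨c, hc, d, hd, hcd, k3, k4, k5⟩ := h _ hz
        -- `inr z` is adjacent to `inl a`
        have : (famSplit n).Adj (.inr z) (.inl a) := by
          have hl : ∀ c : Fin n ⊕ (Fin n × Fin n), c ∈ S → (famSplit n).Adj (.inr z) c →
              c = .inl a ∨ c = .inl b := by
            rintro (c | c) hc k
            · by_cases hca : a = c
              · exact Or.inl (by rw [hca])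
              · rcases nbr _ hc (kll _ _ hca) with h | h
                · exact Or.inr h
                · exact absurd h (by simp)
            · exact absurd k (krr _ _)
          rcases hl _ hc k3 with rfl | rfl
          · exact k3
          · rcases hl _ hd k4 with rfl | rfl
            · exact k4
            · exact absurd rfl hcd
        rcases nbr _ hz this.symm with h | h
        · exact absurd h (by simp)
        · exact h
    -- four elements in three
    have h1 := hsub _ (hfS 0)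
    have h2 := hsub _ (hfS 1)
    have h3 := hsub _ (hfS 2)
    have h4 := hsub _ (hfS 3)
    have i01 : f 0 ≠ f 1 := fun h => absurd (hf h) (by decide)
    have i02 : f 0 ≠ f 2 := fun h => absurd (hf h) (by decide)
    have i03 : f 0 ≠ f 3 := fun h => absurd (hf h) (by decide)
    have i12 : f 1 ≠ f 2 := fun h => absurd (hf h) (by decide)
    have i13 : f 1 ≠ f 3 := fun h => absurd (hf h) (by decide)
    have i23 : f 2 ≠ f 3 := fun h => absurd (hf h) (by decide)
    rcases h1 with h1 | h1 | h1 <;> rcases h2 with h2 | h2 | h2 <;>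
      rcases h3 with h3 | h3 | h3 <;> rcases h4 with h4 | h4 | h4 <;>
      first
      | exact i01 (h1.trans h2.symm)
      | exact i02 (h1.trans h3.symm)
      | exact i03 (h1.trans h4.symm)
      | exact i12 (h2.trans h3.symm)
      | exact i13 (h2.trans h4.symm)
      | exact i23 (h3.trans h4.symm)
  · push Not at hr
    have hl : ∀ z ∈ S, ∃ a, z = Sum.inl a := by
      rintro (z | z) hz
      · exact ⟨z, rfl⟩
      · exact absurd hz (hr z)
    have hadj : ∀ i j, i ≠ j → (famSplit n).Adj (f i) (f j) := by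
      intro i j hij
      obtain ⟨a, ha⟩ := hl _ (hfS i)
      obtain ⟨b, hb⟩ := hl _ (hfS j)
      rw [ha, hb]
      apply kll
      rintro rfl
      exact hij (hf (ha.trans hb.symm))
    obtain ⟨a, ha, b, hb, hab, h3, h4, h5⟩ := h _ (hfS 0)
    have e1 := h5 _ (hfS 1) (hadj 0 1 (by decide))
    have e2 := h5 _ (hfS 2) (hadj 0 2 (by decide))
    have e3 := h5 _ (hfS 3) (hadj 0 3 (by decide))
    have i12 : f 1 ≠ f 2 := fun h => absurd (hf h) (by decide)
    have i13 : f 1 ≠ f 3 := fun h => absurd (hf h) (by decide)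
    have i23 : f 2 ≠ f 3 := fun h => absurd (hf h) (by decide)
    rcases e1 with e1 | e1 <;> rcases e2 with e2 | e2 <;> rcases e3 with e3 | e3 <;>
      first
      | exact i12 (e1.trans e2.symm)
      | exact i13 (e1.trans e3.symm)
      | exact i23 (e2.trans e3.symm)

/-! ### the co-bipartite family -/

lemma cobip_not_invA {n : ℕ} : ¬ InvA (famCobip n) := by
  rintro ⟨a, b, c, h1, h2, h3, h4, h5, h6⟩
  have kll : ∀ a b : Fin n, (Sum.inl a : Fin n ⊕ (Fin n × Fin n)) ≠ Sum.inl b →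
      (famCobip n).Adj (.inl a) (.inl b) := by
    intro a b hne
    rw [famCobip, SimpleGraph.fromRel_adj]
    exact ⟨hne, Or.inl (Or.inl ⟨a, b, rfl, rfl⟩)⟩
  have krr : ∀ a b : Fin n × Fin n, (Sum.inr a : Fin n ⊕ (Fin n × Fin n)) ≠ Sum.inr b →
      (famCobip n).Adj (.inr a) (.inr b) := by
    intro a b hne
    rw [famCobip, SimpleGraph.fromRel_adj]
    exact ⟨hne, Or.inl (Or.inr (Or.inl ⟨a, b, rfl, rfl⟩))⟩
  rcases a with a | a <;> rcases b with b | b <;> rcases c with c | c <;>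
    first
    | exact h4 (kll _ _ h1)
    | exact h5 (kll _ _ h2)
    | exact h6 (kll _ _ h3)
    | exact h4 (krr _ _ h1)
    | exact h5 (krr _ _ h2)
    | exact h6 (krr _ _ h3)

/-! ### the family of complements of truncated complete graphs -/

lemma trunc_not_invP {n : ℕ} : ¬ InvP (famTrunc n) := by
  rintro ⟨y, S, ⟨s0, hs0⟩, h0, h1, h2⟩
  have hna : ∀ p q : {p : Fin n × Fin n // p.1 ≠ p.2}, p ≠ q → ¬ (famTrunc n).Adj p q →
      (p.1.1 = q.1.1 ∨ (p.1.1 = q.1.2 ∧ p.1.2 = q.1.1)) := by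
    intro p q hne h
    rw [famTrunc, SimpleGraph.fromRel_adj] at h
    push Not at h
    exact (h hne).1
  have hadj : ∀ p q : {p : Fin n × Fin n // p.1 ≠ p.2}, (famTrunc n).Adj p q →
      p.1.1 ≠ q.1.1 := by
    intro p q h
    rw [famTrunc, SimpleGraph.fromRel_adj] at h
    rcases h.2 with h | h
    · exact fun h' => h (Or.inl h')
    · exact fun h' => h (Or.inl h'.symm)
  -- all elements of `S` not on the clique of `y` are equal
  have hS : ∀ s ∈ S, y.1.1 = s.1.1 ∨ (y.1.1 = s.1.2 ∧ y.1.2 = s.1.1) := by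
    intro s hs
    exact hna y s (fun h => h0 (h ▸ hs)) (h1 s hs)
  have huniq : ∀ s ∈ S, ∀ t ∈ S, y.1.1 ≠ s.1.1 → y.1.1 ≠ t.1.1 → s = t := by
    intro s hs t ht h3 h4
    have h5 := (hS s hs).resolve_left h3
    have h6 := (hS t ht).resolve_left h4
    apply Subtype.ext
    exact Prod.ext (h5.2.symm.trans h6.2) (h5.1.symm.trans h6.1)
  obtain ⟨a, ha, b, hb, hab, h3, h4⟩ := h2 s0 hs0
  by_cases hc : y.1.1 = s0.1.1
  · have k1 := hadj _ _ h3
    have k2 := hadj _ _ h4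
    rw [← hc] at k1 k2
    exact hab (huniq a ha b hb k1 k2)
  · -- neighbours of `s0` are on the clique; they have no two neighbours
    have k1 : y.1.1 = a.1.1 := by
      by_contra h
      exact h3.ne (huniq _ hs0 _ ha hc h)
    obtain ⟨c, hc', d, hd, hcd, h5, h6⟩ := h2 a ha
    have k3 := hadj _ _ h5
    have k4 := hadj _ _ h6
    rw [← k1] at k3 k4
    exact hcd (huniq c hc' d hd k3 k4)

end Pool.Agent.TH422.ITM
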