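import Pool.Agent.TH422.ITM.Cls
import Pool.Agent.TH422.ITM.WallLoc

/-! Assembly. -/

namespace Pool.Agent.TH422.ITM

open Finset Classical Pool.Agent.H175R2

/-- Clique-width is bounded on the class of finite graphs which do not contain `H` as an induced
topological minor. -/
def BddITM {W : Type} (H : SimpleGraph W) : Prop :=
  ∃ c : ℕ, ∀ (V : Type) [Finite V] (G : SimpleGraph V), ¬ IsITM H G → cliqueWidth G ≤ c

lemma exists_cwLE {V : Type} [Finite V] [Nonempty V] (G : SimpleGraph V) : ∃ k, CwLE G k := by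
  have : Fintype V := Fintype.ofFinite V
  have ht : Tame G (Fintype.card V) := ⟨univ, by simp, fun x hx => by simp at hx⟩
  exact ⟨_, cwLE_of_dt (dt_of_tame ht)⟩

lemma cwLE_cliqueWidth {V : Type} [Finite V] [Nonempty V] (G : SimpleGraph V) :
    CwLE G (cliqueWidth G) :=
  Nat.sInf_mem (s := {k | CwLE G k}) (exists_cwLE G)

lemma itm_of_unbounded {W : Type} {H : SimpleGraph W} (hb : BddITM H) {V : ℕ → Type}
    [∀ n, Finite (V n)] (fam : ∀ n, SimpleGraph (V n)) (N : ℕ) (hne : ∀ n ≥ N, Nonempty (V n))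
    (hu : ∀ c N : ℕ, ∃ n ≥ N, ∀ k ≤ c, ¬ CwLE (fam n) k) : ∃ n, IsITM H (fam n) := by
  obtain ⟨c, hc⟩ := hb
  obtain ⟨n, hn, hk⟩ := hu c N
  refine ⟨n, ?_⟩
  by_contra hno
  have := hne n hn
  exact hk _ (hc (V n) (fam n) hno) (cwLE_cliqueWidth (fam n))

theorem necessity {W : Type} [Finite W] {H : SimpleGraph W} (hb : BddITM H) :
    H.IsIndContained (SimpleGraph.pathGraph 4) ∨ H.IsIndContained paw ∨
      H.IsIndContained diamond := by
  obtain ⟨n1, h1⟩ := itm_of_unbounded hb (fun n => wall n) 1 (fun n hn =>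
    ⟨(⟨0, by omega⟩, ⟨0, by omega⟩, true, 0)⟩) wall_unbounded
  obtain ⟨n2, h2⟩ := itm_of_unbounded hb (fun n => famSplit n) 1 (fun n hn =>
    ⟨Sum.inl ⟨0, by omega⟩⟩) famSplit_unbounded
  obtain ⟨n3, h3⟩ := itm_of_unbounded hb (fun n => famCobip n) 1 (fun n hn =>
    ⟨Sum.inl ⟨0, by omega⟩⟩) famCobip_unbounded
  obtain ⟨n4, h4⟩ := itm_of_unbounded hb (fun n => famTrunc n) 2 (fun n hn =>
    ⟨⟨(⟨0, by omega⟩, ⟨1, by omega⟩), by simp⟩⟩) famTrunc_unbounded
  exact classify H (fun h => cobip_not_invA (h3.invA h)) (fun h => wall_not_invK (h1.invK h))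
    (fun h => trunc_not_invP (h4.invP h)) (fun h => split_not_invC (h2.invC h))
    (fun h => wall_not_inv4 (h1.inv4 h)) (fun h => split_not_inv2K2 (h2.inv2K2 h))

/-- an induced subgraph of `H'` is an induced topological minor of every subdivision of `H'` -/
lemma Subdivision.sub {V V' : Type} {H : SimpleGraph V} {H' : SimpleGraph V'} (φ : H ↪g H')
    {W : Type} {X : SimpleGraph W} (h : Subdivision H' X) :
    ∃ (U : Type) (Y : SimpleGraph U), Subdivision H Y ∧ Nonempty (Y ↪g X) := by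
  induction h with
  | iso e => exact ⟨V, H, Subdivision.iso SimpleGraph.Iso.refl, ⟨e.toEmbedding.comp φ⟩⟩
  | @step W X x y h hxy ih =>
    obtain ⟨U, Y, hY, ⟨ψ⟩⟩ := ih
    by_cases hr : (∃ a, ψ a = x) ∧ ∃ b, ψ b = y
    · obtain ⟨⟨a, rfl⟩, b, rfl⟩ := hr
      refine ⟨Option U, subdivide Y a b, Subdivision.step hY (ψ.map_adj_iff.1 hxy),
        ⟨⟨⟨Option.map ψ, Option.map_injective ψ.injective⟩, ?_⟩⟩⟩
      have inj : ∀ p q : U, ψ p = ψ q ↔ p = q := fun p q => ψ.injective.eq_iff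
      rintro (_ | p) (_ | q)
      · exact ⟨fun h => absurd rfl h.ne, fun h => absurd rfl h.ne⟩
      · change (subdivide X (ψ a) (ψ b)).Adj none (some (ψ q)) ↔
          (subdivide Y a b).Adj none (some q)
        rw [sub_none_some, sub_none_some, inj, inj]
      · change (subdivide X (ψ a) (ψ b)).Adj (some (ψ p)) none ↔
          (subdivide Y a b).Adj (some p) none
        rw [sub_some_none, sub_some_none, inj, inj]
      · change (subdivide X (ψ a) (ψ b)).Adj (some (ψ p)) (some (ψ q)) ↔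
          (subdivide Y a b).Adj (some p) (some q)
        rw [sub_some_some, sub_some_some, ψ.map_adj_iff, ne_eq, ne_eq, Sym2.eq_iff, Sym2.eq_iff,
          inj, inj, inj, inj]
    · refine ⟨U, Y, hY, ⟨⟨⟨fun p => some (ψ p), fun p q hpq =>
        ψ.injective (Option.some.inj hpq)⟩, ?_⟩⟩⟩
      intro p q
      change (subdivide X x y).Adj (some (ψ p)) (some (ψ q)) ↔ Y.Adj p q
      rw [sub_some_some, ψ.map_adj_iff]
      have : s(ψ p, ψ q) ≠ s(x, y) := by
        intro h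
        apply hr
        rw [Sym2.eq_iff] at h
        rcases h with ⟨h, h'⟩ | ⟨h, h'⟩
        · exact ⟨⟨p, h⟩, q, h'⟩
        · exact ⟨⟨q, h'⟩, p, h⟩
      tauto

lemma BddITM.mono {V V' : Type} {H : SimpleGraph V} {H' : SimpleGraph V'} (h : BddITM H')
    (hc : H.IsIndContained H') : BddITM H := by
  obtain ⟨c, hb⟩ := h
  obtain ⟨φ⟩ := hc
  refine ⟨c, fun V _ G hG => hb V G fun h' => hG ?_⟩
  obtain ⟨W, X, h1, ⟨ψ⟩⟩ := h'
  obtain ⟨U, Y, hY, ⟨θ⟩⟩ := h1.sub φ
  exact ⟨U, Y, hY, ⟨ψ.comp θ⟩⟩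

theorem main {W : Type} [Finite W] (H : SimpleGraph W) :
    BddITM H ↔ H.IsIndContained (SimpleGraph.pathGraph 4) ∨ H.IsIndContained paw ∨
      H.IsIndContained diamond := by
  refine ⟨necessity, ?_⟩
  rintro (h | h | h)
  · exact BddITM.mono bdd_P4 h
  · exact BddITM.mono bdd_paw h
  · exact BddITM.mono bdd_diamond h

end Pool.Agent.TH422.ITM
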