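import Pool.Agent.TH422.ITM.Blk

/-! Bounded clique-width for the paw, the diamond and `P₄`. -/

namespace Pool.Agent.TH422.ITM

open Finset Classical Pool.Agent.H175R2

variable {V V' W : Type} {G : SimpleGraph V}

lemma IsITM.emb {H : SimpleGraph W} {G : SimpleGraph V} {G' : SimpleGraph V'} (h : IsITM H G)
    (φ : G ↪g G') : IsITM H G' := by
  obtain ⟨U, X, h1, ⟨ψ⟩⟩ := h
  exact ⟨U, X, h1, ⟨φ.comp ψ⟩⟩

lemma IsITM.itmin [Fintype V] {H : SimpleGraph W} (h : ¬ IsITM H G) : ¬ ITMin H G univ :=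
  fun h' => h h'.isITM

lemma CM.p4Free {S : Finset V} (h : CM G S) : P4Free G S := by
  intro a ha b hb c hc d hd hac had hbd hab hbc hcd
  by_contra hcon
  push Not at hcon
  exact h c hc a ha d hd (fun h => hcon.1 h.symm) hcon.2.1 hcd

lemma dt_of_cm [Fintype V] (hc : CM G univ) (hn : (univ : Finset V).Nonempty) :
    DT G 1 univ univ :=
  dt_cograph _ univ univ le_rfl hn (Subset.refl _) hc.p4Free
    (fun x _ y _ z _ hz => absurd (mem_univ z) hz)

lemma dt_of_reg2 [Fintype V] (hr : Reg2 G univ) (hc : Cn G univ) : DT G 2 univ univ := by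
  refine dt_deg_two (R := univ) ?_ _ _ (Subset.refl _) le_rfl hc
  intro x hx
  obtain ⟨a, b, -, -, -, hN⟩ := hr x hx
  refine (card_le_card (t := {a, b}) ?_).trans card_le_two
  intro z hz
  rw [mem_filter] at hz
  rw [mem_insert, mem_singleton]
  exact (hN z hz.1).1 hz.2

lemma TwoConn.twoC [Fintype V] (h : TwoConn G) : TwoC G univ :=
  ⟨by rw [card_univ]; exact h.card, h.conn, fun v _ => h.del v⟩

/-- from connected graphs to all graphs, for a hereditary class -/
theorem dt_of_conn (P : ∀ {V : Type}, SimpleGraph V → Prop)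
    (hP : ∀ {V : Type} (G : SimpleGraph V) (R : Finset V), P G → P (G.comap (emb R))) (K : ℕ)
    (h2 : ∀ (V : Type) [Fintype V] (G : SimpleGraph V), Cn G univ → P G → DT G K univ univ)
    (V : Type) [Fintype V] [Nonempty V] (G : SimpleGraph V) (hG : P G) : DT G K univ univ := by
  apply dt_of_components univ_nonempty
  intro x hx
  have h1 : DT G K (cpt G univ x) (cpt G univ x) := by
    have := (h2 (Pool.Agent.H175R2.Sub (cpt G univ x)) (G.comap (emb _)) (by
      apply Cn.comap; rw [map_univ_sub]; exact cn_cpt hx) (hP G _ hG)).map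
    rwa [map_univ_sub] at this
  refine h1.transfer fun B hB hn => ?_
  have : nt G univ B = nt G (cpt G univ x) B := by
    unfold nt
    congr 2
    apply image_congr
    intro y hy
    ext z
    simp only [mem_on]
    constructor
    · rintro ⟨⟨h1, h2⟩, h3⟩
      refine ⟨⟨?_, h2⟩, h3⟩
      by_contra hz
      exact not_adj_cpt hx (hB hy) h1 hz h3
    · rintro ⟨⟨h1, h2⟩, h3⟩
      exact ⟨⟨cpt_subset h1, h2⟩, h3⟩
  rw [this]; exact hn

lemma cliqueWidth_le_of_all {H : SimpleGraph W} {K : ℕ}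
    (h : ∀ (V : Type) [Fintype V] [Nonempty V] (G : SimpleGraph V), ¬ IsITM H G →
      DT G K univ univ) :
    ∃ c : ℕ, ∀ (V : Type) [Finite V] (G : SimpleGraph V), ¬ IsITM H G → cliqueWidth G ≤ c := by
  refine ⟨3 * (K + 1), fun V _ G hG => ?_⟩
  by_cases hV : Nonempty V
  · have : Fintype V := Fintype.ofFinite V
    exact cliqueWidth_le_of_dt (h V G hG)
  · have hne : ∀ {k : ℕ} {W : Type} {X : SimpleGraph W} {l : W → Fin k}, CwBuilt k W X l →
        Nonempty W := by
      intro k W X l hb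
      induction hb with
      | single i => exact ⟨()⟩
      | union V W G H l m _ _ ih1 ih2 =>
        obtain ⟨v⟩ := ih1
        exact ⟨Sum.inl v⟩
      | join V G l i j _ _ ih => exact ih
      | relabel V G l i j _ ih => exact ih
    have : {k | CwLE G k} = ∅ := by
      ext k
      simp only [Set.mem_ofPred_eq, Set.mem_empty_iff_false, iff_false]
      rintro ⟨W, G', l, hb, ⟨e⟩⟩
      obtain ⟨w⟩ := hne hb
      exact hV ⟨e.symm w⟩
    unfold cliqueWidth
    rw [this, Nat.sInf_empty]
    exact Nat.zero_le _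

lemma dt_of_two {H : SimpleGraph W}
    (h2 : ∀ (V : Type) [Fintype V] (G : SimpleGraph V), TwoC G univ → ¬ IsITM H G →
      DT G 2 univ univ) :
    ∃ c : ℕ, ∀ (V : Type) [Finite V] (G : SimpleGraph V), ¬ IsITM H G → cliqueWidth G ≤ c := by
  refine cliqueWidth_le_of_all (K := 3) ?_
  have hP : ∀ {V : Type} (G : SimpleGraph V) (R : Finset V), ¬ IsITM H G →
      ¬ IsITM H (G.comap (emb R)) := fun G R h h' => h (h'.emb (SimpleGraph.Embedding.comap _ _))
  refine dt_of_conn (fun G => ¬ IsITM H G) (fun G R => hP G R) 3 ?_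
  intro V _ G hc hG
  exact dt_of_blocks (fun G => ¬ IsITM H G) (fun G R => hP G R) 2
    (fun V _ G h hG => h2 V G (TwoConn.twoC h) hG) (Fintype.card V) V G le_rfl hc hG

theorem bdd_diamond :
    ∃ c : ℕ, ∀ (V : Type) [Finite V] (G : SimpleGraph V), ¬ IsITM diamond G →
      cliqueWidth G ≤ c := by
  apply dt_of_two
  intro V _ G h hG
  have hn : (univ : Finset V).Nonempty := h.2.1.1
  rcases structD _ G univ le_rfl h (IsITM.itmin hG) with h' | h'
  · exact (dt_of_cm h'.cm hn).mono (by omega)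
  · exact dt_of_reg2 h' h.2.1

theorem bdd_paw :
    ∃ c : ℕ, ∀ (V : Type) [Finite V] (G : SimpleGraph V), ¬ IsITM paw G →
      cliqueWidth G ≤ c := by
  apply dt_of_two
  intro V _ G h hG
  have hn : (univ : Finset V).Nonempty := h.2.1.1
  rcases structP _ G univ le_rfl h (IsITM.itmin hG) with h' | h'
  · exact (dt_of_cm h' hn).mono (by omega)
  · exact dt_of_reg2 h' h.2.1

theorem bdd_P4 :
    ∃ c : ℕ, ∀ (V : Type) [Finite V] (G : SimpleGraph V),
      ¬ IsITM (SimpleGraph.pathGraph 4) G → cliqueWidth G ≤ c := by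
  refine cliqueWidth_le_of_all (K := 1) ?_
  intro V _ _ G hG
  refine dt_cograph _ univ univ le_rfl univ_nonempty (Subset.refl _) ?_
    (fun x _ y _ z _ hz => absurd (mem_univ z) hz)
  intro a _ b _ c _ d _ hac had hbd hab hbc hcd
  by_contra hcon
  push Not at hcon
  obtain ⟨h1, h2, h3⟩ := hcon
  apply hG
  have e1 := hab.ne
  have e2 := hbc.ne
  have e3 := hcd.ne
  have e4 := hcd.symm
  have : ITMin (SimpleGraph.pathGraph 4) G univ := by
    refine itmin_of_fun ![a, b, c, d] ?_ (fun _ => mem_univ _)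
    intro i j hij
    fin_cases i <;> fin_cases j <;> simp at hij <;>
      simp [SimpleGraph.pathGraph_adj, *]
  exact this.isITM

end Pool.Agent.TH422.ITM
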