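import Mathlib

/-! Finite checks. -/

namespace Pool.Agent.TH422.ITM

/-- independent triple -/
def PA {n : ℕ} (A : Fin n → Fin n → Bool) : Prop :=
  ∃ i j k : Fin n, i < j ∧ j < k ∧ A i j = false ∧ A i k = false ∧ A j k = false

/-- `K₄` -/
def PK {n : ℕ} (A : Fin n → Fin n → Bool) : Prop :=
  ∃ i j : Fin n, i < j ∧ A i j = true ∧ ∃ k, j < k ∧ A i k = true ∧ A j k = true ∧
    ∃ l, k < l ∧ A i l = true ∧ A j l = true ∧ A k l = true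

/-- `K₁ + K₃` -/
def PP {n : ℕ} (A : Fin n → Fin n → Bool) : Prop :=
  ∃ i j : Fin n, i < j ∧ A i j = true ∧ ∃ k, j < k ∧ A i k = true ∧ A j k = true ∧
    ∃ l, l ≠ i ∧ l ≠ j ∧ l ≠ k ∧ A i l = false ∧ A j l = false ∧ A k l = false

/-- `2K₂` -/
def P22 {n : ℕ} (A : Fin n → Fin n → Bool) : Prop :=
  ∃ i j : Fin n, i < j ∧ A i j = true ∧ ∃ k, i < k ∧ k ≠ j ∧ A i k = false ∧ A j k = false ∧
    ∃ l, k < l ∧ l ≠ j ∧ A i l = false ∧ A j l = false ∧ A k l = true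

/-- `C₄` -/
def PC4 {n : ℕ} (A : Fin n → Fin n → Bool) : Prop :=
  ∃ i k : Fin n, i < k ∧ A i k = false ∧ ∃ j, j ≠ i ∧ j ≠ k ∧ A i j = true ∧ A j k = true ∧
    ∃ l, j < l ∧ l ≠ i ∧ l ≠ k ∧ A i l = true ∧ A l k = true ∧ A j l = false

/-- a vertex of degree four in a graph with five vertices -/
def PD (A : Fin 5 → Fin 5 → Bool) : Prop := ∃ i : Fin 5, ∀ j, j ≠ i → A i j = true

/-- `C₅` -/
def PC5 (A : Fin 5 → Fin 5 → Bool) : Prop :=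
  ∃ i1 i2 : Fin 5, i1 ≠ 0 ∧ A 0 i1 = true ∧ i2 ≠ 0 ∧ i2 ≠ i1 ∧ A i1 i2 = true ∧ A 0 i2 = false ∧
    ∃ i3 i4 : Fin 5, i3 ≠ 0 ∧ i3 ≠ i1 ∧ i3 ≠ i2 ∧ A i2 i3 = true ∧ A i1 i3 = false ∧
      A 0 i3 = false ∧
      i4 ≠ 0 ∧ i4 ≠ i1 ∧ i4 ≠ i2 ∧ i4 ≠ i3 ∧ A i3 i4 = true ∧ A i4 0 = true ∧
      A i1 i4 = false ∧ A i2 i4 = false

def M5 (a b c d e f g h i j : Bool) : Fin 5 → Fin 5 → Bool :=
  ![![false, a, b, c, d], ![a, false, e, f, g], ![b, e, false, h, i], ![c, f, h, false, j],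
    ![d, g, i, j, false]]

def M4 (a b c d e f : Bool) : Fin 4 → Fin 4 → Bool :=
  ![![false, a, b, c], ![a, false, d, e], ![b, d, false, f], ![c, e, f, false]]

def M3 (a b c : Bool) : Fin 3 → Fin 3 → Bool :=
  ![![false, a, b], ![a, false, c], ![b, c, false]]

def p4B (i j : Fin 4) : Bool := decide (i.val + 1 = j.val) || decide (j.val + 1 = i.val)

def pawB (i j : Fin 4) : Bool :=
  decide (i ≠ j) && (decide (i = 0) || decide (j = 0) || (decide (i = 1) && decide (j = 2)) ||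
    (decide (i = 2) && decide (j = 1)))

def diamB (i j : Fin 4) : Bool :=
  decide (i ≠ j) && (decide (i = 0) || decide (j = 0) || decide (i = 1) || decide (j = 1))

def Emb4 (A : Fin 4 → Fin 4 → Bool) (B : Fin 4 → Fin 4 → Bool) : Prop :=
  ∃ p0 p1 : Fin 4, p0 ≠ p1 ∧ A 0 1 = B p0 p1 ∧ ∃ p2, p0 ≠ p2 ∧ p1 ≠ p2 ∧ A 0 2 = B p0 p2 ∧
    A 1 2 = B p1 p2 ∧ ∃ p3, p0 ≠ p3 ∧ p1 ≠ p3 ∧ p2 ≠ p3 ∧ A 0 3 = B p0 p3 ∧ A 1 3 = B p1 p3 ∧
    A 2 3 = B p2 p3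

def Emb3 (A : Fin 3 → Fin 3 → Bool) (B : Fin 4 → Fin 4 → Bool) : Prop :=
  ∃ p0 p1 : Fin 4, p0 ≠ p1 ∧ A 0 1 = B p0 p1 ∧ ∃ p2, p0 ≠ p2 ∧ p1 ≠ p2 ∧ A 0 2 = B p0 p2 ∧
    A 1 2 = B p1 p2

instance {n : ℕ} (A : Fin n → Fin n → Bool) : Decidable (PA A) := by unfold PA; infer_instance
instance {n : ℕ} (A : Fin n → Fin n → Bool) : Decidable (PK A) := by unfold PK; infer_instance
instance {n : ℕ} (A : Fin n → Fin n → Bool) : Decidable (PP A) := by unfold PP; infer_instance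
instance {n : ℕ} (A : Fin n → Fin n → Bool) : Decidable (P22 A) := by unfold P22; infer_instance
instance {n : ℕ} (A : Fin n → Fin n → Bool) : Decidable (PC4 A) := by unfold PC4; infer_instance
instance (A : Fin 5 → Fin 5 → Bool) : Decidable (PD A) := by unfold PD; infer_instance
instance (A : Fin 5 → Fin 5 → Bool) : Decidable (PC5 A) := by unfold PC5; infer_instance
instance (A : Fin 4 → Fin 4 → Bool) (B : Fin 4 → Fin 4 → Bool) : Decidable (Emb4 A B) := by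
  unfold Emb4; infer_instance
instance (A : Fin 3 → Fin 3 → Bool) (B : Fin 4 → Fin 4 → Bool) : Decidable (Emb3 A B) := by
  unfold Emb3; infer_instance

theorem chk5 : ∀ a b c d e f g h i j : Bool,
    PA (M5 a b c d e f g h i j) ∨ PD (M5 a b c d e f g h i j) ∨ PK (M5 a b c d e f g h i j) ∨
    PP (M5 a b c d e f g h i j) ∨ PC4 (M5 a b c d e f g h i j) ∨ PC5 (M5 a b c d e f g h i j) := by
  decide +kernel

theorem chk4 : ∀ a b c d e f : Bool,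
    PA (M4 a b c d e f) ∨ PK (M4 a b c d e f) ∨ PP (M4 a b c d e f) ∨ PC4 (M4 a b c d e f) ∨
    P22 (M4 a b c d e f) ∨ Emb4 (M4 a b c d e f) p4B ∨ Emb4 (M4 a b c d e f) pawB ∨
    Emb4 (M4 a b c d e f) diamB := by
  decide +kernel

theorem chk3 : ∀ a b c : Bool,
    PA (M3 a b c) ∨ Emb3 (M3 a b c) p4B ∨ Emb3 (M3 a b c) pawB := by
  decide +kernel

end Pool.Agent.TH422.ITM
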