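import Pool.Agent.TH422.ITM.Bdd
import Pool.Agent.TH422.ITM.Chk

/-! Classification of the graphs without the obstructions. -/

namespace Pool.Agent.TH422.ITM

open Pool.Agent.H175R2

variable {W : Type} {H : SimpleGraph W}

lemma inj_of_adj {n : ℕ} {f : Fin n → W} (h : ∀ i j, i < j → f i ≠ f j) :
    Function.Injective f := by
  intro i j hij
  by_contra hne
  rcases lt_or_gt_of_ne hne with hlt | hlt
  · exact h i j hlt hij
  · exact h j i hlt hij.symm

lemma invK_of {a b c d : W} (hab : H.Adj a b) (hac : H.Adj a c) (had : H.Adj a d)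
    (hbc : H.Adj b c) (hbd : H.Adj b d) (hcd : H.Adj c d) : InvK H := by
  have key : ∀ i j : Fin 4, i < j → H.Adj (![a, b, c, d] i) (![a, b, c, d] j) := by
    intro i j hij
    fin_cases i <;> fin_cases j <;> simp at hij <;> simp [*]
  have key' : ∀ i j : Fin 4, i ≠ j → H.Adj (![a, b, c, d] i) (![a, b, c, d] j) := by
    intro i j hij
    rcases lt_or_gt_of_ne hij with h | h
    · exact key i j h
    · exact (key j i h).symm
  have hinj : Function.Injective ![a, b, c, d] := inj_of_adj fun i j h => (key i j h).ne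
  refine ⟨Set.range ![a, b, c, d], ![a, b, c, d], hinj, fun i => ⟨i, rfl⟩, fun i => ?_, ?_⟩
  · exact ⟨fun j => ![a, b, c, d] (i.succAbove j),
      hinj.comp Fin.succAbove_right_injective, fun j =>
      ⟨⟨_, rfl⟩, key' _ _ (Fin.succAbove_ne i j).symm⟩⟩
  · rintro p ⟨i, rfl⟩ q _ r _ _ _ _
    exact ⟨i, rfl⟩

lemma invP_of {a b c y : W} (hab : H.Adj a b) (hac : H.Adj a c) (hbc : H.Adj b c) (ha : y ≠ a)
    (hb : y ≠ b) (hc : y ≠ c) (hya : ¬ H.Adj a y) (hyb : ¬ H.Adj b y) (hyc : ¬ H.Adj c y) :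
    InvP H := by
  refine ⟨y, {a, b, c}, ⟨a, by simp⟩, by simp [ha, hb, hc], ?_, ?_⟩
  · intro s hs h
    simp only [Set.mem_insert_iff, Set.mem_singleton_iff] at hs
    rcases hs with rfl | rfl | rfl
    · exact hya h.symm
    · exact hyb h.symm
    · exact hyc h.symm
  · intro s hs
    simp only [Set.mem_insert_iff, Set.mem_singleton_iff] at hs
    rcases hs with rfl | rfl | rfl
    · exact ⟨b, by simp, c, by simp, hbc.ne, hab, hac⟩
    · exact ⟨a, by simp, c, by simp, hac.ne, hab.symm, hbc⟩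
    · exact ⟨a, by simp, b, by simp, hab.ne, hac.symm, hbc.symm⟩

lemma invC_of4 {a b c d : W} (hab : H.Adj a b) (hbc : H.Adj b c) (hcd : H.Adj c d)
    (hda : H.Adj d a) (hac : ¬ H.Adj a c) (hbd : ¬ H.Adj b d) (nac : a ≠ c) (nbd : b ≠ d) :
    InvC H := by
  have e1 := hab.ne
  have e2 := hbc.ne
  have e3 := hcd.ne
  have e4 := hda.ne.symm
  refine ⟨{a, b, c, d}, ⟨![a, b, c, d], ?_, ?_⟩, ?_⟩
  · apply inj_of_adj
    intro i j hij
    fin_cases i <;> fin_cases j <;> simp at hij <;> simp [*]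
  · intro i
    fin_cases i <;> simp
  · intro s hs
    simp only [Set.mem_insert_iff, Set.mem_singleton_iff] at hs
    have aux : ∀ z ∈ ({a, b, c, d} : Set W), z = a ∨ z = b ∨ z = c ∨ z = d := by
      intro z hz
      simpa using hz
    rcases hs with rfl | rfl | rfl | rfl
    · refine ⟨b, by simp, d, by simp, nbd, hab, hda.symm, fun z hz h => ?_⟩
      rcases aux z hz with rfl | rfl | rfl | rfl
      · exact absurd rfl h.ne
      · exact Or.inl rfl
      · exact absurd h hac
      · exact Or.inr rfl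
    · refine ⟨a, by simp, c, by simp, nac, hab.symm, hbc, fun z hz h => ?_⟩
      rcases aux z hz with rfl | rfl | rfl | rfl
      · exact Or.inl rfl
      · exact absurd rfl h.ne
      · exact Or.inr rfl
      · exact absurd h hbd
    · refine ⟨b, by simp, d, by simp, nbd, hbc.symm, hcd, fun z hz h => ?_⟩
      rcases aux z hz with rfl | rfl | rfl | rfl
      · exact absurd h.symm hac
      · exact Or.inl rfl
      · exact absurd rfl h.ne
      · exact Or.inr rfl
    · refine ⟨a, by simp, c, by simp, nac, hda, hcd.symm, fun z hz h => ?_⟩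
      rcases aux z hz with rfl | rfl | rfl | rfl
      · exact Or.inl rfl
      · exact absurd h.symm hbd
      · exact Or.inr rfl
      · exact absurd rfl h.ne

lemma invC_of5 {a b c d e : W} (hab : H.Adj a b) (hbc : H.Adj b c) (hcd : H.Adj c d)
    (hde : H.Adj d e) (hea : H.Adj e a) (hac : ¬ H.Adj a c) (had : ¬ H.Adj a d)
    (hbd : ¬ H.Adj b d) (hbe : ¬ H.Adj b e) (hce : ¬ H.Adj c e) (nac : a ≠ c) (nad : a ≠ d)
    (nbd : b ≠ d) (nbe : b ≠ e) (nce : c ≠ e) : InvC H := by
  have e1 := hab.ne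
  have e2 := hbc.ne
  have e3 := hcd.ne
  have e4 := hde.ne
  have e5 := hea.ne.symm
  refine ⟨{a, b, c, d, e}, ⟨![a, b, c, d], ?_, ?_⟩, ?_⟩
  · apply inj_of_adj
    intro i j hij
    fin_cases i <;> fin_cases j <;> simp at hij <;> simp [*]
  · intro i
    fin_cases i <;> simp
  · intro s hs
    simp only [Set.mem_insert_iff, Set.mem_singleton_iff] at hs
    have aux : ∀ z ∈ ({a, b, c, d, e} : Set W), z = a ∨ z = b ∨ z = c ∨ z = d ∨ z = e := by
      intro z hz
      simpa using hz
    rcases hs with rfl | rfl | rfl | rfl | rfl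
    · refine ⟨b, by simp, e, by simp, nbe, hab, hea.symm, fun z hz h => ?_⟩
      rcases aux z hz with rfl | rfl | rfl | rfl | rfl
      · exact absurd rfl h.ne
      · exact Or.inl rfl
      · exact absurd h hac
      · exact absurd h had
      · exact Or.inr rfl
    · refine ⟨a, by simp, c, by simp, nac, hab.symm, hbc, fun z hz h => ?_⟩
      rcases aux z hz with rfl | rfl | rfl | rfl | rfl
      · exact Or.inl rfl
      · exact absurd rfl h.ne
      · exact Or.inr rfl
      · exact absurd h hbd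
      · exact absurd h hbe
    · refine ⟨b, by simp, d, by simp, nbd, hbc.symm, hcd, fun z hz h => ?_⟩
      rcases aux z hz with rfl | rfl | rfl | rfl | rfl
      · exact absurd h.symm hac
      · exact Or.inl rfl
      · exact absurd rfl h.ne
      · exact Or.inr rfl
      · exact absurd h hce
    · refine ⟨c, by simp, e, by simp, nce, hcd.symm, hde, fun z hz h => ?_⟩
      rcases aux z hz with rfl | rfl | rfl | rfl | rfl
      · exact absurd h.symm had
      · exact absurd h.symm hbd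
      · exact Or.inl rfl
      · exact absurd rfl h.ne
      · exact Or.inr rfl
    · refine ⟨a, by simp, d, by simp, nad, hea, hde.symm, fun z hz h => ?_⟩
      rcases aux z hz with rfl | rfl | rfl | rfl | rfl
      · exact Or.inl rfl
      · exact absurd h.symm hbe
      · exact absurd h.symm hce
      · exact Or.inr rfl
      · exact absurd rfl h.ne

/-- `A` is the adjacency matrix of `H` along `f` -/
structure Mat {n : ℕ} (H : SimpleGraph W) (f : Fin n → W) (A : Fin n → Fin n → Bool) : Prop where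
  inj : Function.Injective f
  adj : ∀ i j, H.Adj (f i) (f j) ↔ A i j = true

namespace Mat

variable {n : ℕ} {f : Fin n → W} {A : Fin n → Fin n → Bool}

lemma nadj (h : Mat H f A) {i j : Fin n} (hA : A i j = false) : ¬ H.Adj (f i) (f j) := by
  rw [h.adj, hA]; simp

lemma yadj (h : Mat H f A) {i j : Fin n} (hA : A i j = true) : H.Adj (f i) (f j) := by
  rw [h.adj, hA]

lemma ne (h : Mat H f A) {i j : Fin n} (hij : i ≠ j) : f i ≠ f j := fun h' => hij (h.inj h')

lemma invA (h : Mat H f A) (hP : PA A) : InvA H := by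
  obtain ⟨i, j, k, h1, h2, h3, h4, h5⟩ := hP
  exact ⟨f i, f j, f k, h.ne h1.ne, h.ne (h1.trans h2).ne, h.ne h2.ne, h.nadj h3, h.nadj h4,
    h.nadj h5⟩

lemma invK (h : Mat H f A) (hP : PK A) : InvK H := by
  obtain ⟨i, j, _, h1, k, _, h2, h3, l, _, h4, h5, h6⟩ := hP
  exact invK_of (h.yadj h1) (h.yadj h2) (h.yadj h4) (h.yadj h3) (h.yadj h5) (h.yadj h6)

lemma invP (h : Mat H f A) (hP : PP A) : InvP H := by
  obtain ⟨i, j, _, h1, k, _, h2, h3, l, g1, g2, g3, h4, h5, h6⟩ := hP
  exact invP_of (h.yadj h1) (h.yadj h2) (h.yadj h3) (h.ne g1) (h.ne g2) (h.ne g3) (h.nadj h4)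
    (h.nadj h5) (h.nadj h6)

lemma inv22 (h : Mat H f A) (hP : P22 A) : Inv2K2 H := by
  obtain ⟨i, j, g1, h1, k, g2, g3, h2, h3, l, g4, g5, h4, h5, h6⟩ := hP
  exact ⟨f i, f j, f k, f l, h.yadj h1, h.yadj h6, h.ne g2.ne, h.ne (g2.trans g4).ne,
    h.ne g3.symm, h.ne g5.symm, h.nadj h2, h.nadj h4, h.nadj h3, h.nadj h5⟩

lemma invC (h : Mat H f A) (hP : PC4 A) : InvC H := by
  obtain ⟨i, k, g1, h1, j, g2, g3, h2, h3, l, g4, g5, g6, h4, h5, h6⟩ := hP
  exact invC_of4 (h.yadj h2) (h.yadj h3) (h.yadj h5).symm (h.yadj h4).symm (h.nadj h1) (h.nadj h6)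
    (h.ne g1.ne) (h.ne g4.ne)

lemma inv4 {f : Fin 5 → W} {A : Fin 5 → Fin 5 → Bool} (h : Mat H f A) (hP : PD A) : Inv4 H := by
  obtain ⟨i, hi⟩ := hP
  exact ⟨f i, fun j => f (i.succAbove j), h.inj.comp Fin.succAbove_right_injective,
    fun j => h.yadj (hi _ (Fin.succAbove_ne i j))⟩

lemma invC5 {f : Fin 5 → W} {A : Fin 5 → Fin 5 → Bool} (h : Mat H f A) (hP : PC5 A) : InvC H := by
  obtain ⟨i1, i2, g1, h1, g2, g3, h2, h3, i3, i4, k1, k2, k3, k4, k5, k6, l1, l2, l3, l4, l5, l6,
    l7, l8⟩ := hP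
  exact invC_of5 (h.yadj h1) (h.yadj h2) (h.yadj k4) (h.yadj l5) (h.yadj l6) (h.nadj h3)
    (h.nadj k6) (h.nadj k5) (h.nadj l7) (h.nadj l8) (h.ne g2.symm) (h.ne k1.symm) (h.ne k2.symm)
    (h.ne l2.symm) (h.ne l3.symm)

end Mat

lemma mat5 {f : Fin 5 → W} (hf : Function.Injective f) : ∃ a b c d e g h i j k : Bool,
    Mat H f (M5 a b c d e g h i j k) := by
  classical
  refine ⟨decide (H.Adj (f 0) (f 1)), decide (H.Adj (f 0) (f 2)), decide (H.Adj (f 0) (f 3)),
    decide (H.Adj (f 0) (f 4)), decide (H.Adj (f 1) (f 2)), decide (H.Adj (f 1) (f 3)),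
    decide (H.Adj (f 1) (f 4)), decide (H.Adj (f 2) (f 3)), decide (H.Adj (f 2) (f 4)),
    decide (H.Adj (f 3) (f 4)), hf, ?_⟩
  intro i j
  fin_cases i <;> fin_cases j <;> simp [M5, SimpleGraph.adj_comm] <;> exact H.adj_comm _ _

lemma mat4 {f : Fin 4 → W} (hf : Function.Injective f) : ∃ a b c d e g : Bool,
    Mat H f (M4 a b c d e g) := by
  classical
  refine ⟨decide (H.Adj (f 0) (f 1)), decide (H.Adj (f 0) (f 2)), decide (H.Adj (f 0) (f 3)),
    decide (H.Adj (f 1) (f 2)), decide (H.Adj (f 1) (f 3)), decide (H.Adj (f 2) (f 3)), hf, ?_⟩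
  intro i j
  fin_cases i <;> fin_cases j <;> simp [M4, SimpleGraph.adj_comm] <;> exact H.adj_comm _ _

lemma mat3 {f : Fin 3 → W} (hf : Function.Injective f) : ∃ a b c : Bool,
    Mat H f (M3 a b c) := by
  classical
  refine ⟨decide (H.Adj (f 0) (f 1)), decide (H.Adj (f 0) (f 2)), decide (H.Adj (f 1) (f 2)),
    hf, ?_⟩
  intro i j
  fin_cases i <;> fin_cases j <;> simp [M3, SimpleGraph.adj_comm] <;> exact H.adj_comm _ _

lemma p4_adj (i j : Fin 4) : (SimpleGraph.pathGraph 4).Adj i j ↔ p4B i j = true := by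
  rw [SimpleGraph.pathGraph_adj]
  simp [p4B]

lemma paw_adj (i j : Fin 4) : paw.Adj i j ↔ pawB i j = true := by
  simp only [paw, SimpleGraph.fromRel_adj, pawB]
  revert i j
  decide

lemma diam_adj (i j : Fin 4) : diamond.Adj i j ↔ diamB i j = true := by
  simp only [diamond, SimpleGraph.fromRel_adj, diamB]
  revert i j
  decide

/-- containment from a labelling -/
lemma cont_of {n : ℕ} (e : Fin n ≃ W) {A : Fin n → Fin n → Bool} (hA : Mat H e A)
    {K : SimpleGraph (Fin 4)} {B : Fin 4 → Fin 4 → Bool} (hK : ∀ i j, K.Adj i j ↔ B i j = true)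
    (p : Fin n → Fin 4) (h : ∀ i j, i < j → p i ≠ p j ∧ A i j = B (p i) (p j)) :
    H.IsIndContained K := by
  have hinj : Function.Injective p := inj_of_adj fun i j hij => (h i j hij).1
  refine ⟨⟨⟨fun w => p (e.symm w), hinj.comp e.symm.injective⟩, ?_⟩⟩
  intro a b
  obtain ⟨i, rfl⟩ := e.surjective a
  obtain ⟨j, rfl⟩ := e.surjective b
  have key : ∀ i j, i < j → (K.Adj (p i) (p j) ↔ H.Adj (e i) (e j)) := by
    intro i j hij
    rw [hK, hA.adj, (h i j hij).2]
  simp only [Function.Embedding.coeFn_mk, Equiv.symm_apply_apply]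
  rcases lt_trichotomy i j with hij | hij | hij
  · exact key i j hij
  · subst hij; simp
  · have := key j i hij
    rwa [K.adj_comm, H.adj_comm] at this

lemma cont_of_emb4 (e : Fin 4 ≃ W) {A : Fin 4 → Fin 4 → Bool} (hA : Mat H e A)
    {K : SimpleGraph (Fin 4)} {B : Fin 4 → Fin 4 → Bool} (hK : ∀ i j, K.Adj i j ↔ B i j = true)
    (h : Emb4 A B) : H.IsIndContained K := by
  obtain ⟨p0, p1, h1, h2, p2, h3, h4, h5, h6, p3, h7, h8, h9, h10, h11, h12⟩ := h
  refine cont_of e hA hK ![p0, p1, p2, p3] ?_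
  intro i j hij
  fin_cases i <;> fin_cases j <;> simp at hij <;>
    first
      | exact ⟨h1, h2⟩ | exact ⟨h3, h5⟩ | exact ⟨h4, h6⟩ | exact ⟨h7, h10⟩ | exact ⟨h8, h11⟩
      | exact ⟨h9, h12⟩

lemma cont_of_emb3 (e : Fin 3 ≃ W) {A : Fin 3 → Fin 3 → Bool} (hA : Mat H e A)
    {K : SimpleGraph (Fin 4)} {B : Fin 4 → Fin 4 → Bool} (hK : ∀ i j, K.Adj i j ↔ B i j = true)
    (h : Emb3 A B) : H.IsIndContained K := by
  obtain ⟨p0, p1, h1, h2, p2, h3, h4, h5, h6⟩ := h
  refine cont_of e hA hK ![p0, p1, p2] ?_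
  intro i j hij
  fin_cases i <;> fin_cases j <;> simp at hij <;>
    first
      | exact ⟨h1, h2⟩ | exact ⟨h3, h5⟩ | exact ⟨h4, h6⟩

/-- The classification. -/
theorem classify [Finite W] (H : SimpleGraph W) (hA : ¬ InvA H) (hK : ¬ InvK H) (hP : ¬ InvP H)
    (hC : ¬ InvC H) (h4 : ¬ Inv4 H) (h22 : ¬ Inv2K2 H) :
    H.IsIndContained (SimpleGraph.pathGraph 4) ∨ H.IsIndContained paw ∨
      H.IsIndContained diamond := by
  classical
  have : Fintype W := Fintype.ofFinite W
  by_cases hc : 5 ≤ Fintype.card W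
  · exfalso
    obtain ⟨f⟩ : Nonempty (Fin 5 ↪ W) := by
      rw [Function.Embedding.nonempty_iff_card_le]
      simpa using hc
    obtain ⟨a, b, c, d, e, g, h, i, j, k, hm⟩ := mat5 (H := H) f.injective
    rcases chk5 a b c d e g h i j k with h' | h' | h' | h' | h' | h'
    · exact hA (hm.invA h')
    · exact h4 (hm.inv4 h')
    · exact hK (hm.invK h')
    · exact hP (hm.invP h')
    · exact hC (hm.invC h')
    · exact hC (hm.invC5 h')
  · push Not at hc
    have e0 : Fin (Fintype.card W) ≃ W := (Fintype.equivFin W).symm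
    obtain ⟨n, hn⟩ : ∃ n, n = Fintype.card W := ⟨_, rfl⟩
    rw [← hn] at e0 hc
    interval_cases n
    · left
      refine ⟨⟨⟨fun w => 0, fun a b _ => ?_⟩, fun {a b} => ?_⟩⟩
      · exact (e0.symm a).elim0
      · exact (e0.symm a).elim0
    · left
      refine ⟨⟨⟨fun w => 0, fun a b _ => ?_⟩, fun {a b} => ?_⟩⟩
      · exact e0.symm.injective (Subsingleton.elim _ _)
      · have : a = b := e0.symm.injective (Subsingleton.elim _ _)
        subst this
        simp
    · left
      by_cases h : H.Adj (e0 0) (e0 1)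
      · refine cont_of e0 (A := fun i j => decide (i ≠ j)) ⟨e0.injective, ?_⟩ p4_adj ![0, 1] ?_
        · intro i j
          fin_cases i <;> fin_cases j <;> simp [h, h.symm]
        · intro i j hij
          fin_cases i <;> fin_cases j <;> simp at hij <;> simp [p4B]
      · refine cont_of e0 (A := fun i j => false) ⟨e0.injective, ?_⟩ p4_adj ![0, 2] ?_
        · have h' : ¬ H.Adj (e0 1) (e0 0) := fun h' => h h'.symm
          intro i j
          fin_cases i <;> fin_cases j <;> simp [h, h']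
        · intro i j hij
          fin_cases i <;> fin_cases j <;> simp at hij <;> simp [p4B]
    · obtain ⟨a, b, c, hm⟩ := mat3 (H := H) e0.injective
      rcases chk3 a b c with h' | h' | h'
      · exact absurd (hm.invA h') hA
      · exact Or.inl (cont_of_emb3 e0 hm p4_adj h')
      · exact Or.inr (Or.inl (cont_of_emb3 e0 hm paw_adj h'))
    · obtain ⟨a, b, c, d, e, g, hm⟩ := mat4 (H := H) e0.injective
      rcases chk4 a b c d e g with h' | h' | h' | h' | h' | h' | h' | h'
      · exact absurd (hm.invA h') hA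
      · exact absurd (hm.invK h') hK
      · exact absurd (hm.invP h') hP
      · exact absurd (hm.invC h') hC
      · exact absurd (hm.inv22 h') h22
      · exact Or.inl (cont_of_emb4 e0 hm p4_adj h')
      · exact Or.inr (Or.inl (cont_of_emb4 e0 hm paw_adj h'))
      · exact Or.inr (Or.inr (cont_of_emb4 e0 hm diam_adj h'))

end Pool.Agent.TH422.ITM
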