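import Pool.Agent.TH422.ITM.Two

/-! Structure of 2-connected graphs without an induced subdivision of the diamond or the paw. -/

namespace Pool.Agent.TH422.ITM

open Finset Classical Pool.Agent.H175R2

variable {V : Type} {G : SimpleGraph V}

lemma itmin_of_fun {n : ℕ} {H : SimpleGraph (Fin n)} {S : Finset V} (f : Fin n → V)
    (h : ∀ i j, i < j → f i ≠ f j ∧ (G.Adj (f i) (f j) ↔ H.Adj i j)) (hS : ∀ i, f i ∈ S) :
    ITMin H G S := by
  have hinj : Function.Injective f := by
    intro i j hij
    by_contra hne
    rcases lt_or_gt_of_ne hne with hlt | hlt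
    · exact (h i j hlt).1 hij
    · exact (h j i hlt).1 hij.symm
  refine ITMin.of_embedding ⟨⟨f, hinj⟩, ?_⟩ hS
  intro i j
  rcases lt_trichotomy i j with hlt | heq | hlt
  · exact (h i j hlt).2
  · subst heq
    simp
  · have := (h j i hlt).2
    rw [G.adj_comm, H.adj_comm] at this
    exact this

lemma itm_diamond {S : Finset V} {x y p q : V} (hx : x ∈ S) (hy : y ∈ S) (hp : p ∈ S) (hq : q ∈ S)
    (hxy : G.Adj x y) (hxp : G.Adj x p) (hxq : G.Adj x q) (hyp : G.Adj y p) (hyq : G.Adj y q)
    (hpq : ¬ G.Adj p q) (hne : p ≠ q) : ITMin diamond G S := by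
  have e1 := hxy.ne
  have e2 := hxp.ne
  have e3 := hxq.ne
  have e4 := hyp.ne
  have e5 := hyq.ne
  refine itmin_of_fun ![x, y, p, q] ?_ ?_
  · intro i j hij
    fin_cases i <;> fin_cases j <;> simp at hij <;>
      simp [diamond, SimpleGraph.fromRel_adj, *]
  · intro i
    fin_cases i <;> simpa

lemma itm_paw {S : Finset V} {a b c d : V} (ha : a ∈ S) (hb : b ∈ S) (hc : c ∈ S) (hd : d ∈ S)
    (hab : G.Adj a b) (hac : G.Adj a c) (hbc : G.Adj b c) (had : G.Adj a d) (hbd : ¬ G.Adj b d)
    (hcd : ¬ G.Adj c d) : ITMin paw G S := by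
  have e1 := hab.ne
  have e2 := hac.ne
  have e3 := hbc.ne
  have e4 := had.ne
  have e5 : b ≠ d := by rintro rfl; exact hcd hbc.symm
  have e6 : c ≠ d := by rintro rfl; exact hbd hbc
  refine itmin_of_fun ![a, b, c, d] ?_ ?_
  · intro i j hij
    fin_cases i <;> fin_cases j <;> simp at hij <;>
      simp [paw, SimpleGraph.fromRel_adj, *]
  · intro i
    fin_cases i <;> simpa

/-- `C₄ = v x c y` with the pendant vertex `d` at `v` -/
lemma itm_paw' {S : Finset V} {v x c y d : V} (hv : v ∈ S) (hx : x ∈ S) (hc : c ∈ S) (hy : y ∈ S)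
    (hd : d ∈ S) (hvx : G.Adj v x) (hxc : G.Adj x c) (hcy : G.Adj c y) (hyv : G.Adj y v)
    (hvc : ¬ G.Adj v c) (hxy : ¬ G.Adj x y) (hne : x ≠ y) (hvd : G.Adj v d) (hxd : ¬ G.Adj x d)
    (hcd : ¬ G.Adj c d) (hyd : ¬ G.Adj y d) : ITMin paw G S := by
  have e1 : x ≠ d := by rintro rfl; exact hcd hxc.symm
  have e2 : y ≠ d := by rintro rfl; exact hcd hcy
  have e3 : c ≠ d := by rintro rfl; exact hvc hvd
  have e4 : c ≠ v := by rintro rfl; exact hcd hvd
  have e5 := hvx.ne
  have e6 := hyv.ne
  have e7 := hxc.ne
  have e8 := hcy.ne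
  have e9 := hvd.ne
  have key : ITMin paw G {v, x, c, y, d} := by
    refine ITMin.dissolve (w := c) (a := x) (b := y) (by simp) ?_ hne hxy ?_
    · intro z hz
      simp only [mem_insert, mem_singleton] at hz
      rcases hz with rfl | rfl | rfl | rfl | rfl
      · constructor
        · intro h; exact absurd h.symm hvc
        · rintro (rfl | rfl)
          · exact absurd rfl e5
          · exact absurd rfl e6
      · simp [hxc.symm]
      · constructor
        · intro h; exact absurd rfl h.ne
        · rintro (rfl | rfl)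
          · exact absurd rfl e7
          · exact absurd rfl e8
      · simp [hcy]
      · constructor
        · intro h; exact absurd h hcd
        · rintro (rfl | rfl)
          · exact absurd rfl e1
          · exact absurd rfl e2
    · refine itm_paw (a := v) (b := x) (c := y) (d := d) ?_ ?_ ?_ ?_ ?_ ?_ ?_ ?_ ?_ ?_
      · simp [e4.symm]
      · simp [e7]
      · simp [e8.symm]
      · simp [e3.symm]
      · exact (edge_adj' hne _ _).2 (Or.inl hvx)
      · exact (edge_adj' hne _ _).2 (Or.inl hyv.symm)
      · exact (edge_adj' hne _ _).2 (Or.inr (Or.inl ⟨rfl, rfl⟩))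
      · exact (edge_adj' hne _ _).2 (Or.inl hvd)
      · rw [edge_adj' hne]; tauto
      · rw [edge_adj' hne]; tauto
  refine key.mono ?_
  intro z hz
  simp only [mem_insert, mem_singleton] at hz
  rcases hz with rfl | rfl | rfl | rfl | rfl <;> assumption

/-- complete graph on `S` -/
def Cpl (G : SimpleGraph V) (S : Finset V) : Prop := ∀ x ∈ S, ∀ y ∈ S, x ≠ y → G.Adj x y

/-- complete multipartite graph on `S` -/
def CM (G : SimpleGraph V) (S : Finset V) : Prop :=
  ∀ x ∈ S, ∀ y ∈ S, ∀ z ∈ S, ¬ G.Adj x y → ¬ G.Adj y z → ¬ G.Adj x z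

lemma Cpl.cm {S : Finset V} (h : Cpl G S) : CM G S := by
  intro x hx y hy z hz h1 h2
  have e1 : x = y := by by_contra hne; exact h1 (h x hx y hy hne)
  subst e1
  exact h2

lemma TwoC.cpl {S : Finset V} (hS : TwoC G S) (h3 : S.card = 3) : Cpl G S := by
  intro x hx y hy hxy
  obtain ⟨z, hz⟩ : ((S.erase x).erase y).Nonempty := by
    rw [← card_pos, card_erase_of_mem (by grind), card_erase_of_mem hx]; omega
  have hSe : S = {x, y, z} := by
    symm
    apply eq_of_subset_of_card_le
    · intro u hu
      simp only [mem_insert, mem_singleton] at hu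
      rcases hu with rfl | rfl | rfl
      · exact hx
      · exact hy
      · grind
    · rw [h3, card_insert_of_notMem (by grind), card_insert_of_notMem (by grind), card_singleton]
  obtain ⟨a, ha, b, hb, hab⟩ := (hS.2.2 z (by grind)).2 {x} (by grind) (by simp)
    ⟨y, by grind⟩
  rw [mem_singleton] at ha
  subst ha
  have : b = y := by
    rw [hSe] at hb
    grind
  rwa [this] at hab

/-- a 2-regular proper part without bad vertices is complete -/
lemma cpl_of_reg2 {S T : Finset V} (hb : NoBad G S) (hTS : T ⊆ S) (hT : Cn G T) (hr : Reg2 G T)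
    {d : V} (hd : d ∈ T) (hnb : ∀ z ∈ S, G.Adj d z → z ∈ T) : Cpl G T := by
  obtain ⟨a, b, hN⟩ := hr d hd
  by_cases hab : G.Adj a b
  · exact Reg2.complete hT hr hd hN hab
  · refine absurd ?_ (hb d a b)
    refine ⟨hTS hd, ⟨hTS hN.1, hTS hN.2.1, hN.2.2.1, fun z hz => ?_⟩, hab⟩
    constructor
    · intro h
      exact (hN.2.2.2 z (hnb z hz h)).1 h
    · intro h
      refine (hN.2.2.2 z ?_).2 h
      rcases h with rfl | rfl
      · exact hN.1
      · exact hN.2.1

lemma exists_third {S : Finset V} (h4 : 4 ≤ S.card) (p q r : V) :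
    ∃ x ∈ S, x ≠ p ∧ x ≠ q ∧ x ≠ r := by
  by_contra hcon
  push Not at hcon
  have : S ⊆ {p, q, r} := by
    intro x hx
    have := hcon x hx
    simp only [mem_insert, mem_singleton]
    tauto
  have h1 := card_le_card this
  have h2 : ({p, q, r} : Finset V).card ≤ 3 := card_le_three
  omega

/-- a vertex outside a 2-regular, noncomplete set is complete to it if there are no bad vertices -/
lemma adj_of_reg2 {S : Finset V} (hb : NoBad G S) {x : V} (hT : Cn G (S.erase x))
    (hr : Reg2 G (S.erase x)) (hnc : ¬ Cpl G (S.erase x)) : ∀ z ∈ S.erase x, G.Adj x z := by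
  intro z hz
  by_contra hxz
  apply hnc
  refine cpl_of_reg2 hb (erase_subset _ _) hT hr hz ?_
  intro y hy hzy
  rw [mem_erase]
  refine ⟨?_, hy⟩
  rintro rfl
  exact hxz hzy.symm

lemma Cpl.reg2 {S : Finset V} (h : Cpl G S) (h3 : S.card = 3) : Reg2 G S := by
  intro x hx
  obtain ⟨y, z, hyz, hxyz⟩ : ∃ y z, y ≠ z ∧ S.erase x = {y, z} := by
    have : (S.erase x).card = 2 := by rw [card_erase_of_mem hx]; omega
    exact card_eq_two.1 this
  have hy : y ∈ S.erase x := by rw [hxyz]; simp
  have hz : z ∈ S.erase x := by rw [hxyz]; simp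
  refine ⟨y, z, mem_of_mem_erase hy, mem_of_mem_erase hz, hyz, fun u hu => ?_⟩
  constructor
  · intro hxu
    have : u ∈ S.erase x := mem_erase.2 ⟨hxu.ne.symm, hu⟩
    rw [hxyz] at this
    simpa using this
  · rintro (rfl | rfl)
    · exact h x hx u hu (mem_erase.1 hy).1.symm
    · exact h x hx u hu (mem_erase.1 hz).1.symm

lemma bad_diamond {S : Finset V} {w a b : V} (hb : Bad G S w a b)
    (h : Cpl (G ⊔ SimpleGraph.edge a b) (S.erase w)) (h5 : 4 ≤ (S.erase w).card) :
    ITMin diamond G S := by
  obtain ⟨haw, hbw⟩ := hb.ne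
  have ha := hb.2.1.1
  have hb' := hb.2.1.2.1
  have hab := hb.2.1.2.2.1
  have ha2 : a ∈ S.erase w := mem_erase.2 ⟨haw, ha⟩
  have hb2 : b ∈ S.erase w := mem_erase.2 ⟨hbw, hb'⟩
  have key : ∀ c ∈ S.erase w, ∀ z ∈ S.erase w, c ≠ z → c ≠ a → c ≠ b → G.Adj c z := by
    intro c hc z hz hcz hca hcb
    rcases (edge_adj' hab _ _).1 (h c hc z hz hcz) with h | ⟨h, _⟩ | ⟨h, _⟩
    · exact h
    · exact absurd h hca
    · exact absurd h hcb
  obtain ⟨c, hc, hca, hcb, -⟩ := exists_third (S := S.erase w) (by omega) a b b
  obtain ⟨d, hd, hda, hdb, hdc⟩ := exists_third (S := S.erase w) (by omega) a b c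
  exact itm_diamond (x := c) (y := d) (p := a) (q := b) (mem_of_mem_erase hc)
    (mem_of_mem_erase hd) ha hb' (key c hc d hd hdc.symm hca hcb) (key c hc a ha2 hca hca hcb)
    (key c hc b hb2 hcb hca hcb) (key d hd a ha2 hda hda hdb) (key d hd b hb2 hdb hda hdb)
    hb.2.2 hab

theorem structD : ∀ (n : ℕ) (G : SimpleGraph V) (S : Finset V), S.card ≤ n → TwoC G S →
    ¬ ITMin diamond G S → Cpl G S ∨ Reg2 G S := by
  intro n
  induction n with
  | zero =>
    intro G S hn hS
    have := hS.1
    omega
  | succ n ih =>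
    intro G S hn hS hD
    by_cases h3 : S.card = 3
    · exact Or.inl (hS.cpl h3)
    have h4 : 4 ≤ S.card := by have := hS.1; omega
    by_cases hb : NoBad G S
    · left
      rcases tri hS h4 hb with h | ⟨v, hv, c, hc, hvc, hadj, x1, hx1, x2, hx2, hx12⟩ |
        ⟨v, hv, c, hc, hvc, hadj, x, hx, r, hr, hrx, S1, hS1, hne, hT, hrS, hsub⟩
      · by_contra hnc
        unfold Cpl at hnc
        push Not at hnc
        obtain ⟨p, hp, q, hq, hpq, hnpq⟩ := hnc
        obtain ⟨x, hx, hxp, hxq, -⟩ := exists_third h4 p q q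
        have hcard : (S.erase x).card ≤ n := by rw [card_erase_of_mem hx]; omega
        have hnC : ¬ Cpl G (S.erase x) := fun h' => hnpq (h' p (by grind) q (by grind) hpq)
        have hR := (ih G _ hcard (h x hx) (fun h' => hD (h'.mono (erase_subset _ _)))).resolve_left
          hnC
        have hall := adj_of_reg2 hb (h x hx).2.1 hR hnC
        obtain ⟨a, b, ha, hb', hab, hN⟩ := hR p (by grind)
        have hnab : ¬ G.Adj a b := fun h' =>
          hnC (Reg2.complete (h x hx).2.1 hR (d := p) (by grind) ⟨ha, hb', hab, hN⟩ h')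
        exact hD (itm_diamond (x := x) (y := p) (p := a) (q := b) hx hp (by grind) (by grind)
          (hall p (by grind)) (hall a ha) (hall b hb') ((hN a ha).2 (Or.inl rfl))
          ((hN b hb').2 (Or.inr rfl)) hnab hab)
      · exfalso
        have key : ∀ x ∈ (S.erase v).erase c, ∀ y ∈ (S.erase v).erase c,
            y ∉ cpt G ((S.erase v).erase c) x → G.Adj x v ∧ G.Adj x c := by
          intro x hx y hy hxy
          have hT := sep_two_adj hS hv hc hvc hadj hx
          have hxD : x ∈ cpt G ((S.erase v).erase c) x := mem_cpt_self hx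
          set D := cpt G ((S.erase v).erase c) x with hDdef
          have hDs : D ⊆ (S.erase v).erase c := cpt_subset
          have hTS : insert v (insert c D) ⊆ S := by
            intro z hz
            simp only [mem_insert] at hz
            rcases hz with rfl | rfl | hz
            · exact hv
            · exact hc
            · have := hDs hz; grind
          have hyT : y ∉ insert v (insert c D) := by
            simp only [mem_insert]
            grind
          have hcard : (insert v (insert c D)).card ≤ n := by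
            have : (insert v (insert c D)).card < S.card :=
              card_lt_card ⟨hTS, fun h => hyT (h (by grind))⟩
            omega
          have hC : Cpl G (insert v (insert c D)) := by
            rcases ih G _ hcard hT (fun h' => hD (h'.mono hTS)) with h | h
            · exact h
            · refine cpl_of_reg2 hb hTS hT.2.1 h (d := x) (by simp [hxD]) ?_
              intro z hz hxz
              rcases sep_nb hx hxD hz hxz with rfl | rfl | h
              · simp
              · simp
              · simp only [mem_insert]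
                exact Or.inr (Or.inr h)
          have hxv : x ≠ v := by grind
          have hxc : x ≠ c := by grind
          exact ⟨hC x (by simp [hxD]) v (by simp) hxv, hC x (by simp [hxD]) c (by simp) hxc⟩
        have hx21 : x1 ∉ cpt G ((S.erase v).erase c) x2 := by
          intro h
          apply hx12
          rw [cpt_eq_of_mem hx2 h]
          exact mem_cpt_self hx2
        have k1 := key x1 hx1 x2 hx2 hx12
        have k2 := key x2 hx2 x1 hx1 hx21
        have hne : x1 ≠ x2 := by
          rintro rfl
          exact hx12 (mem_cpt_self hx1)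
        refine hD (itm_diamond (x := v) (y := c) (p := x1) (q := x2) hv hc (by grind) (by grind)
          hadj k1.1.symm k2.1.symm k1.2.symm k2.2.symm ?_ hne)
        exact not_adj_cpt hx1 (mem_cpt_self hx1) hx2 hx12
      · exfalso
        have hcard : S1.card ≤ n := by
          have : S1.card < S.card := card_lt_card ⟨hS1, fun h => hne (subset_antisymm hS1 h)⟩
          omega
        have hvS : v ∈ S1 := hsub (by simp)
        have hcS : c ∈ S1 := hsub (by simp)
        have hnC : ¬ Cpl G S1 := fun h => hadj (h v hvS c hcS hvc)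
        have hR := (ih G S1 hcard hT (fun h' => hD (h'.mono hS1))).resolve_left hnC
        apply hnC
        have hxD : x ∈ cpt G ((S.erase v).erase c) x := mem_cpt_self hx
        refine cpl_of_reg2 hb hS1 hT.2.1 hR (d := x) (hsub (by simp [hxD])) ?_
        intro z hz hxz
        apply hsub
        simp only [mem_insert]
        exact sep_nb hx hxD hz hxz
    · unfold NoBad at hb
      push Not at hb
      obtain ⟨w, a, b, hb⟩ := hb
      have hT := hS.dissolve h4 hb
      have hcard : (S.erase w).card = S.card - 1 := card_erase_of_mem hb.1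
      have hD' : ¬ ITMin diamond (G ⊔ SimpleGraph.edge a b) (S.erase w) := fun h =>
        hD (ITMin.dissolve hb.1 hb.2.1.2.2.2 hb.2.1.2.2.1 hb.2.2 h)
      rcases ih _ _ (by omega) hT hD' with h | h
      · right
        refine Reg2.of_dissolve hb (Cpl.reg2 h ?_)
        by_contra hc
        exact hD (bad_diamond hb h (by omega))
      · exact Or.inr (Reg2.of_dissolve hb h)

end Pool.Agent.TH422.ITM
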