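import Pool.Agent.TH422.ITM.Struct

/-! Structure of 2-connected graphs without an induced subdivision of the paw. -/

namespace Pool.Agent.TH422.ITM

open Finset Classical Pool.Agent.H175R2

variable {V : Type} {G : SimpleGraph V}

/-- case of a bad vertex and a vertex adjacent to exactly one of its neighbours -/
lemma bad_paw_one {S : Finset V} (hS : TwoC G S) {w a b x : V} (hb : Bad G S w a b)
    (h : CM (G ⊔ SimpleGraph.edge a b) (S.erase w)) (hD : ¬ ITMin paw G S) (hx : x ∈ S.erase w)
    (hxa : G.Adj x a) (hxb : ¬ G.Adj x b) (hxne : x ≠ b) : Reg2 G S := by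
  obtain ⟨haw, hbw⟩ := hb.ne
  have ha := hb.2.1.1
  have hb' := hb.2.1.2.1
  have hab := hb.2.1.2.2.1
  have hN := hb.2.1.2.2.2
  have hnab := hb.2.2
  have hw := hb.1
  have hwa : G.Adj w a := (hN a ha).2 (Or.inl rfl)
  have hwb : G.Adj w b := (hN b hb').2 (Or.inr rfl)
  have ha2 : a ∈ S.erase w := mem_erase.2 ⟨haw, ha⟩
  have hb2 : b ∈ S.erase w := mem_erase.2 ⟨hbw, hb'⟩
  have hxS := mem_of_mem_erase hx
  have hxw : x ≠ w := (mem_erase.1 hx).1
  have hxa' : x ≠ a := hxa.ne
  have hE : ∀ p q, p ≠ a → p ≠ b → ((G ⊔ SimpleGraph.edge a b).Adj p q ↔ G.Adj p q) := by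
    intro p q hp hq
    rw [edge_adj' hab]
    tauto
  have hE' : ∀ p q, q ≠ a → q ≠ b → ((G ⊔ SimpleGraph.edge a b).Adj p q ↔ G.Adj p q) := by
    intro p q hp hq
    rw [SimpleGraph.adj_comm, hE q p hp hq, SimpleGraph.adj_comm]
  -- vertices of `S` not adjacent to `w`
  have hNw : ∀ z ∈ S, z ≠ a → z ≠ b → ¬ G.Adj z w := by
    intro z hz hza hzb h'
    rcases (hN z hz).1 h'.symm with h' | h'
    · exact hza h'
    · exact hzb h'
  -- every other vertex is adjacent to `a` or `b`
  have hor : ∀ z ∈ S.erase w, z ≠ a → z ≠ b → G.Adj z a ∨ G.Adj z b := by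
    intro z hz hza hzb
    by_contra hcon
    push Not at hcon
    refine h a ha2 z hz b hb2 ?_ ?_ ((edge_adj' hab _ _).2 (Or.inr (Or.inl ⟨rfl, rfl⟩)))
    · rw [hE' _ _ hza hzb]; exact fun h => hcon.1 h.symm
    · rw [hE _ _ hza hzb]; exact hcon.2
  -- no vertex is adjacent to both
  have hnb : ∀ y ∈ S.erase w, y ≠ a → y ≠ b → ¬ (G.Adj y a ∧ G.Adj y b) := by
    rintro y hy hya hyb ⟨h1, h2⟩
    have hxy : G.Adj x y := by
      by_contra hxy
      refine h b hb2 x hx y hy ?_ ?_ ?_
      · rw [hE' _ _ hxa' hxne]; exact fun h => hxb h.symm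
      · rw [hE _ _ hxa' hxne]; exact hxy
      · rw [hE' _ _ hya hyb]; exact h2.symm
    exact hD (itm_paw (a := a) (b := x) (c := y) (d := w) ha hxS (mem_of_mem_erase hy) hw hxa.symm
      h1.symm hxy hwa.symm (hNw x hxS hxa' hxne) (hNw y (mem_of_mem_erase hy) hya hyb))
  -- there is a vertex adjacent to `b`
  obtain ⟨x', hx', hx'a, hx'b, hx'1, hx'2⟩ : ∃ x' ∈ S.erase w, x' ≠ a ∧ x' ≠ b ∧ G.Adj x' b ∧
      ¬ G.Adj x' a := by
    obtain ⟨p, hp, q, hq, hpq⟩ := (hS.2.2 a ha).2 {w, b} (by
      intro z hz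
      simp only [mem_insert, mem_singleton] at hz
      rcases hz with rfl | rfl
      · exact mem_erase.2 ⟨haw.symm, hw⟩
      · exact mem_erase.2 ⟨hab.symm, hb'⟩) (by simp) ⟨x, by
        simp only [mem_sdiff, mem_erase, mem_insert, mem_singleton, not_or]
        exact ⟨⟨hxa', hxS⟩, hxw, hxne⟩⟩
    simp only [mem_sdiff, mem_erase, mem_insert, mem_singleton, not_or] at hp hq
    obtain ⟨⟨hqa, hqS⟩, hqw, hqb⟩ := hq
    have hqe : q ∈ S.erase w := mem_erase.2 ⟨hqw, hqS⟩
    have hqb' : G.Adj q b := by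
      rcases hp with rfl | rfl
      · exact absurd hpq.symm (hNw q hqS hqa hqb)
      · exact hpq.symm
    exact ⟨q, hqe, hqa, hqb, hqb', fun h => hnb q hqe hqa hqb ⟨h, hqb'⟩⟩
  have hx'S := mem_of_mem_erase hx'
  have hx'w : x' ≠ w := (mem_erase.1 hx').1
  have hxx' : G.Adj x x' := by
    by_contra hcon
    refine h b hb2 x hx x' hx' ?_ ?_ ?_
    · rw [hE' _ _ hxa' hxne]; exact fun h => hxb h.symm
    · rw [hE _ _ hxa' hxne]; exact hcon
    · rw [hE' _ _ hx'a hx'b]; exact hx'1.symm
  have hnoy : ∀ y ∈ S.erase w, y ≠ a → y ≠ b → y = x ∨ y = x' := by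
    intro y hy hya hyb
    by_contra hcon
    push Not at hcon
    have hyS := mem_of_mem_erase hy
    rcases hor y hy hya hyb with h1 | h1
    · have h2 : ¬ G.Adj y b := fun h2 => hnb y hy hya hyb ⟨h1, h2⟩
      have hxy : ¬ G.Adj x y := by
        have := h x hx b hb2 y hy (by rwa [hE _ _ hxa' hxne]) (by
          rw [hE' _ _ hya hyb]; exact fun h => h2 h.symm)
        rwa [hE _ _ hxa' hxne] at this
      have hyx' : G.Adj x' y := by
        by_contra hc
        refine h x' hx' y hy b hb2 (by rwa [hE _ _ hx'a hx'b]) (by rwa [hE _ _ hya hyb]) ?_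
        rw [hE _ _ hx'a hx'b]
        exact hx'1
      exact hD (itm_paw' (v := a) (x := x) (c := x') (y := y) (d := w) ha hxS hx'S hyS hw
        hxa.symm hxx' hyx' h1 (fun h => hx'2 h.symm) hxy hcon.1.symm hwa.symm
        (hNw x hxS hxa' hxne) (hNw x' hx'S hx'a hx'b) (hNw y hyS hya hyb))
    · have h2 : ¬ G.Adj y a := fun h2 => hnb y hy hya hyb ⟨h2, h1⟩
      have hxy : ¬ G.Adj x' y := by
        have := h x' hx' a ha2 y hy (by rwa [hE _ _ hx'a hx'b]) (by
          rw [hE' _ _ hya hyb]; exact fun h => h2 h.symm)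
        rwa [hE _ _ hx'a hx'b] at this
      have hyx' : G.Adj x y := by
        by_contra hc
        refine h x hx y hy a ha2 (by rwa [hE _ _ hxa' hxne]) (by rwa [hE _ _ hya hyb]) ?_
        rw [hE _ _ hxa' hxne]
        exact hxa
      exact hD (itm_paw' (v := b) (x := x') (c := x) (y := y) (d := w) hb' hx'S hxS hyS hw
        hx'1.symm hxx'.symm hyx' h1 (fun h => hxb h.symm) hxy hcon.2.symm hwb.symm
        (hNw x' hx'S hx'a hx'b) (hNw x hxS hxa' hxne) (hNw y hyS hya hyb))
  have hSe : ∀ z ∈ S, z = w ∨ z = a ∨ z = b ∨ z = x ∨ z = x' := by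
    intro z hz
    by_cases h1 : z = w
    · exact Or.inl h1
    by_cases h2 : z = a
    · exact Or.inr (Or.inl h2)
    by_cases h3 : z = b
    · exact Or.inr (Or.inr (Or.inl h3))
    · right; right; right
      exact hnoy z (mem_erase.2 ⟨h1, hz⟩) h2 h3
  have hxx'ne := hxx'.ne
  have hnx : ¬ G.Adj x w := hNw x hxS hxa' hxne
  have hnx' : ¬ G.Adj x' w := hNw x' hx'S hx'a hx'b
  intro z hz
  rcases hSe z hz with rfl | rfl | rfl | rfl | rfl
  · exact ⟨a, b, hb.2.1⟩
  · refine ⟨w, x, hw, hxS, hxw.symm, fun u hu => ?_⟩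
    rcases hSe u hu with rfl | rfl | rfl | rfl | rfl
    · simp [hwa.symm]
    · exact ⟨fun h => absurd rfl h.ne, by
        rintro (h | h)
        · exact absurd h haw
        · exact absurd h.symm hxa'⟩
    · exact ⟨fun h => absurd h hnab, by
        rintro (h | h)
        · exact absurd h hbw
        · exact absurd h.symm hxne⟩
    · simp [hxa.symm]
    · exact ⟨fun h => absurd h.symm hx'2, by
        rintro (h | h)
        · exact absurd h hx'w
        · exact absurd h.symm hxx'ne⟩
  · refine ⟨w, x', hw, hx'S, hx'w.symm, fun u hu => ?_⟩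
    rcases hSe u hu with rfl | rfl | rfl | rfl | rfl
    · simp [hwb.symm]
    · exact ⟨fun h => absurd h.symm hnab, by
        rintro (h | h)
        · exact absurd h haw
        · exact absurd h.symm hx'a⟩
    · exact ⟨fun h => absurd rfl h.ne, by
        rintro (h | h)
        · exact absurd h hbw
        · exact absurd h.symm hx'b⟩
    · exact ⟨fun h => absurd h.symm hxb, by
        rintro (h | h)
        · exact absurd h hxw
        · exact absurd h hxx'ne⟩
    · simp [hx'1.symm]
  · refine ⟨a, x', ha, hx'S, hx'a.symm, fun u hu => ?_⟩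
    rcases hSe u hu with rfl | rfl | rfl | rfl | rfl
    · exact ⟨fun h => absurd h hnx, by
        rintro (h | h)
        · exact absurd h.symm haw
        · exact absurd h.symm hx'w⟩
    · simp [hxa]
    · exact ⟨fun h => absurd h hxb, by
        rintro (h | h)
        · exact absurd h.symm hab
        · exact absurd h.symm hx'b⟩
    · exact ⟨fun h => absurd rfl h.ne, by
        rintro (h | h)
        · exact absurd h hxa'
        · exact absurd h hxx'ne⟩
    · simp [hxx']
  · refine ⟨b, x, hb', hxS, hxne.symm, fun u hu => ?_⟩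
    rcases hSe u hu with rfl | rfl | rfl | rfl | rfl
    · exact ⟨fun h => absurd h hnx', by
        rintro (h | h)
        · exact absurd h.symm hbw
        · exact absurd h.symm hxw⟩
    · exact ⟨fun h => absurd h hx'2, by
        rintro (h | h)
        · exact absurd h hab
        · exact absurd h.symm hxa'⟩
    · simp [hx'1]
    · simp [hxx'.symm]
    · exact ⟨fun h => absurd rfl h.ne, by
        rintro (h | h)
        · exact absurd h hx'b
        · exact absurd h.symm hxx'ne⟩

lemma bad_paw {S : Finset V} (hS : TwoC G S) {w a b : V} (hb : Bad G S w a b)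
    (h : CM (G ⊔ SimpleGraph.edge a b) (S.erase w)) (hD : ¬ ITMin paw G S) :
    CM G S ∨ Reg2 G S := by
  obtain ⟨haw, hbw⟩ := hb.ne
  have ha := hb.2.1.1
  have hb' := hb.2.1.2.1
  have hab := hb.2.1.2.2.1
  have hN := hb.2.1.2.2.2
  have hnab := hb.2.2
  have hw := hb.1
  have hwa : G.Adj w a := (hN a ha).2 (Or.inl rfl)
  have hwb : G.Adj w b := (hN b hb').2 (Or.inr rfl)
  have ha2 : a ∈ S.erase w := mem_erase.2 ⟨haw, ha⟩
  have hb2 : b ∈ S.erase w := mem_erase.2 ⟨hbw, hb'⟩
  by_cases h1 : ∃ x ∈ S.erase w, G.Adj x a ∧ ¬ G.Adj x b ∧ x ≠ b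
  · obtain ⟨x, hx, hxa, hxb, hne⟩ := h1
    exact Or.inr (bad_paw_one hS hb h hD hx hxa hxb hne)
  by_cases h2 : ∃ x ∈ S.erase w, G.Adj x b ∧ ¬ G.Adj x a ∧ x ≠ a
  · obtain ⟨x, hx, hxb, hxa, hne⟩ := h2
    refine Or.inr (bad_paw_one hS hb.symm ?_ hD hx hxb hxa hne)
    rwa [SimpleGraph.edge_comm]
  left
  push Not at h1 h2
  have hNw : ∀ z ∈ S, z ≠ a → z ≠ b → ¬ G.Adj w z := by
    intro z hz hza hzb h'
    rcases (hN z hz).1 h' with h' | h'
    · exact hza h'
    · exact hzb h'
  have hE : ∀ p q, p ≠ a → p ≠ b → ((G ⊔ SimpleGraph.edge a b).Adj p q ↔ G.Adj p q) := by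
    intro p q hp hq
    rw [edge_adj' hab]
    tauto
  have hE' : ∀ p q, q ≠ a → q ≠ b → ((G ⊔ SimpleGraph.edge a b).Adj p q ↔ G.Adj p q) := by
    intro p q hp hq
    rw [SimpleGraph.adj_comm, hE q p hp hq, SimpleGraph.adj_comm]
  have hboth : ∀ z ∈ S, z ≠ w → z ≠ a → z ≠ b → G.Adj z a ∧ G.Adj z b := by
    intro z hz hzw hza hzb
    have hz' : z ∈ S.erase w := mem_erase.2 ⟨hzw, hz⟩
    have hor : G.Adj z a ∨ G.Adj z b := by
      by_contra hcon
      push Not at hcon
      refine h a ha2 z hz' b hb2 ?_ ?_ ((edge_adj' hab _ _).2 (Or.inr (Or.inl ⟨rfl, rfl⟩)))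
      · rw [hE' _ _ hza hzb]; exact fun h => hcon.1 h.symm
      · rw [hE _ _ hza hzb]; exact hcon.2
    rcases hor with h' | h'
    · refine ⟨h', ?_⟩
      by_contra hcon
      exact hzb (h1 z hz' h' hcon)
    · refine ⟨?_, h'⟩
      by_contra hcon
      exact hza (h2 z hz' h' hcon)
  -- the rest is independent
  have hind : ∀ y ∈ S, ∀ z ∈ S, y ≠ a → y ≠ b → z ≠ a → z ≠ b → ¬ G.Adj y z := by
    intro y hy z hz hya hyb hza hzb hyz
    by_cases hyw : y = w
    · subst hyw
      exact hNw z hz hza hzb hyz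
    by_cases hzw : z = w
    · subst hzw
      exact hNw y hy hya hyb hyz.symm
    exact hD (itm_paw (a := a) (b := y) (c := z) (d := w) ha hy hz hw (hboth y hy hyw hya hyb).1.symm
      (hboth z hz hzw hza hzb).1.symm hyz hwa.symm (fun h => hNw y hy hya hyb h.symm)
      (fun h => hNw z hz hza hzb h.symm))
  have hadj : ∀ z ∈ S, z ≠ a → z ≠ b → G.Adj z a ∧ G.Adj z b := by
    intro z hz hza hzb
    by_cases hzw : z = w
    · subst hzw; exact ⟨hwa, hwb⟩
    · exact hboth z hz hzw hza hzb
  have hcl : ∀ y ∈ S, ∀ z ∈ S, G.Adj y z ↔ ((y = a ∨ y = b) ∧ ¬ (z = a ∨ z = b)) ∨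
      (¬ (y = a ∨ y = b) ∧ (z = a ∨ z = b)) := by
    intro y hy z hz
    by_cases hy' : y = a ∨ y = b
    · by_cases hz' : z = a ∨ z = b
      · simp only [hy', hz', not_true, and_false, false_and, or_false, iff_false]
        rcases hy' with rfl | rfl <;> rcases hz' with rfl | rfl
        · exact G.loopless.irrefl _
        · exact hnab
        · exact fun h => hnab h.symm
        · exact G.loopless.irrefl _
      · simp only [hy', hz', not_false_iff, true_and, not_true, and_false, or_false, iff_true]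
        push Not at hz'
        rcases hy' with rfl | rfl
        · exact (hadj z hz hz'.1 hz'.2).1.symm
        · exact (hadj z hz hz'.1 hz'.2).2.symm
    · by_cases hz' : z = a ∨ z = b
      · simp only [hy', hz', not_false_iff, not_true, and_false, true_and, false_or, iff_true]
        push Not at hy'
        rcases hz' with rfl | rfl
        · exact (hadj y hy hy'.1 hy'.2).1
        · exact (hadj y hy hy'.1 hy'.2).2
      · simp only [hy', hz', not_false_iff, and_false, false_and, or_false, iff_false]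
        push Not at hy' hz'
        exact hind y hy z hz hy'.1 hy'.2 hz'.1 hz'.2
  intro x hx y hy z hz hxy hyz
  rw [hcl x hx y hy] at hxy
  rw [hcl y hy z hz] at hyz
  rw [hcl x hx z hz]
  tauto

lemma case_two {S : Finset V} (hD : ¬ ITMin paw G S) (hS : TwoC G S) (hb : NoBad G S) {v c : V}
    (hv : v ∈ S) (hc : c ∈ S) (hvc : v ≠ c) (hadj : G.Adj v c) {x1 x2 : V}
    (hx1 : x1 ∈ (S.erase v).erase c) (hx2 : x2 ∈ (S.erase v).erase c)
    (hx12 : x2 ∉ cpt G ((S.erase v).erase c) x1)
    (ih : ∀ T ⊆ S, T ≠ S → TwoC G T → CM G T ∨ Reg2 G T) : CM G S := by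
  have hUS : ∀ x ∈ (S.erase v).erase c, x ∈ S ∧ x ≠ v ∧ x ≠ c := by
    intro x hx
    rw [mem_erase, mem_erase] at hx
    tauto
  -- every component misses some vertex
  have hmiss : ∀ x ∈ (S.erase v).erase c, ∃ y ∈ (S.erase v).erase c,
      y ∉ cpt G ((S.erase v).erase c) x := by
    intro x hx
    by_contra hcon
    push Not at hcon
    have e1 := cpt_eq_of_mem hx (hcon x1 hx1)
    apply hx12
    rw [e1]
    exact hcon x2 hx2
  have hsymm : ∀ x ∈ (S.erase v).erase c, ∀ y ∈ (S.erase v).erase c,
      y ∉ cpt G ((S.erase v).erase c) x → x ∉ cpt G ((S.erase v).erase c) y := by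
    intro x hx y hy hxy h
    apply hxy
    rw [cpt_eq_of_mem hy h]
    exact mem_cpt_self hy
  have hCM : ∀ x ∈ (S.erase v).erase c,
      CM G (insert v (insert c (cpt G ((S.erase v).erase c) x))) := by
    intro x hx
    obtain ⟨y, hy, hxy⟩ := hmiss x hx
    have hT := sep_two_adj hS hv hc hvc hadj hx
    have hxD : x ∈ cpt G ((S.erase v).erase c) x := mem_cpt_self hx
    set D := cpt G ((S.erase v).erase c) x with hDdef
    have hDs : D ⊆ (S.erase v).erase c := cpt_subset
    have hTS : insert v (insert c D) ⊆ S := by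
      intro z hz
      simp only [mem_insert] at hz
      rcases hz with rfl | rfl | hz
      · exact hv
      · exact hc
      · exact (hUS z (hDs hz)).1
    have hyT : y ∉ insert v (insert c D) := by
      simp only [mem_insert, not_or]
      exact ⟨(hUS y hy).2.1, (hUS y hy).2.2, hxy⟩
    have hne : insert v (insert c D) ≠ S := fun h => hyT (h ▸ (hUS y hy).1)
    rcases ih _ hTS hne hT with h | h
    · exact h
    · refine Cpl.cm (cpl_of_reg2 hb hTS hT.2.1 h (d := x) (by simp [hxD]) ?_)
      intro z hz hxz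
      rcases sep_nb hx hxD hz hxz with rfl | rfl | h
      · simp
      · simp
      · simp only [mem_insert]
        exact Or.inr (Or.inr h)
  have hor : ∀ x ∈ (S.erase v).erase c, G.Adj x v ∨ G.Adj x c := by
    intro x hx
    by_contra hcon
    push Not at hcon
    exact hCM x hx v (by simp) x (by simp [mem_cpt_self hx]) c (by simp)
      (fun h => hcon.1 h.symm) hcon.2 hadj
  have hU2 : ∀ x ∈ (S.erase v).erase c, ∀ y ∈ (S.erase v).erase c,
      y ∉ cpt G ((S.erase v).erase c) x → ¬ G.Adj x y := fun x hx y hy hxy =>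
    not_adj_cpt hx (mem_cpt_self hx) hy hxy
  by_cases hA : ∃ d ∈ (S.erase v).erase c, G.Adj d v ∧ G.Adj d c
  · obtain ⟨d, hd, hdv, hdc⟩ := hA
    -- everything is adjacent to both
    have hstep : ∀ d ∈ (S.erase v).erase c, G.Adj d v → G.Adj d c → ∀ e ∈ (S.erase v).erase c,
        e ∉ cpt G ((S.erase v).erase c) d → G.Adj e v ∧ G.Adj e c := by
      intro d hd hdv hdc e he hde
      have hne := hU2 d hd e he hde
      rcases hor e he with h | h
      · refine ⟨h, ?_⟩
        by_contra hcon
        exact hD (itm_paw (a := v) (b := c) (c := d) (d := e) hv hc (hUS d hd).1 (hUS e he).1 hadj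
          hdv.symm hdc.symm h.symm (fun h => hcon h.symm) hne)
      · refine ⟨?_, h⟩
        by_contra hcon
        exact hD (itm_paw (a := c) (b := v) (c := d) (d := e) hc hv (hUS d hd).1 (hUS e he).1
          hadj.symm hdc.symm hdv.symm h.symm (fun h => hcon h.symm) hne)
    obtain ⟨e, he, hde⟩ := hmiss d hd
    have he2 := hstep d hd hdv hdc e he hde
    have hall : ∀ f ∈ (S.erase v).erase c, G.Adj f v ∧ G.Adj f c := by
      intro f hf
      by_cases h : f ∈ cpt G ((S.erase v).erase c) d
      · refine hstep e he he2.1 he2.2 f hf ?_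
        intro h'
        have e1 := cpt_eq_of_mem he h'
        have e2 := cpt_eq_of_mem hd h
        apply hde
        rw [← e2, e1]
        exact mem_cpt_self he
      · exact hstep d hd hdv hdc f hf h
    have hind : ∀ f ∈ (S.erase v).erase c, ∀ g ∈ (S.erase v).erase c, ¬ G.Adj f g := by
      intro f hf g hg hfg
      have hgf : g ∈ cpt G ((S.erase v).erase c) f := by
        by_contra h
        exact hU2 f hf g hg h hfg
      obtain ⟨y, hy, hfy⟩ := hmiss f hf
      exact hD (itm_paw (a := v) (b := f) (c := g) (d := y) hv (hUS f hf).1 (hUS g hg).1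
        (hUS y hy).1 (hall f hf).1.symm (hall g hg).1.symm hfg (hall y hy).1.symm
        (hU2 f hf y hy hfy) (not_adj_cpt hf hgf hy hfy))
    have hU : ∀ z ∈ S, z ≠ v → z ≠ c → z ∈ (S.erase v).erase c := by
      intro z hz h1 h2
      rw [mem_erase, mem_erase]
      exact ⟨h2, h1, hz⟩
    intro x hx y hy z hz hxy hyz
    by_cases hyv : y = v
    · subst hyv
      have : x = y := by
        by_contra hne
        by_cases hxc : x = c
        · subst hxc; exact hxy hadj.symm
        · exact hxy (hall x (hU x hx hne hxc)).1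
      subst this
      exact hyz
    by_cases hyc : y = c
    · subst hyc
      have : x = y := by
        by_contra hne
        by_cases hxv : x = v
        · subst hxv; exact hxy hadj
        · exact hxy (hall x (hU x hx hxv hne)).2
      subst this
      exact hyz
    have hy' := hU y hy hyv hyc
    have h1 : x ≠ v ∧ x ≠ c := by
      constructor
      · rintro rfl; exact hxy (hall y hy').1.symm
      · rintro rfl; exact hxy (hall y hy').2.symm
    have h2 : z ≠ v ∧ z ≠ c := by
      constructor
      · rintro rfl; exact hyz (hall y hy').1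
      · rintro rfl; exact hyz (hall y hy').2
    exact hind x (hU x hx h1.1 h1.2) z (hU z hz h2.1 h2.2)
  · exfalso
    push Not at hA
    obtain ⟨t1, t2⟩ := sep_touch hS hv hc hvc hx1
    obtain ⟨x, hx, hvx⟩ := tc_single.1 t1
    obtain ⟨y, hy, hcy⟩ := tc_single.1 t2
    have hxU : x ∈ (S.erase v).erase c := cpt_subset hx
    have hyU : y ∈ (S.erase v).erase c := cpt_subset hy
    have hxc : ¬ G.Adj x c := hA x hxU hvx.symm
    have hyv : ¬ G.Adj y v := fun h => hA y hyU h hcy.symm
    have hxy : G.Adj x y := by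
      by_contra hcon
      exact hCM x1 hx1 c (by simp) x (by simp [hx]) y (by simp [hy]) (fun h => hxc h.symm) hcon hcy
    have hxx2 : ¬ G.Adj x x2 := not_adj_cpt hx1 hx hx2 hx12
    have hyx2 : ¬ G.Adj y x2 := not_adj_cpt hx1 hy hx2 hx12
    rcases hor x2 hx2 with h | h
    · exact hD (itm_paw' (v := v) (x := x) (c := y) (y := c) (d := x2) hv (hUS x hxU).1
        (hUS y hyU).1 hc (hUS x2 hx2).1 hvx hxy hcy.symm hadj.symm (fun h => hyv h.symm) hxc
        (hUS x hxU).2.2 h.symm hxx2 hyx2 (fun h' => hA x2 hx2 h h'.symm))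
    · exact hD (itm_paw' (v := c) (x := y) (c := x) (y := v) (d := x2) hc (hUS y hyU).1
        (hUS x hxU).1 hv (hUS x2 hx2).1 hcy hxy.symm hvx.symm hadj (fun h => hxc h.symm) hyv
        (hUS y hyU).2.1 h.symm hyx2 hxx2 (fun h' => hA x2 hx2 h'.symm h))

theorem structP : ∀ (n : ℕ) (G : SimpleGraph V) (S : Finset V), S.card ≤ n → TwoC G S →
    ¬ ITMin paw G S → CM G S ∨ Reg2 G S := by
  intro n
  induction n with
  | zero =>
    intro G S hn hS
    have := hS.1
    omega
  | succ n ih =>
    intro G S hn hS hD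
    by_cases h3 : S.card = 3
    · exact Or.inl (hS.cpl h3).cm
    have h4 : 4 ≤ S.card := by have := hS.1; omega
    by_cases hb : NoBad G S
    · left
      rcases tri hS h4 hb with h | ⟨v, hv, c, hc, hvc, hadj, x1, hx1, x2, hx2, hx12⟩ |
        ⟨v, hv, c, hc, hvc, hadj, x, hx, r, hr, hrx, S1, hS1, hne, hT, hrS, hsub⟩
      · by_contra hnc
        unfold CM at hnc
        push Not at hnc
        obtain ⟨p, hp, q, hq, r, hr, hpq, hqr, hpr⟩ := hnc
        obtain ⟨x, hx, hxp, hxq, hxr⟩ := exists_third h4 p q r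
        have hcard : (S.erase x).card ≤ n := by rw [card_erase_of_mem hx]; omega
        have hpe : p ∈ S.erase x := mem_erase.2 ⟨hxp.symm, hp⟩
        have hqe : q ∈ S.erase x := mem_erase.2 ⟨hxq.symm, hq⟩
        have hre : r ∈ S.erase x := mem_erase.2 ⟨hxr.symm, hr⟩
        have hnC : ¬ CM G (S.erase x) := fun h' => h' p hpe q hqe r hre hpq hqr hpr
        have hR := (ih G _ hcard (h x hx) (fun h' => hD (h'.mono (erase_subset _ _)))).resolve_left
          hnC
        have hall := adj_of_reg2 hb (h x hx).2.1 hR (fun h => hnC h.cm)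
        exact hD (itm_paw (a := x) (b := p) (c := r) (d := q) hx hp hr hq
          (hall p hpe) (hall r hre) hpr (hall q hqe) hpq (fun h => hqr h.symm))
      · exact case_two hD hS hb hv hc hvc hadj hx1 hx2 hx12 (fun T hTS hne hT => by
          have hcard : T.card ≤ n := by
            have : T.card < S.card := card_lt_card ⟨hTS, fun h => hne (subset_antisymm hTS h)⟩
            omega
          exact ih G T hcard hT (fun h => hD (h.mono hTS)))
      · exfalso
        have hcard : S1.card ≤ n := by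
          have : S1.card < S.card := card_lt_card ⟨hS1, fun h => hne (subset_antisymm hS1 h)⟩
          omega
        have hvS : v ∈ S1 := hsub (by simp)
        have hcS : c ∈ S1 := hsub (by simp)
        have hnC : ¬ Cpl G S1 := fun h => hadj (h v hvS c hcS hvc)
        have hxD : x ∈ cpt G ((S.erase v).erase c) x := mem_cpt_self hx
        have hxS : x ∈ S1 := hsub (by simp [hxD])
        rcases ih G S1 hcard hT (fun h' => hD (h'.mono hS1)) with hC | hR
        · -- complete multipartite
          have hDr : ∀ d ∈ cpt G ((S.erase v).erase c) x, ¬ G.Adj d r := fun d hd =>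
            not_adj_cpt hx hd hr hrx
          have hDS : ∀ d ∈ cpt G ((S.erase v).erase c) x, d ∈ S1 := fun d hd =>
            hsub (by simp [hd])
          have hDi : ∀ d ∈ cpt G ((S.erase v).erase c) x, ¬ G.Adj x d := fun d hd =>
            hC x hxS r hrS d (hDS d hd) (hDr x hxD) (fun h => hDr d hd h.symm)
          obtain ⟨t1, t2⟩ := sep_touch hS hv hc hvc hx
          obtain ⟨k1, hk1, hvk1⟩ := tc_single.1 t1
          obtain ⟨k2, hk2, hck2⟩ := tc_single.1 t2
          have hxv : G.Adj x v := by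
            by_contra hcon
            exact hC v hvS x hxS k1 (hDS k1 hk1) (fun h => hcon h.symm) (hDi k1 hk1) hvk1
          have hxc : G.Adj x c := by
            by_contra hcon
            exact hC c hcS x hxS k2 (hDS k2 hk2) (fun h => hcon h.symm) (hDi k2 hk2) hck2
          refine hb x v c ⟨hS1 hxS, ⟨hv, hc, hvc, fun z hz => ?_⟩, hadj⟩
          constructor
          · intro hxz
            rcases sep_nb hx hxD hz hxz with h | h | h
            · exact Or.inl h
            · exact Or.inr h
            · exact absurd hxz (hDi z h)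
          · rintro (rfl | rfl)
            · exact hxv
            · exact hxc
        · apply hnC
          refine cpl_of_reg2 hb hS1 hT.2.1 hR (d := x) hxS ?_
          intro z hz hxz
          apply hsub
          simp only [mem_insert]
          exact sep_nb hx hxD hz hxz
    · unfold NoBad at hb
      push Not at hb
      obtain ⟨w, a, b, hb⟩ := hb
      have hT := hS.dissolve h4 hb
      have hcard : (S.erase w).card = S.card - 1 := card_erase_of_mem hb.1
      have hD' : ¬ ITMin paw (G ⊔ SimpleGraph.edge a b) (S.erase w) := fun h =>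
        hD (ITMin.dissolve hb.1 hb.2.1.2.2.2 hb.2.1.2.2.1 hb.2.2 h)
      rcases ih _ _ (by omega) hT hD' with h | h
      · exact bad_paw hS hb h hD
      · exact Or.inr (Reg2.of_dissolve hb h)

end Pool.Agent.TH422.ITM
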