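import Mathlib

/-! Subdivisions and induced topological minors. -/

namespace Pool.Agent.TH422.ITM

/-- The graph obtained from `G` by subdividing the edge `xy` once: the edge `xy` is deleted and a
new vertex `none` adjacent to exactly `x` and `y` is added. -/
def subdivide {V : Type} (G : SimpleGraph V) (x y : V) : SimpleGraph (Option V) where
  Adj p q :=
    (∃ a b, p = some a ∧ q = some b ∧ G.Adj a b ∧ s(a, b) ≠ s(x, y)) ∨
    (p = none ∧ (q = some x ∨ q = some y)) ∨ (q = none ∧ (p = some x ∨ p = some y))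
  symm := ⟨by
    rintro p q (⟨a, b, rfl, rfl, h, h'⟩ | ⟨h, h'⟩ | ⟨h, h'⟩)
    · exact Or.inl ⟨b, a, rfl, rfl, h.symm, by rwa [Sym2.eq_swap]⟩
    · exact Or.inr (Or.inr ⟨h, h'⟩)
    · exact Or.inr (Or.inl ⟨h, h'⟩)⟩
  loopless := ⟨by
    rintro p (⟨a, b, h1, h2, h, h'⟩ | ⟨h, h'⟩ | ⟨h, h'⟩)
    · rw [h1] at h2
      cases h2
      exact G.loopless.irrefl _ h
    · rw [h] at h'; simp at h'
    · rw [h] at h'; simp at h'⟩

/-- `Subdivision H X`: `X` is obtained from (a copy of) `H` by subdividing edges, one at a time;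
equivalently by replacing edges by internally disjoint paths. -/
inductive Subdivision {V : Type} (H : SimpleGraph V) : ∀ {W : Type}, SimpleGraph W → Prop
  | iso {W : Type} {X : SimpleGraph W} (e : H ≃g X) : Subdivision H X
  | step {W : Type} {X : SimpleGraph W} {x y : W} (h : Subdivision H X) (hxy : X.Adj x y) :
      Subdivision H (subdivide X x y)

/-- `H` is an induced topological minor of `G`: some subdivision of `H` is isomorphic to an induced
subgraph of `G`. -/
def IsITM {V V' : Type} (H : SimpleGraph V) (G : SimpleGraph V') : Prop :=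
  ∃ (W : Type) (X : SimpleGraph W), Subdivision H X ∧ X.IsIndContained G

/-- a subdivision of `H` inside the vertex set `S` -/
def ITMin {V V' : Type} (H : SimpleGraph V) (G : SimpleGraph V') (S : Finset V') : Prop :=
  ∃ (W : Type) (X : SimpleGraph W), Subdivision H X ∧ ∃ φ : X ↪g G, ∀ w, φ w ∈ S

variable {V V' W : Type}

@[simp] lemma sub_some_some {G : SimpleGraph V} {x y a b : V} :
    (subdivide G x y).Adj (some a) (some b) ↔ G.Adj a b ∧ s(a, b) ≠ s(x, y) := by
  simp [subdivide]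

@[simp] lemma sub_none_some {G : SimpleGraph V} {x y b : V} :
    (subdivide G x y).Adj none (some b) ↔ b = x ∨ b = y := by
  simp [subdivide]

@[simp] lemma sub_some_none {G : SimpleGraph V} {x y a : V} :
    (subdivide G x y).Adj (some a) none ↔ a = x ∨ a = y := by
  simp [subdivide]

lemma ITMin.mono {H : SimpleGraph V} {G : SimpleGraph V'} {S T : Finset V'} (h : ITMin H G S)
    (hST : S ⊆ T) : ITMin H G T := by
  obtain ⟨W, X, h1, φ, h2⟩ := h
  exact ⟨W, X, h1, φ, fun w => hST (h2 w)⟩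

lemma ITMin.isITM {H : SimpleGraph V} {G : SimpleGraph V'} {S : Finset V'} (h : ITMin H G S) :
    IsITM H G := by
  obtain ⟨W, X, h1, φ, h2⟩ := h
  exact ⟨W, X, h1, ⟨φ⟩⟩

lemma ITMin.of_embedding {H : SimpleGraph V} {G : SimpleGraph V'} {S : Finset V'} (φ : H ↪g G)
    (h : ∀ v, φ v ∈ S) : ITMin H G S :=
  ⟨V, H, Subdivision.iso (SimpleGraph.Iso.refl), φ, h⟩

/-- Dissolving a vertex of degree two with nonadjacent neighbours. -/
lemma ITMin.dissolve {H : SimpleGraph V} {G : SimpleGraph V'} {S : Finset V'} [DecidableEq V']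
    {w a b : V'} (hw : w ∈ S) (hN : ∀ z ∈ S, G.Adj w z ↔ z = a ∨ z = b) (hab : a ≠ b)
    (hn : ¬ G.Adj a b) (h : ITMin H (G ⊔ SimpleGraph.edge a b) (S.erase w)) : ITMin H G S := by
  obtain ⟨W, X, h1, φ, h2⟩ := h
  have hE : ∀ p q : V', (G ⊔ SimpleGraph.edge a b).Adj p q ↔ G.Adj p q ∨ s(p, q) = s(a, b) := by
    intro p q
    rw [SimpleGraph.sup_adj, SimpleGraph.edge_adj]
    constructor
    · rintro (h | ⟨h, _⟩)
      · exact Or.inl h
      · right
        rw [Sym2.eq_iff]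
        tauto
    · rintro (h | h)
      · exact Or.inl h
      · right
        rw [Sym2.eq_iff] at h
        refine ⟨by tauto, ?_⟩
        rcases h with ⟨rfl, rfl⟩ | ⟨rfl, rfl⟩
        · exact hab
        · exact hab.symm
  have hφ : ∀ p q : W, X.Adj p q ↔ G.Adj (φ p) (φ q) ∨ s(φ p, φ q) = s(a, b) := by
    intro p q
    rw [← hE, φ.map_adj_iff]
  have hφw : ∀ p, φ p ≠ w := fun p h => (Finset.mem_erase.1 (h2 p)).1 h
  by_cases hr : (∃ x, φ x = a) ∧ ∃ y, φ y = b
  · obtain ⟨⟨x, hx⟩, y, hy⟩ := hr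
    have hxy : X.Adj x y := (hφ x y).2 (Or.inr (by rw [hx, hy]))
    have ex : ∀ q, φ q = a ↔ q = x :=
      fun q => ⟨fun h => φ.injective (h.trans hx.symm), fun h => h ▸ hx⟩
    have ey : ∀ q, φ q = b ↔ q = y :=
      fun q => ⟨fun h => φ.injective (h.trans hy.symm), fun h => h ▸ hy⟩
    refine ⟨Option W, subdivide X x y, Subdivision.step h1 hxy, ⟨⟨fun o => o.elim w φ, ?_⟩, ?_⟩, ?_⟩
    · rintro (_ | p) (_ | q) h
      · rfl
      · exact absurd h.symm (hφw q)
      · exact absurd h (hφw p)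
      · simp only [Option.elim] at h
        rw [φ.injective h]
    · rintro (_ | p) (_ | q)
      · simp
      · simp only [Function.Embedding.coeFn_mk, Option.elim, sub_none_some]
        rw [hN _ (Finset.mem_of_mem_erase (h2 q)), ex, ey]
      · simp only [Function.Embedding.coeFn_mk, Option.elim, sub_some_none]
        rw [G.adj_comm, hN _ (Finset.mem_of_mem_erase (h2 p)), ex, ey]
      · simp only [Function.Embedding.coeFn_mk, Option.elim, sub_some_some]
        rw [hφ]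
        have h3 : s(φ p, φ q) = s(a, b) ↔ s(p, q) = s(x, y) := by
          rw [Sym2.eq_iff, Sym2.eq_iff, ex, ey, ex, ey]
        rw [ne_eq, ← h3]
        constructor
        · intro h
          refine ⟨Or.inl h, fun h4 => hn ?_⟩
          rw [Sym2.eq_iff] at h4
          rcases h4 with ⟨h5, h6⟩ | ⟨h5, h6⟩
          · rw [h5, h6] at h; exact h
          · rw [h5, h6] at h; exact h.symm
        · rintro ⟨h | h, h'⟩
          · exact h
          · exact absurd h h'
    · rintro (_ | p)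
      · exact hw
      · exact Finset.mem_of_mem_erase (h2 p)
  · refine ⟨W, X, h1, ⟨φ.toEmbedding, ?_⟩, fun p => Finset.mem_of_mem_erase (h2 p)⟩
    intro p q
    have h4 := hφ p q
    have h5 : s(φ p, φ q) ≠ s(a, b) := by
      intro h
      apply hr
      rw [Sym2.eq_iff] at h
      rcases h with ⟨h, h'⟩ | ⟨h, h'⟩
      · exact ⟨⟨p, h⟩, ⟨q, h'⟩⟩
      · exact ⟨⟨q, h'⟩, ⟨p, h⟩⟩
    constructor
    · intro h
      exact h4.2 (Or.inl h)
    · intro h
      exact (h4.1 h).resolve_right h5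

/-! ### invariants -/

open Classical in
/-- the neighbour of `v` in the subdivided graph which replaces `u` -/
noncomputable def nb (x y v u : V) : Option V := if s(v, u) = s(x, y) then none else some u

lemma nb_inj {x y v u u' : V} (h : nb x y v u = nb x y v u') : u = u' := by
  unfold nb at h
  split_ifs at h with h1 h2
  · rw [← h2] at h1
    rw [Sym2.eq_iff] at h1
    rcases h1 with ⟨_, h⟩ | ⟨h, h'⟩
    · exact h
    · rw [h', ← h]
  · exact Option.some.inj h

lemma adj_nb {G : SimpleGraph V} {x y v u : V} (h : G.Adj v u) :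
    (subdivide G x y).Adj (some v) (nb x y v u) := by
  unfold nb
  split_ifs with h1
  · rw [sub_some_none]
    rw [Sym2.eq_iff] at h1
    tauto
  · rw [sub_some_some]
    exact ⟨h, h1⟩

lemma of_adj_nb {G : SimpleGraph V} {x y v : V} {q : Option V} (hxy : G.Adj x y)
    (h : (subdivide G x y).Adj (some v) q) : ∃ u, G.Adj v u ∧ q = nb x y v u := by
  rcases q with _ | q
  · rw [sub_some_none] at h
    rcases h with rfl | rfl
    · exact ⟨y, hxy, by simp [nb]⟩
    · exact ⟨x, hxy.symm, by simp [nb, Sym2.eq_swap]⟩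
  · rw [sub_some_some] at h
    exact ⟨q, h.1, by simp [nb, h.2]⟩

/-- the set `S` after subdividing `xy` -/
def up (S : Set V) (x y : V) : Set (Option V) := {q | (∃ v ∈ S, q = some v) ∨ (q = none ∧ x ∈ S ∧ y ∈ S)}

@[simp] lemma some_mem_up {S : Set V} {x y v : V} : some v ∈ up S x y ↔ v ∈ S := by
  simp [up]

@[simp] lemma none_mem_up {S : Set V} {x y : V} : none ∈ up S x y ↔ x ∈ S ∧ y ∈ S := by
  simp [up]

lemma nb_mem_up {S : Set V} {x y v u : V} (hv : v ∈ S) (hu : u ∈ S) : nb x y v u ∈ up S x y := by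
  unfold nb
  split_ifs with h
  · rw [none_mem_up]
    rw [Sym2.eq_iff] at h
    rcases h with ⟨rfl, rfl⟩ | ⟨rfl, rfl⟩ <;> exact ⟨by assumption, by assumption⟩
  · simpa using hu

/-- a vertex with four neighbours -/
def Inv4 (G : SimpleGraph V) : Prop :=
  ∃ (v : V) (f : Fin 4 → V), Function.Injective f ∧ ∀ i, G.Adj v (f i)

/-- two anticomplete edges -/
def Inv2K2 (G : SimpleGraph V) : Prop :=
  ∃ a b c d : V, G.Adj a b ∧ G.Adj c d ∧ a ≠ c ∧ a ≠ d ∧ b ≠ c ∧ b ≠ d ∧
    ¬ G.Adj a c ∧ ¬ G.Adj a d ∧ ¬ G.Adj b c ∧ ¬ G.Adj b d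

/-- an independent triple -/
def InvA (G : SimpleGraph V) : Prop :=
  ∃ a b c : V, a ≠ b ∧ a ≠ c ∧ b ≠ c ∧ ¬ G.Adj a b ∧ ¬ G.Adj a c ∧ ¬ G.Adj b c

/-- a vertex anticomplete to a set of minimum degree two -/
def InvP (G : SimpleGraph V) : Prop :=
  ∃ (y0 : V) (S : Set V), S.Nonempty ∧ y0 ∉ S ∧ (∀ s ∈ S, ¬ G.Adj y0 s) ∧
    ∀ s ∈ S, ∃ a ∈ S, ∃ b ∈ S, a ≠ b ∧ G.Adj s a ∧ G.Adj s b

/-- a 2-regular induced subgraph with at least four vertices -/
def InvC (G : SimpleGraph V) : Prop :=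
  ∃ (S : Set V), (∃ f : Fin 4 → V, Function.Injective f ∧ ∀ i, f i ∈ S) ∧
    ∀ s ∈ S, ∃ a ∈ S, ∃ b ∈ S, a ≠ b ∧ G.Adj s a ∧ G.Adj s b ∧ ∀ z ∈ S, G.Adj s z → z = a ∨ z = b

/-- four vertices of degree three, every triangle consists of these -/
def InvK (G : SimpleGraph V) : Prop :=
  ∃ (S : Set V) (f : Fin 4 → V), Function.Injective f ∧ (∀ i, f i ∈ S) ∧
    (∀ i, ∃ g : Fin 3 → V, Function.Injective g ∧ ∀ j, g j ∈ S ∧ G.Adj (f i) (g j)) ∧
    ∀ p ∈ S, ∀ q ∈ S, ∀ r ∈ S, G.Adj p q → G.Adj q r → G.Adj p r → ∃ i, p = f i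

lemma Inv4.step {G : SimpleGraph V} {x y : V} (h : Inv4 G) : Inv4 (subdivide G x y) := by
  obtain ⟨v, f, hf, h⟩ := h
  exact ⟨some v, fun i => nb x y v (f i), fun i j hij => hf (nb_inj hij), fun i => adj_nb (h i)⟩

lemma InvA.step {G : SimpleGraph V} {x y : V} (h : InvA G) : InvA (subdivide G x y) := by
  obtain ⟨a, b, c, h1, h2, h3, h4, h5, h6⟩ := h
  exact ⟨some a, some b, some c, by simpa using h1, by simpa using h2, by simpa using h3,
    by simp [h4], by simp [h5], by simp [h6]⟩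

lemma InvP.step {G : SimpleGraph V} {x y : V} (hxy : G.Adj x y) (h : InvP G) :
    InvP (subdivide G x y) := by
  obtain ⟨y0, S, ⟨s0, hs0⟩, h0, h1, h2⟩ := h
  refine ⟨some y0, up S x y, ⟨some s0, by simpa using hs0⟩, by simpa using h0, ?_, ?_⟩
  · rintro (_ | s) hs
    · rw [none_mem_up] at hs
      rw [sub_some_none]
      rintro (rfl | rfl)
      · exact h0 hs.1
      · exact h0 hs.2
    · rw [some_mem_up] at hs
      rw [sub_some_some]
      exact fun h => h1 s hs h.1
  · rintro (_ | s) hs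
    · rw [none_mem_up] at hs
      exact ⟨some x, by simpa using hs.1, some y, by simpa using hs.2, by simpa using hxy.ne,
        by simp, by simp⟩
    · rw [some_mem_up] at hs
      obtain ⟨a, ha, b, hb, hab, h3, h4⟩ := h2 s hs
      exact ⟨nb x y s a, nb_mem_up hs ha, nb x y s b, nb_mem_up hs hb, fun h => hab (nb_inj h),
        adj_nb h3, adj_nb h4⟩

lemma InvC.step {G : SimpleGraph V} {x y : V} (hxy : G.Adj x y) (h : InvC G) :
    InvC (subdivide G x y) := by
  obtain ⟨S, ⟨f, hf, hfS⟩, h2⟩ := h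
  refine ⟨up S x y, ⟨fun i => some (f i), fun i j hij => hf (Option.some.inj hij),
    fun i => by simpa using hfS i⟩, ?_⟩
  rintro (_ | s) hs
  · rw [none_mem_up] at hs
    refine ⟨some x, by simpa using hs.1, some y, by simpa using hs.2, by simpa using hxy.ne,
      by simp, by simp, ?_⟩
    rintro (_ | z) hz hz'
    · exact absurd rfl hz'.ne
    · simpa using hz'
  · rw [some_mem_up] at hs
    obtain ⟨a, ha, b, hb, hab, h3, h4, h5⟩ := h2 s hs
    refine ⟨nb x y s a, nb_mem_up hs ha, nb x y s b, nb_mem_up hs hb, fun h => hab (nb_inj h),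
        adj_nb h3, adj_nb h4, ?_⟩
    intro z hz hz'
    obtain ⟨u, hu, rfl⟩ := of_adj_nb hxy hz'
    have huS : u ∈ S := by
      unfold nb at hz
      split_ifs at hz with h6
      · rw [none_mem_up] at hz
        rw [Sym2.eq_iff] at h6
        rcases h6 with ⟨_, rfl⟩ | ⟨_, rfl⟩
        · exact hz.2
        · exact hz.1
      · simpa using hz
    rcases h5 u huS hu with rfl | rfl
    · exact Or.inl rfl
    · exact Or.inr rfl

lemma InvK.step {G : SimpleGraph V} {x y : V} (h : InvK G) :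
    InvK (subdivide G x y) := by
  obtain ⟨S, f, hf, hfS, h1, h2⟩ := h
  refine ⟨up S x y, fun i => some (f i), fun i j hij => hf (Option.some.inj hij),
    fun i => by simpa using hfS i, ?_, ?_⟩
  · intro i
    obtain ⟨g, hg, h⟩ := h1 i
    exact ⟨fun j => nb x y (f i) (g j), fun j k hjk => hg (nb_inj hjk),
      fun j => ⟨nb_mem_up (hfS i) (h j).1, adj_nb (h j).2⟩⟩
  · have nt : ∀ q r : Option V, (subdivide G x y).Adj none q → (subdivide G x y).Adj none r →
        ¬ (subdivide G x y).Adj q r := by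
      rintro (_ | q) (_ | r) hq hr h
      · exact h.ne rfl
      · exact hq.ne rfl
      · exact hr.ne rfl
      · rw [sub_none_some] at hq hr
        rw [sub_some_some] at h
        rcases hq with rfl | rfl <;> rcases hr with rfl | rfl
        · exact h.1.ne rfl
        · exact h.2 rfl
        · exact h.2 Sym2.eq_swap
        · exact h.1.ne rfl
    rintro (_ | p) hp (_ | q) hq (_ | r) hr hpq hqr hpr
    · exact absurd rfl hpq.ne
    · exact absurd rfl hpq.ne
    · exact absurd rfl hpr.ne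
    · exact absurd hqr (nt _ _ hpq hpr)
    · exact absurd rfl hqr.ne
    · exact absurd hpr (nt _ _ hpq.symm hqr)
    · exact absurd hpq (nt _ _ hpr.symm hqr.symm)
    · rw [sub_some_some] at hpq hqr hpr
      rw [some_mem_up] at hp hq hr
      obtain ⟨i, hi⟩ := h2 p hp q hq r hr hpq.1 hqr.1 hpr.1
      exact ⟨i, by rw [hi]⟩

lemma Inv2K2.step {G : SimpleGraph V} {x y : V} (hxy : G.Adj x y) (h : Inv2K2 G) :
    Inv2K2 (subdivide G x y) := by
  obtain ⟨a, b, c, d, h1, h2, hac, had, hbc, hbd, g1, g2, g3, g4⟩ := h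
  by_cases k1 : s(a, b) = s(x, y)
  · have k2 : s(c, d) ≠ s(x, y) := by
      intro h
      rw [← k1, Sym2.eq_iff] at h
      rcases h with ⟨rfl, _⟩ | ⟨rfl, _⟩
      · exact hac rfl
      · exact hbc rfl
    rw [Sym2.eq_iff] at k1
    refine ⟨some a, none, some c, some d, ?_, ?_, ?_, ?_, ?_, ?_, ?_, ?_, ?_, ?_⟩
    · simp; tauto
    · simp [h2, k2]
    · simpa using hac
    · simpa using had
    · simp
    · simp
    · simp [g1]
    · simp [g2]
    · simp only [sub_none_some, not_or]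
      rcases k1 with ⟨rfl, rfl⟩ | ⟨rfl, rfl⟩
      · exact ⟨fun h => hac h.symm, fun h => hbc h.symm⟩
      · exact ⟨fun h => hbc h.symm, fun h => hac h.symm⟩
    · simp only [sub_none_some, not_or]
      rcases k1 with ⟨rfl, rfl⟩ | ⟨rfl, rfl⟩
      · exact ⟨fun h => had h.symm, fun h => hbd h.symm⟩
      · exact ⟨fun h => hbd h.symm, fun h => had h.symm⟩
  · by_cases k2 : s(c, d) = s(x, y)
    · rw [Sym2.eq_iff] at k2
      refine ⟨some a, some b, some c, none, ?_, ?_, ?_, ?_, ?_, ?_, ?_, ?_, ?_, ?_⟩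
      · simp [h1, k1]
      · simp; tauto
      · simpa using hac
      · simp
      · simpa using hbc
      · simp
      · simp [g1]
      · simp only [sub_some_none, not_or]
        rcases k2 with ⟨rfl, rfl⟩ | ⟨rfl, rfl⟩
        · exact ⟨hac, had⟩
        · exact ⟨had, hac⟩
      · simp [g3]
      · simp only [sub_some_none, not_or]
        rcases k2 with ⟨rfl, rfl⟩ | ⟨rfl, rfl⟩
        · exact ⟨hbc, hbd⟩
        · exact ⟨hbd, hbc⟩
    · exact ⟨some a, some b, some c, some d, by simp [h1, k1], by simp [h2, k2],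
        by simpa using hac, by simpa using had, by simpa using hbc, by simpa using hbd,
        by simp [g1], by simp [g2], by simp [g3], by simp [g4]⟩

/-! ### invariants are inherited by graphs containing an induced copy -/

lemma Inv4.emb {G : SimpleGraph V} {G' : SimpleGraph V'} (φ : G ↪g G') (h : Inv4 G) : Inv4 G' := by
  obtain ⟨v, f, hf, h⟩ := h
  exact ⟨φ v, fun i => φ (f i), φ.injective.comp hf, fun i => φ.map_adj_iff.2 (h i)⟩

lemma InvA.emb {G : SimpleGraph V} {G' : SimpleGraph V'} (φ : G ↪g G') (h : InvA G) : InvA G' := by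
  obtain ⟨a, b, c, h1, h2, h3, h4, h5, h6⟩ := h
  exact ⟨φ a, φ b, φ c, by simpa using h1, by simpa using h2, by simpa using h3,
    by simpa using h4, by simpa using h5, by simpa using h6⟩

lemma Inv2K2.emb {G : SimpleGraph V} {G' : SimpleGraph V'} (φ : G ↪g G') (h : Inv2K2 G) :
    Inv2K2 G' := by
  obtain ⟨a, b, c, d, h1, h2, hac, had, hbc, hbd, g1, g2, g3, g4⟩ := h
  exact ⟨φ a, φ b, φ c, φ d, by simpa using h1, by simpa using h2, by simpa using hac,
    by simpa using had, by simpa using hbc, by simpa using hbd, by simpa using g1,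
    by simpa using g2, by simpa using g3, by simpa using g4⟩

lemma InvP.emb {G : SimpleGraph V} {G' : SimpleGraph V'} (φ : G ↪g G') (h : InvP G) :
    InvP G' := by
  obtain ⟨y0, S, ⟨s0, hs0⟩, h0, h1, h2⟩ := h
  refine ⟨φ y0, φ '' S, ⟨φ s0, s0, hs0, rfl⟩, ?_, ?_, ?_⟩
  · rintro ⟨z, hz, h⟩
    rw [φ.injective h] at hz
    exact h0 hz
  · rintro _ ⟨s, hs, rfl⟩ h
    exact h1 s hs (φ.map_adj_iff.1 h)
  · rintro _ ⟨s, hs, rfl⟩
    obtain ⟨a, ha, b, hb, hab, h3, h4⟩ := h2 s hs
    exact ⟨φ a, ⟨a, ha, rfl⟩, φ b, ⟨b, hb, rfl⟩, by simpa using hab, φ.map_adj_iff.2 h3,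
      φ.map_adj_iff.2 h4⟩

lemma InvC.emb {G : SimpleGraph V} {G' : SimpleGraph V'} (φ : G ↪g G') (h : InvC G) :
    InvC G' := by
  obtain ⟨S, ⟨f, hf, hfS⟩, h2⟩ := h
  refine ⟨φ '' S, ⟨fun i => φ (f i), φ.injective.comp hf, fun i => ⟨f i, hfS i, rfl⟩⟩, ?_⟩
  rintro _ ⟨s, hs, rfl⟩
  obtain ⟨a, ha, b, hb, hab, h3, h4, h5⟩ := h2 s hs
  refine ⟨φ a, ⟨a, ha, rfl⟩, φ b, ⟨b, hb, rfl⟩, by simpa using hab, φ.map_adj_iff.2 h3,
      φ.map_adj_iff.2 h4, ?_⟩
  rintro _ ⟨z, hz, rfl⟩ h
  rcases h5 z hz (φ.map_adj_iff.1 h) with rfl | rfl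
  · exact Or.inl rfl
  · exact Or.inr rfl

lemma InvK.emb {G : SimpleGraph V} {G' : SimpleGraph V'} (φ : G ↪g G') (h : InvK G) :
    InvK G' := by
  obtain ⟨S, f, hf, hfS, h1, h2⟩ := h
  refine ⟨φ '' S, fun i => φ (f i), φ.injective.comp hf, fun i => ⟨f i, hfS i, rfl⟩, ?_, ?_⟩
  · intro i
    obtain ⟨g, hg, h⟩ := h1 i
    exact ⟨fun j => φ (g j), φ.injective.comp hg,
      fun j => ⟨⟨g j, (h j).1, rfl⟩, φ.map_adj_iff.2 (h j).2⟩⟩
  · rintro _ ⟨p, hp, rfl⟩ _ ⟨q, hq, rfl⟩ _ ⟨r, hr, rfl⟩ hpq hqr hpr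
    obtain ⟨i, hi⟩ := h2 p hp q hq r hr (φ.map_adj_iff.1 hpq) (φ.map_adj_iff.1 hqr)
      (φ.map_adj_iff.1 hpr)
    exact ⟨i, by rw [hi]⟩

/-- a general transfer principle -/
lemma IsITM.transfer {H : SimpleGraph V} {G : SimpleGraph V'} (h : IsITM H G)
    (P : ∀ {W : Type}, SimpleGraph W → Prop)
    (hemb : ∀ {W W' : Type} {X : SimpleGraph W} {X' : SimpleGraph W'}, (X ↪g X') → P X → P X')
    (hstep : ∀ {W : Type} {X : SimpleGraph W} {x y : W}, X.Adj x y → P X → P (subdivide X x y))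
    (hH : P H) : P G := by
  obtain ⟨W, X, h1, ⟨φ⟩⟩ := h
  refine hemb φ ?_
  clear φ
  induction h1 with
  | iso e => exact hemb e.toEmbedding hH
  | step h hxy ih => exact hstep hxy ih

lemma IsITM.inv4 {H : SimpleGraph V} {G : SimpleGraph V'} (h : IsITM H G) (hH : Inv4 H) : Inv4 G :=
  h.transfer Inv4 (fun φ => Inv4.emb φ) (fun _ => Inv4.step) hH

lemma IsITM.invA {H : SimpleGraph V} {G : SimpleGraph V'} (h : IsITM H G) (hH : InvA H) : InvA G :=
  h.transfer InvA (fun φ => InvA.emb φ) (fun _ => InvA.step) hH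

lemma IsITM.inv2K2 {H : SimpleGraph V} {G : SimpleGraph V'} (h : IsITM H G) (hH : Inv2K2 H) :
    Inv2K2 G :=
  h.transfer Inv2K2 (fun φ => Inv2K2.emb φ) (fun h => Inv2K2.step h) hH

lemma IsITM.invP {H : SimpleGraph V} {G : SimpleGraph V'} (h : IsITM H G) (hH : InvP H) :
    InvP G :=
  h.transfer InvP (fun φ => InvP.emb φ) (fun h => InvP.step h) hH

lemma IsITM.invC {H : SimpleGraph V} {G : SimpleGraph V'} (h : IsITM H G) (hH : InvC H) :
    InvC G :=
  h.transfer InvC (fun φ => InvC.emb φ) (fun h => InvC.step h) hH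

lemma IsITM.invK {H : SimpleGraph V} {G : SimpleGraph V'} (h : IsITM H G) (hH : InvK H) :
    InvK G :=
  h.transfer InvK (fun φ => InvK.emb φ) (fun _ => InvK.step) hH

end Pool.Agent.TH422.ITM
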