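import Pool.Agent.H175R2.Blocks
import Pool.Agent.TH422.ITM.Sub

/-! 2-connected vertex sets. -/

namespace Pool.Agent.TH422.ITM

open Finset Classical Pool.Agent.H175R2

variable {V : Type} {G : SimpleGraph V}

/-- `S` induces a 2-connected subgraph (at least three vertices) -/
def TwoC (G : SimpleGraph V) (S : Finset V) : Prop :=
  3 ≤ S.card ∧ Cn G S ∧ ∀ v ∈ S, Cn G (S.erase v)

/-- `w` has exactly the two neighbours `a`, `b` in `S` -/
def Nb2 (G : SimpleGraph V) (S : Finset V) (w a b : V) : Prop :=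
  a ∈ S ∧ b ∈ S ∧ a ≠ b ∧ ∀ z ∈ S, G.Adj w z ↔ z = a ∨ z = b

/-- a vertex of degree two with nonadjacent neighbours -/
def Bad (G : SimpleGraph V) (S : Finset V) (w a b : V) : Prop :=
  w ∈ S ∧ Nb2 G S w a b ∧ ¬ G.Adj a b

def NoBad (G : SimpleGraph V) (S : Finset V) : Prop := ∀ w a b, ¬ Bad G S w a b

/-- 2-regular -/
def Reg2 (G : SimpleGraph V) (S : Finset V) : Prop := ∀ w ∈ S, ∃ a b, Nb2 G S w a b

lemma Nb2.symm {S : Finset V} {w a b : V} (h : Nb2 G S w a b) : Nb2 G S w b a :=
  ⟨h.2.1, h.1, h.2.2.1.symm, fun z hz => (h.2.2.2 z hz).trans or_comm⟩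

lemma Bad.symm {S : Finset V} {w a b : V} (h : Bad G S w a b) : Bad G S w b a :=
  ⟨h.1, h.2.1.symm, fun h' => h.2.2 h'.symm⟩

lemma edge_adj' {a b : V} (hab : a ≠ b) (p q : V) :
    (G ⊔ SimpleGraph.edge a b).Adj p q ↔ G.Adj p q ∨ (p = a ∧ q = b) ∨ (p = b ∧ q = a) := by
  rw [SimpleGraph.sup_adj, SimpleGraph.edge_adj]
  constructor
  · tauto
  · rintro (h | h)
    · exact Or.inl h
    · right
      refine ⟨by tauto, ?_⟩
      rcases h with ⟨rfl, rfl⟩ | ⟨rfl, rfl⟩
      · exact hab
      · exact hab.symm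

lemma cn_of_core {Q X : Finset V} (hQ : Cn G Q) (hQX : Q ⊆ X)
    (h : ∀ T ⊆ X, T.Nonempty → Disjoint T Q → ∃ x ∈ T, ∃ y ∈ X \ T, G.Adj x y) : Cn G X := by
  refine ⟨hQ.1.mono hQX, fun T hT hn hn' => ?_⟩
  by_cases h1 : Disjoint T Q
  · exact h T hT hn h1
  by_cases h2 : Disjoint (X \ T) Q
  · obtain ⟨x, hx, y, hy, hxy⟩ := h (X \ T) sdiff_subset hn' h2
    refine ⟨y, ?_, x, hx, hxy.symm⟩
    grind
  · rw [not_disjoint_iff] at h1 h2
    obtain ⟨p, hp, hp'⟩ := h1
    obtain ⟨q, hq, hq'⟩ := h2
    obtain ⟨x, hx, y, hy, hxy⟩ := hQ.2 (Q ∩ T) inter_subset_left ⟨p, by grind⟩ ⟨q, by grind⟩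
    exact ⟨x, by grind, y, by grind, hxy⟩

lemma Cn.mono_graph {G' : SimpleGraph V} (h : G ≤ G') {X : Finset V} (hX : Cn G X) : Cn G' X := by
  refine ⟨hX.1, fun T hT hn hn' => ?_⟩
  obtain ⟨x, hx, y, hy, hxy⟩ := hX.2 T hT hn hn'
  exact ⟨x, hx, y, hy, h hxy⟩

lemma cn_pendant {X : Finset V} {w b : V} (hX : Cn G X) (hw : w ∈ X)
    (hN : ∀ z ∈ X, G.Adj w z → z = b) (hne : (X.erase w).Nonempty) : Cn G (X.erase w) := by
  refine ⟨hne, fun T hT hn hn' => ?_⟩
  by_cases hb : b ∈ T
  · obtain ⟨x, hx, y, hy, hxy⟩ := hX.2 (insert w T) (by grind) (by simp) (by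
      obtain ⟨z, hz⟩ := hn'
      exact ⟨z, by grind⟩)
    rcases mem_insert.1 hx with rfl | hx
    · have := hN y (by grind) hxy
      subst this
      grind
    · exact ⟨x, hx, y, by grind, hxy⟩
  · obtain ⟨x, hx, y, hy, hxy⟩ := hX.2 T (by grind) hn ⟨w, by grind⟩
    by_cases hyw : y = w
    · subst hyw
      have := hN x (by grind) hxy.symm
      subst this
      exact absurd hx hb
    · exact ⟨x, hx, y, by grind, hxy⟩

lemma cn_dissolve {X : Finset V} {w a b : V} (hX : Cn G X) (hw : w ∈ X) (ha : a ∈ X) (hb : b ∈ X)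
    (hab : a ≠ b) (haw : a ≠ w) (hbw : b ≠ w)
    (hN : ∀ z ∈ X, G.Adj w z → z = a ∨ z = b) :
    Cn (G ⊔ SimpleGraph.edge a b) (X.erase w) := by
  refine ⟨⟨a, by grind⟩, fun T hT hn hn' => ?_⟩
  by_cases haT : a ∈ T
  · obtain ⟨x, hx, y, hy, hxy⟩ := hX.2 (insert w T) (by grind) (by simp) (by
      obtain ⟨z, hz⟩ := hn'
      exact ⟨z, by grind⟩)
    rcases mem_insert.1 hx with rfl | hx
    · rcases hN y (by grind) hxy with rfl | rfl
      · grind
      · exact ⟨a, haT, y, by grind, (edge_adj' hab _ _).2 (Or.inr (Or.inl ⟨rfl, rfl⟩))⟩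
    · exact ⟨x, hx, y, by grind, (edge_adj' hab _ _).2 (Or.inl hxy)⟩
  · obtain ⟨x, hx, y, hy, hxy⟩ := hX.2 T (by grind) hn ⟨w, by grind⟩
    by_cases hyw : y = w
    · subst hyw
      rcases hN x (by grind) hxy.symm with rfl | rfl
      · exact absurd hx haT
      · exact ⟨x, hx, a, by grind, (edge_adj' hab _ _).2 (Or.inr (Or.inr ⟨rfl, rfl⟩))⟩
    · exact ⟨x, hx, y, by grind, (edge_adj' hab _ _).2 (Or.inl hxy)⟩

lemma Bad.ne {S : Finset V} {w a b : V} (h : Bad G S w a b) : a ≠ w ∧ b ≠ w := by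
  constructor
  · rintro rfl
    exact ((h.2.1.2.2.2 a h.2.1.1).2 (Or.inl rfl)).ne rfl
  · rintro rfl
    exact ((h.2.1.2.2.2 b h.2.1.2.1).2 (Or.inr rfl)).ne rfl

lemma TwoC.dissolve {S : Finset V} {w a b : V} (hS : TwoC G S) (h4 : 4 ≤ S.card)
    (hb : Bad G S w a b) : TwoC (G ⊔ SimpleGraph.edge a b) (S.erase w) := by
  obtain ⟨h3, hc, hcc⟩ := hS
  obtain ⟨haw, hbw⟩ := hb.ne
  obtain ⟨hw, ⟨ha, hb', hab, hN⟩, hn⟩ := hb
  have hcard : (S.erase w).card = S.card - 1 := card_erase_of_mem hw
  refine ⟨by omega, cn_dissolve hc hw ha hb' hab haw hbw (fun z hz => (hN z hz).1), ?_⟩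
  intro v hv
  have hvS : v ∈ S := mem_of_mem_erase hv
  have hvw : v ≠ w := (mem_erase.1 hv).1
  have e : (S.erase w).erase v = (S.erase v).erase w := erase_right_comm
  rw [e]
  have hne : ((S.erase v).erase w).Nonempty := by
    rw [← e, ← card_pos, card_erase_of_mem hv]
    omega
  by_cases hva : v = a
  · subst hva
    refine Cn.mono_graph le_sup_left (cn_pendant (b := b) (hcc v hvS) (by grind) ?_ hne)
    intro z hz hwz
    rcases (hN z (mem_of_mem_erase hz)).1 hwz with rfl | rfl
    · exact absurd rfl (mem_erase.1 hz).1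
    · rfl
  by_cases hvb : v = b
  · subst hvb
    refine Cn.mono_graph le_sup_left (cn_pendant (b := a) (hcc v hvS) (by grind) ?_ hne)
    intro z hz hwz
    rcases (hN z (mem_of_mem_erase hz)).1 hwz with rfl | rfl
    · rfl
    · exact absurd rfl (mem_erase.1 hz).1
  · exact cn_dissolve (hcc v hvS) (by grind) (by grind) (by grind) hab haw hbw
      (fun z hz => (hN z (mem_of_mem_erase hz)).1)

lemma Reg2.of_dissolve {S : Finset V} {w a b : V} (hb : Bad G S w a b)
    (h : Reg2 (G ⊔ SimpleGraph.edge a b) (S.erase w)) : Reg2 G S := by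
  have key : ∀ a b : V, Bad G S w a b → Reg2 (G ⊔ SimpleGraph.edge a b) (S.erase w) →
      ∃ p q, Nb2 G S a p q := by
    intro a b hb h
    obtain ⟨haw, hbw⟩ := hb.ne
    obtain ⟨hw, ⟨ha, hb', hab, hN⟩, hn⟩ := hb
    obtain ⟨p, q, hp, hq, hpq, hpN⟩ := h a (by grind)
    have k1 := (hpN b (by grind)).1 ((edge_adj' hab _ _).2 (Or.inr (Or.inl ⟨rfl, rfl⟩)))
    have k2 : ∀ z ∈ S, z ≠ w → (G.Adj a z ↔ (z = p ∨ z = q) ∧ z ≠ b) := by
      intro z hz hzw
      rw [← hpN z (by grind), edge_adj' hab]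
      constructor
      · intro h
        exact ⟨Or.inl h, fun h' => hn (h' ▸ h)⟩
      · rintro ⟨h | ⟨h, h'⟩ | ⟨h, h'⟩, h''⟩
        · exact h
        · exact absurd h' h''
        · exact absurd h hab
    have k3 : G.Adj a w := ((hN a ha).2 (Or.inl rfl)).symm
    rcases k1 with rfl | rfl
    · refine ⟨w, q, hw, by grind, by grind, fun z hz => ?_⟩
      by_cases hzw : z = w
      · subst hzw; simp [k3]
      · rw [k2 z hz hzw]; grind
    · refine ⟨w, p, hw, by grind, by grind, fun z hz => ?_⟩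
      by_cases hzw : z = w
      · subst hzw; simp [k3]
      · rw [k2 z hz hzw]; grind
  intro x hx
  by_cases hxw : x = w
  · subst hxw; exact ⟨a, b, hb.2.1⟩
  by_cases hxa : x = a
  · subst hxa; exact key x b hb h
  by_cases hxb : x = b
  · subst hxb
    refine key x a hb.symm ?_
    rwa [SimpleGraph.edge_comm]
  · obtain ⟨hw, ⟨ha, hb', hab, hN⟩, hn⟩ := hb
    obtain ⟨p, q, hp, hq, hpq, hpN⟩ := h x (by grind)
    refine ⟨p, q, by grind, by grind, hpq, fun z hz => ?_⟩
    by_cases hzw : z = w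
    · subst hzw
      have : ¬ G.Adj x z := by
        intro h
        have := (hN x hx).1 h.symm
        tauto
      constructor
      · intro h; exact absurd h this
      · rintro (rfl | rfl)
        · exact absurd rfl (mem_erase.1 hp).1
        · exact absurd rfl (mem_erase.1 hq).1
    · rw [← hpN z (by grind), edge_adj' hab]
      tauto

/-- in a connected 2-regular graph with a triangle all vertices are adjacent -/
lemma Reg2.complete {T : Finset V} (hT : Cn G T) (h : Reg2 G T) {d a b : V} (hd : d ∈ T)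
    (hN : Nb2 G T d a b) (hab : G.Adj a b) : ∀ x ∈ T, ∀ y ∈ T, x ≠ y → G.Adj x y := by
  obtain ⟨ha, hb, hne, hN⟩ := hN
  have hda : G.Adj d a := (hN a ha).2 (Or.inl rfl)
  have hdb : G.Adj d b := (hN b hb).2 (Or.inr rfl)
  have cl : ∀ u v w : V, u ∈ T → v ∈ T → w ∈ T → G.Adj u v → G.Adj u w → v ≠ w →
      ∀ z ∈ T, G.Adj u z → z = v ∨ z = w := by
    intro u v w hu hv hw huv huw hvw z hz huz
    obtain ⟨p, q, hp, hq, hpq, hpN⟩ := h u hu
    have e1 := (hpN v hv).1 huv
    have e2 := (hpN w hw).1 huw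
    have e3 := (hpN z hz).1 huz
    grind
  have hall : T = {d, a, b} := by
    by_contra hcon
    have hsub : ({d, a, b} : Finset V) ⊆ T := by
      intro z hz
      simp only [mem_insert, mem_singleton] at hz
      rcases hz with rfl | rfl | rfl <;> assumption
    obtain ⟨x, hx, y, hy, hxy⟩ := hT.2 {d, a, b} hsub (by simp) (by
      rw [sdiff_nonempty]
      intro h'
      exact hcon (subset_antisymm h' hsub))
    simp only [mem_insert, mem_singleton, mem_sdiff, not_or] at hx hy
    rcases hx with rfl | rfl | rfl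
    · rcases cl x a b hd ha hb hda hdb hne y hy.1 hxy with h | h
      · exact hy.2.2.1 h
      · exact hy.2.2.2 h
    · rcases cl x d b ha hd hb hda.symm hab hdb.ne y hy.1 hxy with h | h
      · exact hy.2.1 h
      · exact hy.2.2.2 h
    · rcases cl x d a hb hd ha hdb.symm hab.symm hda.ne y hy.1 hxy with h | h
      · exact hy.2.1 h
      · exact hy.2.2.1 h
  intro x hx y hy hxy
  rw [hall] at hx hy
  simp only [mem_insert, mem_singleton] at hx hy
  rcases hx with rfl | rfl | rfl <;> rcases hy with rfl | rfl | rfl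
  · exact absurd rfl hxy
  · exact hda
  · exact hdb
  · exact hda.symm
  · exact absurd rfl hxy
  · exact hab
  · exact hdb.symm
  · exact hab.symm
  · exact absurd rfl hxy

/-- minimal connected sets touching `p` and `q` -/
def Mn (G : SimpleGraph V) (p q : V) (K : Finset V) : Prop :=
  Cn G K ∧ Tc G {p} K ∧ Tc G {q} K ∧
    ∀ K' ⊆ K, Cn G K' → Tc G {p} K' → Tc G {q} K' → K' = K

lemma exists_mn {p q : V} {D : Finset V} (h1 : Cn G D) (h2 : Tc G {p} D) (h3 : Tc G {q} D) :
    ∃ K ⊆ D, Mn G p q K := by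
  obtain ⟨K, hK⟩ := (D.powerset.filter (fun K => Cn G K ∧ Tc G {p} K ∧ Tc G {q} K)).exists_minimal
    ⟨D, by simp [h1, h2, h3]⟩
  have hK1 := hK.prop
  simp only [mem_filter, mem_powerset] at hK1
  refine ⟨K, hK1.1, hK1.2.1, hK1.2.2.1, hK1.2.2.2, fun K' hK' c1 c2 c3 => ?_⟩
  have := hK.le_of_le (y := K') (by
    simp only [mem_filter, mem_powerset]
    exact ⟨hK'.trans hK1.1, c1, c2, c3⟩) hK'
  exact subset_antisymm hK' this

lemma tc_single {p : V} {K : Finset V} : Tc G {p} K ↔ ∃ k ∈ K, G.Adj p k := by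
  simp [Tc]

lemma Mn.step {p q k : V} {K : Finset V} (h : Mn G p q K) (hk : k ∈ K) (hpk : G.Adj p k) :
    (∀ k' ∈ K, G.Adj p k' → k' = k) ∧
      ((K = {k} ∧ G.Adj q k) ∨ (¬ G.Adj q k ∧ ∃ K1, k ∉ K1 ∧ K = insert k K1 ∧ Cn G K1 ∧
        Tc G {k} K1 ∧ Tc G {q} K1 ∧ ¬ Tc G {p} K1)) := by
  obtain ⟨h1, h2, h3, h4⟩ := h
  by_cases hkq : G.Adj q k
  · have : ({k} : Finset V) = K := h4 {k} (by simpa using hk) (Cn.singleton k)
      (tc_single.2 ⟨k, by simp, hpk⟩) (tc_single.2 ⟨k, by simp, hkq⟩)
    refine ⟨fun k' hk' _ => ?_, Or.inl ⟨this.symm, hkq⟩⟩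
    rw [← this] at hk'
    simpa using hk'
  · obtain ⟨y, hy, hqy⟩ := tc_single.1 h3
    have hyk : y ≠ k := by rintro rfl; exact hkq hqy
    have hyE : y ∈ K.erase k := by grind
    set K1 := cpt G (K.erase k) y with hK1
    have hK1s : K1 ⊆ K.erase k := cpt_subset
    have hkK1 : k ∉ K1 := fun h => (mem_erase.1 (hK1s h)).1 rfl
    have hK1c : Cn G K1 := cn_cpt hyE
    have hyK1 : y ∈ K1 := mem_cpt_self hyE
    -- `K1` touches `k`
    have ht : Tc G {k} K1 := by
      obtain ⟨x, hx, z, hz, hxz⟩ := h1.2 K1 (hK1s.trans (erase_subset _ _)) hK1c.1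
        ⟨k, by grind⟩
      by_cases hzk : z = k
      · subst hzk; exact tc_single.2 ⟨x, hx, hxz.symm⟩
      · exact absurd hxz (not_adj_cpt hyE hx (by grind) (by grind))
    have hins : insert k K1 = K := by
      apply h4
      · intro z hz
        rcases mem_insert.1 hz with rfl | hz
        · exact hk
        · exact mem_of_mem_erase (hK1s hz)
      · rw [Finset.insert_eq]
        exact (Cn.singleton k).union hK1c (Or.inl ht)
      · exact tc_single.2 ⟨k, by simp, hpk⟩
      · exact tc_single.2 ⟨y, by simp [hyK1], hqy⟩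
    have hnt : ¬ Tc G {p} K1 := by
      intro hp
      have := h4 K1 (hK1s.trans (erase_subset _ _)) hK1c hp (tc_single.2 ⟨y, hyK1, hqy⟩)
      exact hkK1 (this ▸ hk)
    refine ⟨fun k' hk' hpk' => ?_, Or.inr ⟨hkq, K1, hkK1, hins.symm, hK1c, ht,
      tc_single.2 ⟨y, hyK1, hqy⟩, hnt⟩⟩
    by_contra hne
    exact hnt (tc_single.2 ⟨k', by rw [← hins] at hk'; grind, hpk'⟩)

/-- a minimal connecting set contains a vertex of degree two -/
lemma Mn.exists_nb2 {v c : V} {R : Finset V} (h : Mn G v c R) (hv : v ∉ R) (hc : c ∉ R)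
    (hvc : v ≠ c) (hn : ¬ G.Adj v c) :
    ∃ r ∈ R, ∃ k, ¬ G.Adj v k ∧ Nb2 G (insert v (insert c R)) r v k := by
  obtain ⟨r, hr, hvr⟩ := tc_single.1 h.2.1
  obtain ⟨h1, h2⟩ := h.step hr hvr
  rcases h2 with ⟨hR, hcr⟩ | ⟨hcr, K1, hrK1, hR, hK1c, ht, htc, hnt⟩
  · refine ⟨r, hr, c, hn, by simp, by simp, hvc, fun z hz => ?_⟩
    rw [hR] at hz
    simp only [mem_insert, mem_singleton] at hz
    constructor
    · intro hrz
      rcases hz with rfl | rfl | rfl
      · exact Or.inl rfl
      · exact Or.inr rfl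
      · exact absurd rfl hrz.ne
    · rintro (rfl | rfl)
      · exact hvr.symm
      · exact hcr.symm
  · -- a minimal set in `K1` touching `r` and `c`
    obtain ⟨K, hK, hM⟩ := exists_mn hK1c ht htc
    have hRK : insert r K = R := by
      apply h.2.2.2
      · rw [hR]; exact insert_subset_insert _ hK
      · rw [Finset.insert_eq]
        exact (Cn.singleton r).union hM.1 (Or.inl hM.2.1)
      · exact tc_single.2 ⟨r, by simp, hvr⟩
      · exact hM.2.2.1.mono (Subset.refl _) (subset_insert _ _)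
    obtain ⟨k, hk, hrk⟩ := tc_single.1 hM.2.1
    obtain ⟨h3, _⟩ := hM.step hk hrk
    have hkr : k ≠ r := fun h => hrK1 (h ▸ hK hk)
    have hkR : k ∈ R := by rw [← hRK]; exact mem_insert_of_mem hk
    have hkv : k ≠ v := fun h => hv (h ▸ hkR)
    refine ⟨r, hr, k, fun hvk => hkr (h1 k hkR hvk), by simp, ?_, hkv.symm, fun z hz => ?_⟩
    · exact mem_insert_of_mem (mem_insert_of_mem hkR)
    · simp only [mem_insert] at hz
      constructor
      · intro hrz
        rcases hz with rfl | rfl | hz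
        · exact Or.inl rfl
        · exact absurd hrz.symm hcr
        · right
          rw [← hRK, mem_insert] at hz
          rcases hz with rfl | hz
          · exact absurd rfl hrz.ne
          · exact h3 z hz hrz
      · rintro (rfl | rfl)
        · exact hvr.symm
        · exact hrk

section sep

variable {S : Finset V} {v c x : V}

lemma sep_touch (hS : TwoC G S) (hv : v ∈ S) (hc : c ∈ S) (hvc : v ≠ c)
    (hx : x ∈ (S.erase v).erase c) :
    Tc G {v} (cpt G ((S.erase v).erase c) x) ∧ Tc G {c} (cpt G ((S.erase v).erase c) x) := by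
  set U := (S.erase v).erase c with hU
  set D := cpt G U x with hD
  have hDU : D ⊆ U := cpt_subset
  have hDn : D.Nonempty := ⟨x, mem_cpt_self hx⟩
  constructor
  · obtain ⟨a, ha, b, hb, hab⟩ := (hS.2.2 c hc).2 D (by
      intro z hz; have := hDU hz; grind) hDn ⟨v, by grind⟩
    by_cases hbv : b = v
    · subst hbv; exact tc_single.2 ⟨a, ha, hab.symm⟩
    · exact absurd hab (not_adj_cpt hx ha (by grind) (by grind))
  · obtain ⟨a, ha, b, hb, hab⟩ := (hS.2.2 v hv).2 D (by
      intro z hz; have := hDU hz; grind) hDn ⟨c, by grind⟩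
    by_cases hbc : b = c
    · subst hbc; exact tc_single.2 ⟨a, ha, hab.symm⟩
    · exact absurd hab (not_adj_cpt hx ha (by grind) (by grind))

/-- neighbours of a component -/
lemma sep_nb (hx : x ∈ (S.erase v).erase c) {d z : V} (hd : d ∈ cpt G ((S.erase v).erase c) x)
    (hz : z ∈ S) (hdz : G.Adj d z) : z = v ∨ z = c ∨ z ∈ cpt G ((S.erase v).erase c) x := by
  by_contra hcon
  push Not at hcon
  exact not_adj_cpt hx hd (by grind) hcon.2.2 hdz

lemma sep_core (hS : TwoC G S) (hv : v ∈ S) (hc : c ∈ S) (hx : x ∈ (S.erase v).erase c)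
    {Q : Finset V} (hQ : Cn G Q) (hvQ : v ∈ Q) (hcQ : c ∈ Q)
    (hQD : Disjoint Q (cpt G ((S.erase v).erase c) x)) {d : V}
    (hd : d ∈ cpt G ((S.erase v).erase c) x) :
    Cn G ((cpt G ((S.erase v).erase c) x ∪ Q).erase d) := by
  have hDU : cpt G ((S.erase v).erase c) x ⊆ (S.erase v).erase c := cpt_subset
  have hdS := hDU hd
  refine cn_of_core hQ ?_ ?_
  · intro z hz
    have : z ≠ d := fun h => (disjoint_left.1 hQD) hz (h ▸ hd)
    grind
  · intro T hT hn hTQ
    obtain ⟨a, ha, b, hb, hab⟩ := (hS.2.2 d (by grind)).2 T (by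
      intro z hz
      have h1 := hT hz
      have h2 : z ∉ Q := (disjoint_left.1 hTQ) hz
      rw [mem_erase, mem_union] at h1
      have h3 := h1.2.resolve_right h2
      have := hDU h3
      grind) hn ⟨v, by
        have : v ∉ T := fun h => (disjoint_left.1 hTQ) h hvQ
        grind⟩
    refine ⟨a, ha, b, ?_, hab⟩
    have haD : a ∈ cpt G ((S.erase v).erase c) x := by
      have h1 := hT ha
      rw [mem_erase, mem_union] at h1
      exact h1.2.resolve_right ((disjoint_left.1 hTQ) ha)
    rcases sep_nb hx haD (z := b) (by grind) hab with rfl | rfl | h <;> grind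

lemma sep_two_adj (hS : TwoC G S) (hv : v ∈ S) (hc : c ∈ S) (hvc : v ≠ c) (h : G.Adj v c)
    (hx : x ∈ (S.erase v).erase c) :
    TwoC G (insert v (insert c (cpt G ((S.erase v).erase c) x))) := by
  have ht := sep_touch hS hv hc hvc hx
  have hDU : cpt G ((S.erase v).erase c) x ⊆ (S.erase v).erase c := cpt_subset
  have hxD : x ∈ cpt G ((S.erase v).erase c) x := mem_cpt_self hx
  have hDc : Cn G (cpt G ((S.erase v).erase c) x) := cn_cpt hx
  set D := cpt G ((S.erase v).erase c) x with hD
  have hvD : v ∉ D := fun h => by have := hDU h; grind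
  have hcD : c ∉ D := fun h => by have := hDU h; grind
  have hQ : Cn G {v, c} := by
    rw [Finset.insert_eq]
    exact (Cn.singleton v).union (Cn.singleton c) (Or.inl (tc_single.2 ⟨c, by simp, h⟩))
  have e : insert v (insert c D) = D ∪ {v, c} := by
    ext z; simp only [mem_insert, mem_union, mem_singleton]; tauto
  have hcv : Cn G (insert c D) := by
    rw [Finset.insert_eq]; exact (Cn.singleton c).union hDc (Or.inl ht.2)
  have hvv : Cn G (insert v D) := by
    rw [Finset.insert_eq]; exact (Cn.singleton v).union hDc (Or.inl ht.1)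
  refine ⟨?_, ?_, ?_⟩
  · rw [card_insert_of_notMem (by grind), card_insert_of_notMem hcD]
    have := card_pos.2 hDc.1
    omega
  · rw [Finset.insert_eq]
    exact (Cn.singleton v).union hcv (Or.inl (ht.1.mono (Subset.refl _) (subset_insert _ _)))
  · intro z hz
    rw [mem_insert, mem_insert] at hz
    rcases hz with rfl | rfl | hz
    · rw [erase_insert (by grind)]; exact hcv
    · have : (insert v (insert z D)).erase z = insert v D := by
        ext y; simp only [mem_erase, mem_insert]; grind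
      rw [this]; exact hvv
    · rw [e]
      refine sep_core hS hv hc hx hQ (by simp) (by simp) ?_ hz
      rw [disjoint_left]
      intro y hy
      simp only [mem_insert, mem_singleton] at hy
      rcases hy with rfl | rfl
      · exact hvD
      · exact hcD

lemma sep_two_path (hS : TwoC G S) (hv : v ∈ S) (hc : c ∈ S) (hvc : v ≠ c)
    (hx : x ∈ (S.erase v).erase c) {R : Finset V} (hR : Mn G v c R) (hvR : v ∉ R) (hcR : c ∉ R)
    (hRD : Disjoint R (cpt G ((S.erase v).erase c) x)) :
    TwoC G (insert v (insert c (cpt G ((S.erase v).erase c) x)) ∪ R) := by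
  have ht := sep_touch hS hv hc hvc hx
  have hDU : cpt G ((S.erase v).erase c) x ⊆ (S.erase v).erase c := cpt_subset
  have hxD : x ∈ cpt G ((S.erase v).erase c) x := mem_cpt_self hx
  have hDc : Cn G (cpt G ((S.erase v).erase c) x) := cn_cpt hx
  set D := cpt G ((S.erase v).erase c) x with hD
  have hvD : v ∉ D := fun h => by have := hDU h; grind
  have hcD : c ∉ D := fun h => by have := hDU h; grind
  have hcDc : Cn G (insert c D) := by
    rw [Finset.insert_eq]; exact (Cn.singleton c).union hDc (Or.inl ht.2)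
  have hvDc : Cn G (insert v D) := by
    rw [Finset.insert_eq]; exact (Cn.singleton v).union hDc (Or.inl ht.1)
  have hvcD : Cn G (insert v (insert c D)) := by
    rw [Finset.insert_eq]
    exact (Cn.singleton v).union hcDc (Or.inl (ht.1.mono (Subset.refl _) (subset_insert _ _)))
  obtain ⟨hRc, hRv, hRc', hRm⟩ := hR
  refine ⟨?_, ?_, ?_⟩
  · have : 3 ≤ (insert v (insert c D)).card := by
      rw [card_insert_of_notMem (by grind), card_insert_of_notMem hcD]
      have := card_pos.2 hDc.1
      omega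
    exact this.trans (card_le_card subset_union_left)
  · exact hvcD.union hRc (Or.inl (hRv.mono (by simp) (Subset.refl _)))
  · intro z hz
    rw [mem_union, mem_insert, mem_insert] at hz
    rcases hz with (rfl | rfl | hz) | hz
    · have : (insert z (insert c D) ∪ R).erase z = insert c D ∪ R := by
        ext y; simp only [mem_erase, mem_insert, mem_union]; grind
      rw [this]
      exact hcDc.union hRc (Or.inl (hRc'.mono (by simp) (Subset.refl _)))
    · have : (insert v (insert z D) ∪ R).erase z = insert v D ∪ R := by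
        ext y; simp only [mem_erase, mem_insert, mem_union]; grind
      rw [this]
      exact hvDc.union hRc (Or.inl (hRv.mono (by simp) (Subset.refl _)))
    · have : insert v (insert c D) ∪ R = D ∪ (insert v (insert c R)) := by
        ext y; simp only [mem_insert, mem_union]; grind
      rw [this]
      refine sep_core hS hv hc hx ?_ (by simp) (by simp) ?_ hz
      · have : Cn G (insert c R) := by
          rw [Finset.insert_eq]; exact (Cn.singleton c).union hRc (Or.inl hRc')
        rw [Finset.insert_eq]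
        exact (Cn.singleton v).union this (Or.inl (hRv.mono (Subset.refl _) (subset_insert _ _)))
      · rw [disjoint_left]
        intro y hy
        simp only [mem_insert] at hy
        rcases hy with rfl | rfl | hy
        · exact hvD
        · exact hcD
        · exact (disjoint_left.1 hRD) hy
    · -- erase a vertex of `R`
      have hzn : z ∉ insert v (insert c D) := by
        rw [mem_insert, mem_insert]
        rintro (rfl | rfl | h)
        · exact hvR hz
        · exact hcR hz
        · exact (disjoint_left.1 hRD) hz h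
      refine cn_of_core hvcD ?_ ?_
      · intro y hy
        have : y ≠ z := fun h => hzn (h ▸ hy)
        grind
      · intro T hT hn hTQ
        by_contra hcon
        push Not at hcon
        have hTR : ∀ t ∈ T, t ∈ R ∧ t ≠ z := by
          intro t ht
          have h1 := hT ht
          rw [mem_erase, mem_union] at h1
          exact ⟨h1.2.resolve_left ((disjoint_left.1 hTQ) ht), h1.1⟩
        have hvT : v ∉ T := fun h => hvR (hTR v h).1
        have hcT : c ∉ T := fun h => hcR (hTR c h).1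
        have hzT : z ∉ T := fun h => (hTR z h).2 rfl
        have hvz : v ≠ z := fun h => hvR (h ▸ hz)
        have hcz : c ≠ z := fun h => hcR (h ▸ hz)
        -- T only attaches to z
        have hTz : ∀ t ∈ T, ∀ y ∈ R \ T, G.Adj t y → y = z := by
          intro t ht y hy hty
          by_contra hyz
          exact hcon t ht y (by grind) hty
        have hR' : Cn G (R \ T) := by
          refine ⟨⟨z, by grind⟩, fun P hP hPn hPn' => ?_⟩
          by_cases hzP : z ∈ P
          · obtain ⟨a, ha, b, hb, hab⟩ := hRc.2 (P ∪ T) (by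
              intro y hy
              rcases mem_union.1 hy with h | h
              · exact (mem_sdiff.1 (hP h)).1
              · exact (hTR y h).1) (hPn.mono subset_union_left) (by
                obtain ⟨y, hy⟩ := hPn'
                exact ⟨y, by grind⟩)
            rcases mem_union.1 ha with h | h
            · exact ⟨a, h, b, by grind, hab⟩
            · have := hTz a h b (by grind) hab
              subst this
              grind
          · obtain ⟨a, ha, b, hb, hab⟩ := hRc.2 P (by
              intro y hy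
              exact (mem_sdiff.1 (hP hy)).1) hPn ⟨z, by grind⟩
            by_cases hbT : b ∈ T
            · have := hTz b hbT a (hP ha) hab.symm
              subst this
              exact absurd ha hzP
            · exact ⟨a, ha, b, by grind, hab⟩
        have hv' : Tc G {v} (R \ T) := by
          obtain ⟨k, hk, hvk⟩ := tc_single.1 hRv
          refine tc_single.2 ⟨k, ?_, hvk⟩
          rw [mem_sdiff]
          refine ⟨hk, fun hkT => hcon k hkT v ?_ hvk.symm⟩
          rw [mem_sdiff, mem_erase]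
          exact ⟨⟨hvz, by simp⟩, hvT⟩
        have hc' : Tc G {c} (R \ T) := by
          obtain ⟨k, hk, hvk⟩ := tc_single.1 hRc'
          refine tc_single.2 ⟨k, ?_, hvk⟩
          rw [mem_sdiff]
          refine ⟨hk, fun hkT => hcon k hkT c ?_ hvk.symm⟩
          rw [mem_sdiff, mem_erase]
          exact ⟨⟨hcz, by simp⟩, hcT⟩
        have := hRm (R \ T) sdiff_subset hR' hv' hc'
        obtain ⟨t, ht⟩ := hn
        have h1 := (hTR t ht).1
        rw [← this] at h1
        exact (mem_sdiff.1 h1).2 ht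

end sep

/-- the trichotomy for 2-connected sets without bad vertices -/
theorem tri {S : Finset V} (hS : TwoC G S) (h4 : 4 ≤ S.card) (hb : NoBad G S) :
    (∀ x ∈ S, TwoC G (S.erase x)) ∨
    (∃ v ∈ S, ∃ c ∈ S, v ≠ c ∧ G.Adj v c ∧ ∃ x1 ∈ (S.erase v).erase c,
      ∃ x2 ∈ (S.erase v).erase c, x2 ∉ cpt G ((S.erase v).erase c) x1) ∨
    (∃ v ∈ S, ∃ c ∈ S, v ≠ c ∧ ¬ G.Adj v c ∧ ∃ x ∈ (S.erase v).erase c,
      ∃ r ∈ (S.erase v).erase c, r ∉ cpt G ((S.erase v).erase c) x ∧
      ∃ S1 ⊆ S, S1 ≠ S ∧ TwoC G S1 ∧ r ∈ S1 ∧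
        insert v (insert c (cpt G ((S.erase v).erase c) x)) ⊆ S1) := by
  by_cases h : ∀ x ∈ S, ∀ y ∈ S.erase x, Cn G ((S.erase x).erase y)
  · left
    intro x hx
    exact ⟨by rw [card_erase_of_mem hx]; omega, hS.2.2 x hx, h x hx⟩
  right
  push Not at h
  obtain ⟨v, hv, c, hc, hn⟩ := h
  have hcS : c ∈ S := mem_of_mem_erase hc
  have hvc : v ≠ c := fun h => (mem_erase.1 hc).1 h.symm
  have hUn : ((S.erase v).erase c).Nonempty := by
    rw [← card_pos, card_erase_of_mem hc, card_erase_of_mem hv]; omega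
  obtain ⟨x1, hx1⟩ := hUn
  have hne : cpt G ((S.erase v).erase c) x1 ≠ (S.erase v).erase c :=
    fun h => hn (cn_of_cpt_eq hx1 h)
  obtain ⟨x2, hx2, hx2'⟩ : ∃ x2 ∈ (S.erase v).erase c, x2 ∉ cpt G ((S.erase v).erase c) x1 := by
    by_contra hcon
    push Not at hcon
    exact hne (subset_antisymm cpt_subset hcon)
  by_cases hadj : G.Adj v c
  · exact Or.inl ⟨v, hv, c, hcS, hvc, hadj, x1, hx1, x2, hx2, hx2'⟩
  right
  have hD2 := sep_touch hS hv hcS hvc hx2
  obtain ⟨R, hRs, hR⟩ := exists_mn (cn_cpt hx2) hD2.1 hD2.2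
  have hRU : R ⊆ (S.erase v).erase c := hRs.trans cpt_subset
  have hvR : v ∉ R := fun h => by have := hRU h; grind
  have hcR : c ∉ R := fun h => by have := hRU h; grind
  have hdis : ∀ r ∈ R, r ∉ cpt G ((S.erase v).erase c) x1 := by
    intro r hr hr'
    have e1 := cpt_eq_of_mem hx1 hr'
    have e2 := cpt_eq_of_mem hx2 (hRs hr)
    apply hx2'
    rw [← e1, e2]
    exact mem_cpt_self hx2
  have hRD : Disjoint R (cpt G ((S.erase v).erase c) x1) := disjoint_left.2 hdis
  obtain ⟨r0, hr0⟩ := hR.1.1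
  have hsub : insert v (insert c (cpt G ((S.erase v).erase c) x1)) ∪ R ⊆ S := by
    intro z hz
    rw [mem_union, mem_insert, mem_insert] at hz
    rcases hz with (rfl | rfl | hz) | hz
    · exact hv
    · exact hcS
    · have := cpt_subset (G := G) hz; grind
    · have := hRU hz; grind
  refine ⟨v, hv, c, hcS, hvc, hadj, x1, hx1, r0, hRU hr0, hdis r0 hr0,
    insert v (insert c (cpt G ((S.erase v).erase c) x1)) ∪ R, hsub, ?_,
    sep_two_path hS hv hcS hvc hx1 hR hvR hcR hRD, mem_union_right _ hr0, subset_union_left⟩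
  intro heq
  obtain ⟨r, hr, k, hvk, hk1, hk2, hk3, hk4⟩ := hR.exists_nb2 hvR hcR hvc hadj
  apply hb r v k
  have hkS : k ∈ S := by
    rw [mem_insert, mem_insert] at hk2
    rcases hk2 with rfl | rfl | hk2
    · exact hv
    · exact hcS
    · have := hRU hk2; grind
  refine ⟨by have := hRU hr; grind, ⟨hv, hkS, hk3, fun z hz => ?_⟩, hvk⟩
  rw [← heq, mem_union, mem_insert, mem_insert] at hz
  by_cases hzR : z ∈ insert v (insert c R)
  · exact hk4 z hzR
  · rw [mem_insert, mem_insert] at hzR
    push Not at hzR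
    have hzD : z ∈ cpt G ((S.erase v).erase c) x1 := by tauto
    constructor
    · intro hrz
      exact absurd hrz.symm (not_adj_cpt hx1 hzD (hRU hr) (hdis r hr))
    · rintro (rfl | rfl)
      · exact absurd rfl hzR.1
      · rw [mem_insert, mem_insert] at hk2
        tauto

end Pool.Agent.TH422.ITM
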