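import Pool.Agent.H175R2.Cut
import Pool.Agent.H175R2.Fam
import Pool.Agent.TH422.ITM.Sub

/-! A family of graphs of maximum degree three in which every vertex lies in exactly one triangle,
with unbounded clique-width. -/

namespace Pool.Agent.TH422.ITM

open Pool.Agent.H175R2 Pool.Agent.H175R2.CutAux

/-- grid-like structure on a graph -/
structure GridLike {V : Type} (G : SimpleGraph V) (n : ℕ) (p : V → Fin n × Fin n)
    (rep : Fin n × Fin n → V) : Prop where
  hrep : ∀ c, p (rep c) = c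
  h1 : ∀ x y, G.Adj x y → (p x).1.val ≤ (p y).1.val + 1 ∧ (p x).2.val ≤ (p y).2.val + 1
  h2 : ∀ c c', (grid n).Adj c c' → ∀ A : Set V, rep c ∈ A → rep c' ∉ A →
    ∃ x ∈ A, ∃ z ∉ A, G.Adj x z ∧ (p x = c ∨ p x = c') ∧ (p z = c ∨ p z = c')

lemma grid_swap {n : ℕ} {c c' : Fin n × Fin n} : (grid n).Adj c.swap c'.swap ↔ (grid n).Adj c c' :=
  (swapIso n).map_adj_iff

lemma GridLike.swap {V : Type} {G : SimpleGraph V} {n : ℕ} {p : V → Fin n × Fin n}
    {rep : Fin n × Fin n → V} (h : GridLike G n p rep) :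
    GridLike G n (fun v => (p v).swap) (fun c => rep c.swap) where
  hrep c := by simp [h.hrep]
  h1 x y hxy := ⟨(h.h1 x y hxy).2, (h.h1 x y hxy).1⟩
  h2 c c' hcc A hA hA' := by
    obtain ⟨x, hx, z, hz, hxz, h3, h4⟩ := h.h2 c.swap c'.swap (grid_swap.2 hcc) A hA hA'
    refine ⟨x, hx, z, hz, hxz, ?_, ?_⟩
    · rcases h3 with h3 | h3
      · left; rw [h3, Prod.swap_swap]
      · right; rw [h3, Prod.swap_swap]
    · rcases h4 with h4 | h4
      · left; rw [h4, Prod.swap_swap]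
      · right; rw [h4, Prod.swap_swap]

lemma GridLike.mixed_le {V : Type} {G : SimpleGraph V} {n : ℕ} {p : V → Fin n × Fin n}
    {rep : Fin n × Fin n → V} (h : GridLike G n p rep) {A : Set V} {k : ℕ} (hT : Types G A k) :
    (mixed (rep ⁻¹' A)).card ≤ 2 * k := by
  classical
  obtain ⟨l, hl⟩ := hT
  rcases isEmpty_or_nonempty V with hV | hV
  · rw [Finset.card_eq_zero.2 (Finset.eq_empty_of_forall_notMem (fun i _ => hV.elim (rep (i, i))))]
    omega
  have hch : ∀ i : Fin n, i ∈ mixed (rep ⁻¹' A) → ∃ x z : V, x ∈ A ∧ z ∉ A ∧ G.Adj x z ∧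
      (p x).1 = i ∧ (p z).1 = i := by
    intro i hi
    simp only [mixed, Finset.mem_filter, Finset.mem_univ, true_and] at hi
    obtain ⟨a, b, ha, hb, hab⟩ := step_exists (fun j => (i, j) ∈ rep ⁻¹' A) hi.1 hi.2
    have hadj : (grid n).Adj (i, a) (i, b) := by
      simp only [grid, SimpleGraph.fromRel_adj, ne_eq, Prod.mk.injEq, true_and]
      refine ⟨?_, ?_⟩
      · intro h
        rw [h] at hab
        omega
      · rcases hab with h | h
        · exact Or.inl (Or.inl h)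
        · exact Or.inr (Or.inl h)
    obtain ⟨x, hx, z, hz, hxz, h3, h4⟩ := h.h2 _ _ hadj A ha hb
    refine ⟨x, z, hx, hz, hxz, ?_, ?_⟩
    · rcases h3 with h3 | h3 <;> rw [h3]
    · rcases h4 with h4 | h4 <;> rw [h4]
  choose! x z hx hz hxz px pz using hch
  by_contra hcon
  push Not at hcon
  have hcard : (Finset.univ : Finset (Fin k)).card * 2 < (mixed (rep ⁻¹' A)).card := by
    simp; omega
  obtain ⟨t, _, ht⟩ := Finset.exists_lt_card_fiber_of_mul_lt_card_of_maps_to
    (f := fun i => l (x i)) (s := mixed (rep ⁻¹' A)) (t := Finset.univ)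
    (fun _ _ => Finset.mem_univ _) hcard
  rw [Finset.two_lt_card] at ht
  obtain ⟨a, ha, b, hb, c, hc, hab, hac, hbc⟩ := ht
  simp only [Finset.mem_filter] at ha hb hc
  have key : ∀ i j : Fin n, i ∈ mixed (rep ⁻¹' A) → j ∈ mixed (rep ⁻¹' A) → l (x i) = l (x j) →
      j.val ≤ i.val + 1 := by
    intro i j hi hj hij
    have h2 := (hl _ (hx i hi) _ (hx j hj) hij _ (hz i hi)).1 (hxz i hi)
    have h3 := (h.h1 _ _ h2).1
    rwa [px j hj, pz i hi] at h3
  have k1 := key a b ha.1 hb.1 (ha.2.trans hb.2.symm)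
  have k2 := key b a hb.1 ha.1 (hb.2.trans ha.2.symm)
  have k3 := key a c ha.1 hc.1 (ha.2.trans hc.2.symm)
  have k4 := key c a hc.1 ha.1 (hc.2.trans ha.2.symm)
  have k5 := key b c hb.1 hc.1 (hb.2.trans hc.2.symm)
  have k6 := key c b hc.1 hb.1 (hc.2.trans hb.2.symm)
  have n1 : a.val ≠ b.val := fun h => hab (Fin.ext h)
  have n2 : a.val ≠ c.val := fun h => hac (Fin.ext h)
  have n3 : b.val ≠ c.val := fun h => hbc (Fin.ext h)
  omega

theorem GridLike.not_cwLE {V : Type} [Finite V] {G : SimpleGraph V} {n : ℕ}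
    {p : V → Fin n × Fin n} {rep : Fin n × Fin n → V} (h : GridLike G n p rep) {k : ℕ}
    (hn : 6 * k + 2 ≤ n) : ¬ CwLE G k := by
  intro hcw
  have hinj : Function.Injective rep := fun c c' hc => by
    rw [← h.hrep c, ← h.hrep c', hc]
  have hcard : (Set.range rep).ncard = n * n := by
    rw [← Set.image_univ, Set.ncard_image_of_injective _ hinj, Set.ncard_univ]; simp
  obtain ⟨A, hT, h1, h2⟩ := balanced_cut G k hcw (Set.range rep) (by rw [hcard]; nlinarith)
  have e : (A ∩ Set.range rep).ncard = (rep ⁻¹' A).ncard := by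
    rw [← Set.image_preimage_eq_inter_range, Set.ncard_image_of_injective _ hinj]
  rw [e, hcard] at h1 h2
  have hcompl : (rep ⁻¹' A).ncard + (rep ⁻¹' A)ᶜ.ncard = n * n := by
    rw [Set.ncard_add_ncard_compl]; simp
  have hm := h.mixed_le hT
  have hbig : n ≤ 3 * (mixed (rep ⁻¹' A)).card → False := by
    intro h; omega
  by_cases hfull : ∃ i, ∀ j, (i, j) ∈ rep ⁻¹' A
  · by_cases hempty : ∃ i, ∀ j, (i, j) ∉ rep ⁻¹' A
    · obtain ⟨i, hi⟩ := hfull
      obtain ⟨i', hi'⟩ := hempty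
      have hm' := h.swap.mixed_le hT
      have : mixed ((fun c : Fin n × Fin n => rep c.swap) ⁻¹' A) = Finset.univ := by
        ext j
        simp only [mixed, Finset.mem_filter, Finset.mem_univ, true_and, iff_true]
        exact ⟨⟨i, hi j⟩, ⟨i', hi' j⟩⟩
      rw [this] at hm'
      simp at hm'
      omega
    · push Not at hempty
      have h3 : (rep ⁻¹' A)ᶜ.ncard ≤ (mixed (rep ⁻¹' A)ᶜ).card * n := by
        apply card_le_mixed
        rintro i ⟨j, hj⟩
        rw [mixed_compl]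
        simp only [mixed, Finset.mem_filter, Finset.mem_univ, true_and]
        exact ⟨hempty i, j, hj⟩
      rw [mixed_compl] at h3
      apply hbig
      have : n * n ≤ 3 * ((mixed (rep ⁻¹' A)).card * n) := by omega
      have : n * n ≤ (3 * (mixed (rep ⁻¹' A)).card) * n := by linarith
      exact Nat.le_of_mul_le_mul_right this (by omega)
  · push Not at hfull
    have h3 : (rep ⁻¹' A).ncard ≤ (mixed (rep ⁻¹' A)).card * n := by
      apply card_le_mixed
      rintro i ⟨j, hj⟩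
      simp only [mixed, Finset.mem_filter, Finset.mem_univ, true_and]
      exact ⟨⟨j, hj⟩, hfull i⟩
    apply hbig
    have : n * n ≤ (3 * (mixed (rep ⁻¹' A)).card) * n := by linarith
    exact Nat.le_of_mul_le_mul_right this (by omega)

/-- The inflated wall: cell `(i, j)` consists of the two triangles `(i, j, false, ·)` and
`(i, j, true, ·)`; the third vertices of the two triangles are joined, `(i, j, true, 0)` is joined to
`(i, j + 1, false, 0)` and `(i, j, true, 1)` to `(i + 1, j, false, 1)`. -/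
def wall (n : ℕ) : SimpleGraph (Fin n × Fin n × Bool × Fin 3) :=
  SimpleGraph.fromRel (fun x y =>
    (x.1 = y.1 ∧ x.2.1 = y.2.1 ∧ x.2.2.1 = y.2.2.1) ∨
    (x.1 = y.1 ∧ x.2.1 = y.2.1 ∧ x.2.2 = (false, 2) ∧ y.2.2 = (true, 2)) ∨
    (x.1 = y.1 ∧ x.2.1.val + 1 = y.2.1.val ∧ x.2.2 = (true, 0) ∧ y.2.2 = (false, 0)) ∨
    (x.1.val + 1 = y.1.val ∧ x.2.1 = y.2.1 ∧ x.2.2 = (true, 1) ∧ y.2.2 = (false, 1)))

/-- crossing a path -/
lemma cross3 {V : Type} {G : SimpleGraph V} (A : Set V) {P : V → Prop} (a b : V) (hP : P a ∧ P b)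
    (hab : a = b ∨ G.Adj a b) (ha : a ∈ A) (hb : b ∉ A) :
    ∃ x ∈ A, ∃ z ∉ A, G.Adj x z ∧ P x ∧ P z := by
  rcases hab with rfl | hab
  · exact absurd ha hb
  · exact ⟨a, ha, b, hb, hab, hP.1, hP.2⟩

lemma cross_list {V : Type} {G : SimpleGraph V} (A : Set V) {P : V → Prop} :
    ∀ (l : List V) (a b : V), List.IsChain (fun x y => x = y ∨ G.Adj x y) (a :: (l ++ [b])) →
      (∀ x ∈ a :: (l ++ [b]), P x) → a ∈ A → b ∉ A → ∃ x ∈ A, ∃ z ∉ A, G.Adj x z ∧ P x ∧ P z
  | [], a, b, hc, hP, ha, hb => by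
    refine cross3 A a b ⟨hP _ (by simp), hP _ (by simp)⟩ ?_ ha hb
    simpa using hc
  | c :: l, a, b, hc, hP, ha, hb => by
    rw [List.cons_append, List.isChain_cons_cons] at hc
    by_cases hcA : c ∈ A
    · exact cross_list A l c b hc.2 (fun x hx => hP x (List.mem_cons_of_mem _ hx)) hcA hb
    · exact cross3 A a c ⟨hP _ (by simp), hP _ (by simp)⟩ hc.1 ha hcA

lemma wall_gridLike (n : ℕ) : GridLike (wall n) n (fun v => (v.1, v.2.1))
    (fun c => (c.1, c.2, false, 2)) where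
  hrep c := rfl
  h1 x y hxy := by
    simp only [wall, SimpleGraph.fromRel_adj] at hxy
    rcases hxy.2 with (⟨h, h', _⟩ | ⟨h, h', _⟩ | ⟨h, h', _⟩ | ⟨h, h', _⟩) |
      (⟨h, h', _⟩ | ⟨h, h', _⟩ | ⟨h, h', _⟩ | ⟨h, h', _⟩) <;> simp only [h, h'] <;> omega
  h2 c c' hcc A hA hA' := by
    obtain ⟨i, j⟩ := c
    obtain ⟨i', j'⟩ := c'
    simp only [grid, SimpleGraph.fromRel_adj, ne_eq, Prod.mk.injEq] at hcc
    rcases hcc.2 with (⟨rfl, h⟩ | ⟨rfl, h⟩) | (⟨rfl, h⟩ | ⟨rfl, h⟩)
    · -- right neighbour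
      refine cross_list A [(i, j, true, 2), (i, j, true, 0), (i, j', false, 0)] _ _ ?_ ?_ hA hA'
      · simp [wall, SimpleGraph.fromRel_adj, h]
      · simp
    · refine cross_list A [(i, j, true, 2), (i, j, true, 1), (i', j, false, 1)] _ _ ?_ ?_ hA hA'
      · simp [wall, SimpleGraph.fromRel_adj, h]
      · simp
    · refine cross_list A [(i', j, false, 0), (i', j', true, 0), (i', j', true, 2)] _ _ ?_ ?_ hA hA'
      · simp [wall, SimpleGraph.fromRel_adj, h]
      · simp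
    · refine cross_list A [(i, j', false, 1), (i', j', true, 1), (i', j', true, 2)] _ _ ?_ ?_ hA hA'
      · simp [wall, SimpleGraph.fromRel_adj, h]
      · simp

theorem wall_unbounded : ∀ c N : ℕ, ∃ n ≥ N, ∀ k ≤ c, ¬ CwLE (wall n) k := by
  intro c N
  exact ⟨N + 6 * c + 2, by omega, fun k hk => (wall_gridLike _).not_cwLE (by omega)⟩

end Pool.Agent.TH422.ITM
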